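import Mathlib

set_option linter.all false

section

/- Ratios at small shifts: definitions of the analytic part. -/

set_option autoImplicit false

namespace Pool.Agent.MP_dd7250_nt.LS

open Finset Complex

/-- The cutoff `(1 - j / J)_+ ^ 2`. -/
noncomputable def psi (J : ℝ) (j : ℕ) : ℝ := max (1 - j / J) 0 ^ 2

/-- The weight of the block `b`. -/
noncomputable def dps (J : ℝ) (b j : ℕ) : ℝ := psi (J / 4 ^ b) j - psi (J / 4 ^ (b + 1)) j

/-- The linear form `∑ η j * π j / j` over `1 ≤ j ≤ Y`. -/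
noncomputable def lf (Y : ℕ) (η π : ℕ → ℂ) : ℂ := ∑ j ∈ Icc 1 Y, η j * π j / j

/-- The truncated exponential series. -/
noncomputable def Et (l : ℕ) (s : ℂ) : ℂ := ∑ k ∈ range (l + 1), s ^ k / k.factorial

/-- Taylor coefficients at zero. -/
noncomputable def tc (f : ℂ → ℂ) (k : ℕ) : ℂ := (k.factorial : ℂ)⁻¹ * iteratedDeriv k f 0

/-- The mean of the sums of the first `i` terms, `N < i ≤ 2 N`. -/
noncomputable def vp (N : ℕ) (a : ℕ → ℂ) : ℂ :=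
  (N : ℂ)⁻¹ * ∑ i ∈ Ioc N (2 * N), ∑ k ∈ range i, a k

/-- The block `b` of the low frequencies. -/
noncomputable def Sb (J : ℝ) (Y : ℕ) (a π : ℕ → ℂ) (b : ℕ) : ℂ :=
  lf Y (fun j => (dps J b j : ℂ) * a j) π

/-- The high frequencies, graded by `z`. -/
noncomputable def Hz (J : ℝ) (Y : ℕ) (a π : ℕ → ℂ) (z : ℂ) : ℂ :=
  lf Y (fun j => ((1 - psi J j : ℝ) : ℂ) * a j * z ^ j) π

/-- The approximation of the exponential of the low frequencies. -/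
noncomputable def EE (J : ℝ) (Y B l : ℕ) (a π : ℕ → ℂ) : ℂ :=
  ∏ b ∈ range B, Et (2 ^ b * l) (Sb J Y a π b)

/-- The short approximation of `exp (lf Y a π)`. -/
noncomputable def Vm (J : ℝ) (Y B l N : ℕ) (a π : ℕ → ℂ) : ℂ :=
  EE J Y B l a π * vp N (tc fun z => exp (Hz J Y a π z))

/-- The deformed coefficients. -/
noncomputable def et (J : ℝ) (B : ℕ) (a w : ℕ → ℂ) (z : ℂ) (j : ℕ) : ℂ :=
  a j * (∑ b ∈ range B, w b * (dps J b j : ℂ) + ((1 - psi J j : ℝ) : ℂ) * z ^ j)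

/-- The size of the kernel of the remainder of `vp`. -/
noncomputable def kr (r : ℝ) (N : ℕ) : ℝ := r⁻¹ ^ N / Real.sqrt (N * (1 - r⁻¹ ^ 2))

/-- A bump of width `s` on the circle. -/
noncomputable def kk (s θ : ℝ) : ℝ := s ^ 2 / (s ^ 2 + (2 - 2 * Real.cos θ))

/-- The local number of zeros at the angle `φ` and the scale `s`. -/
noncomputable def NN {n : ℕ} (s φ : ℝ) (θ : Fin n → ℝ) : ℝ :=
  ∑ i, (kk s (θ i + φ) + kk s (θ i - φ)) / 2

/-- The polynomial with the given zeros. -/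
noncomputable def Lam {n : ℕ} (θ : Fin n → ℝ) (x : ℂ) : ℂ := ∏ i, (1 - x * exp (θ i * I))

/-- The power sums of the zeros. -/
noncomputable def ps {n : ℕ} (θ : Fin n → ℝ) (j : ℕ) : ℂ := ((∑ i, Real.cos (j * θ i) : ℝ) : ℂ)

/-- The zeros are symmetric under conjugation. -/
structure Cj {n : ℕ} (θ : Fin n → ℝ) : Prop where
  sin0 : ∀ j : ℕ, ∑ i, Real.sin (j * θ i) = 0
  lam : ∀ x : ℂ, ∏ i, (1 - x * exp (-(θ i * I))) = Lam θ x

/-- A finite family of symmetric sets of `2 g` zeros whose short linear statistics have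
sub-Gaussian moments. -/
structure Ens {ι : Type} (g : ℕ) (I : Finset ι) (θ : ι → Fin (2 * g) → ℝ) : Prop where
  sym : ∀ i ∈ I, Cj (θ i)
  mom : ∀ (Y M k : ℕ) (η : ℕ → ℂ) (a : ℝ), 1 ≤ k → k * M ≤ g → (∀ j, M < j → η j = 0) →
    (∀ j, ‖η j‖ ≤ a) → ∑ j ∈ Icc 1 Y, ‖η j‖ / j ≤ a →
    ∑ i ∈ I, ‖lf Y η (ps (θ i))‖ ^ (2 * k) ≤ I.card * (100 * a ^ 2 * k) ^ k

/-- The range of the shifts at the scale `s`: `x₁, x₂` above, `y₁, y₂` below. -/
structure Rg (C s σ : ℝ) (x₁ x₂ y₁ y₂ : ℂ) : Prop where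
  hs : 0 < s
  hC : C * s ≤ 1 / 8
  h1 : ‖x₁‖ ≤ Real.exp σ
  h2 : ‖x₂‖ ≤ Real.exp σ
  h3 : ‖y₁‖ ≤ Real.exp (-s)
  h4 : ‖y₂‖ ≤ Real.exp (-s)
  d1 : ‖x₁ - 1‖ ≤ C * s
  d2 : ‖x₂ - 1‖ ≤ C * s
  d3 : ‖y₁ - 1‖ ≤ C * s
  d4 : ‖y₂ - 1‖ ≤ C * s

/-- The coefficients `y₁ ^ j + y₂ ^ j`. -/
noncomputable def aa (y₁ y₂ : ℂ) (j : ℕ) : ℂ := y₁ ^ j + y₂ ^ j

/-- The local weight of the value `x` of the character at a prime of norm `p⁻¹`. -/
noncomputable def mu (p a₀ a₁ x : ℂ) : ℂ :=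
  (1 + p)⁻¹ * (1 - a₀ * a₁) *
    (if x = 0 then p * ((1 - a₀ ^ 2) * (1 - a₁ ^ 2)) else 1 / 2 * ((1 + x * a₀) * (1 + x * a₁)))

/-- The part of the linear form at a prime of degree `d`. -/
noncomputable def phi (Y : ℕ) (v : ℂ) (η : ℕ → ℂ) (d : ℕ) (x : ℂ) : ℂ :=
  -∑ k ∈ Icc 1 (Y / d), η (k * d) * (v * x) ^ k / k

/-- The local factor of the model. -/
noncomputable def lc (Y : ℕ) (v X₁ X₂ : ℂ) (η : ℕ → ℂ) (d : ℕ) : ℂ :=
  ∑ x ∈ ({0, 1, -1} : Finset ℂ), mu (v ^ 2) (X₁ * v) (X₂ * v) x * exp (phi Y v η d x)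

/-- The leading term of the local factor. -/
noncomputable def mtm (Y : ℕ) (X : ℂ) (η : ℕ → ℂ) (d : ℕ) : ℂ :=
  -(X * η d) + (η d ^ 2 - if 2 * d ≤ Y then η (2 * d) else 0) / 2

theorem psi_nonneg (J : ℝ) (j : ℕ) : 0 ≤ psi J j := sq_nonneg _

theorem psi_le_one {J : ℝ} (hJ : 0 < J) (j : ℕ) : psi J j ≤ 1 := by
  have h : (0 : ℝ) ≤ j / J := by positivity
  exact pow_le_one₀ (le_max_right _ _) (max_le (by linarith) zero_le_one)

theorem psi_eq_zero {J : ℝ} (hJ : 0 < J) {j : ℕ} (h : J ≤ j) : psi J j = 0 := by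
  have h1 : (1 : ℝ) ≤ j / J := (one_le_div hJ).2 h
  rw [psi, max_eq_right (by linarith), zero_pow two_ne_zero]

theorem psi_mono {J J' : ℝ} (hJ : 0 < J) (h : J ≤ J') (j : ℕ) : psi J j ≤ psi J' j := by
  have h1 : (j : ℝ) / J' ≤ j / J := div_le_div_of_nonneg_left (Nat.cast_nonneg j) hJ h
  exact pow_le_pow_left₀ (le_max_right _ _) (max_le_max (by linarith) le_rfl) 2

theorem one_sub_psi_le {J : ℝ} (hJ : 0 < J) (j : ℕ) : 1 - psi J j ≤ 2 * j / J := by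
  have h : (0 : ℝ) ≤ j / J := by positivity
  rw [mul_div_assoc, psi]
  rcases le_total (1 - j / J : ℝ) 0 with h1 | h1
  · rw [max_eq_right h1]; nlinarith
  · rw [max_eq_left h1]; nlinarith

theorem dps_nonneg {J : ℝ} (hJ : 0 < J) (b j : ℕ) : 0 ≤ dps J b j :=
  sub_nonneg.2 (psi_mono (by positivity)
    (div_le_div_of_nonneg_left hJ.le (by positivity) (pow_le_pow_right₀ (by norm_num) b.le_succ)) j)

theorem dps_le_one {J : ℝ} (hJ : 0 < J) (b j : ℕ) : dps J b j ≤ 1 := by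
  have h1 := psi_le_one (J := J / 4 ^ b) (by positivity) j
  have h2 := psi_nonneg (J / 4 ^ (b + 1)) j
  rw [dps]
  linarith

theorem dps_eq_zero {J : ℝ} (hJ : 0 < J) {b j : ℕ} (h : J / 4 ^ b ≤ j) : dps J b j = 0 := by
  refine le_antisymm ?_ (dps_nonneg hJ b j)
  have h2 := psi_nonneg (J / 4 ^ (b + 1)) j
  rw [dps, psi_eq_zero (by positivity) h]
  linarith

theorem sum_dps (J : ℝ) {b B : ℕ} (h : b ≤ B) (j : ℕ) :
    ∑ b' ∈ Ico b B, dps J b' j = psi (J / 4 ^ b) j - psi (J / 4 ^ B) j := by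
  induction B, h using Nat.le_induction with
  | base => simp
  | succ B h ih => rw [sum_Ico_succ_top h, ih, dps]; ring

theorem sum_dps_range (J : ℝ) (B j : ℕ) :
    ∑ b ∈ range B, dps J b j = psi J j - psi (J / 4 ^ B) j := by
  rw [range_eq_Ico, sum_dps J (Nat.zero_le B), pow_zero, div_one]

theorem sum_dps_div {J : ℝ} (hJ : 0 < J) (b Y : ℕ) : ∑ j ∈ Icc 1 Y, dps J b j / j ≤ 8 := by
  have h4 : (0 : ℝ) < J / 4 ^ b := by positivity
  rw [← sum_filter_of_ne (p := fun j : ℕ => j ≤ ⌊J / 4 ^ b⌋₊) fun j _ hj => by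
    by_contra h
    exact hj (by rw [dps_eq_zero hJ (Nat.lt_of_floor_lt (not_le.1 h)).le, zero_div])]
  refine (sum_le_card_nsmul _ _ (8 / (J / 4 ^ b)) fun j hj => ?_).trans ?_
  · have hj0 : (0 : ℝ) < j := by exact_mod_cast (mem_Icc.1 (mem_filter.1 hj).1).1
    have h1 := one_sub_psi_le (J := J / 4 ^ (b + 1)) (by positivity) j
    have h2 := psi_le_one h4 j
    rw [div_le_iff₀ hj0]
    refine le_trans (b := 2 * j / (J / 4 ^ (b + 1))) (by rw [dps]; linarith) (le_of_eq ?_)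
    field_simp
    ring
  · have h1 : (((Icc 1 Y).filter fun j : ℕ => j ≤ ⌊J / 4 ^ b⌋₊).card : ℝ) ≤ J / 4 ^ b := by
      refine le_trans (Nat.cast_le.2 ?_) (Nat.floor_le h4.le)
      refine (card_le_card (t := Icc 1 ⌊J / 4 ^ b⌋₊) fun j hj => ?_).trans_eq (by simp)
      exact mem_Icc.2 ⟨(mem_Icc.1 (mem_filter.1 hj).1).1, (mem_filter.1 hj).2⟩
    rw [nsmul_eq_mul]
    refine (mul_le_mul_of_nonneg_right h1 (by positivity)).trans_eq ?_
    field_simp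

theorem lf_add (Y : ℕ) (η η' π : ℕ → ℂ) :
    lf Y (fun j => η j + η' j) π = lf Y η π + lf Y η' π := by
  simp only [lf, ← sum_add_distrib]
  exact sum_congr rfl fun j _ => by ring

theorem lf_congr {Y : ℕ} {η η' π π' : ℕ → ℂ} (h : ∀ j, 1 ≤ j → η j = η' j)
    (h' : ∀ j, 1 ≤ j → π j = π' j) : lf Y η π = lf Y η' π' :=
  sum_congr rfl fun j hj => by rw [h j (mem_Icc.1 hj).1, h' j (mem_Icc.1 hj).1]

theorem lf_et (J : ℝ) (Y B : ℕ) (a w π : ℕ → ℂ) (z : ℂ) :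
    lf Y (et J B a w z) π = ∑ b ∈ range B, w b * Sb J Y a π b + Hz J Y a π z := by
  simp only [lf, et, Sb, Hz, mul_sum]
  rw [sum_comm, ← sum_add_distrib]
  refine sum_congr rfl fun j _ => ?_
  rw [mul_add, add_mul, add_div, mul_sum, sum_mul, sum_div]
  congr 1
  · exact sum_congr rfl fun b _ => by ring
  · ring

theorem sum_Sb {J : ℝ} (hJ : 0 < J) {b B : ℕ} (h : b ≤ B) (hB : J ≤ 4 ^ B) (Y : ℕ)
    (a π : ℕ → ℂ) : ∑ b' ∈ Ico b B, Sb J Y a π b' =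
      lf Y (fun j => (psi (J / 4 ^ b) j : ℂ) * a j) π := by
  simp only [Sb, lf]
  rw [sum_comm]
  refine sum_congr rfl fun j hj => ?_
  have h1 : J / 4 ^ B ≤ j := ((div_le_one (by positivity)).2 hB).trans
    (by exact_mod_cast (mem_Icc.1 hj).1)
  rw [← sum_div, ← sum_mul, ← sum_mul, ← ofReal_sum, sum_dps J h,
    psi_eq_zero (by positivity) h1, sub_zero]

theorem lf_split {J : ℝ} (hJ : 0 < J) {B : ℕ} (hB : J ≤ 4 ^ B) (Y : ℕ) (a π : ℕ → ℂ) :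
    lf Y a π = ∑ b ∈ range B, Sb J Y a π b + Hz J Y a π 1 := by
  rw [range_eq_Ico, sum_Sb hJ (Nat.zero_le B) hB, Hz, ← lf_add]
  refine lf_congr (fun j _ => ?_) fun _ _ => rfl
  simp only [pow_zero, div_one, one_pow, ofReal_sub, ofReal_one]
  ring

theorem differentiable_Hz (J : ℝ) (Y : ℕ) (a π : ℕ → ℂ) :
    Differentiable ℂ fun z => exp (Hz J Y a π z) := by
  unfold Hz lf
  fun_prop

theorem Vm_congr (J : ℝ) (Y B l N : ℕ) (a : ℕ → ℂ) {π π' : ℕ → ℂ} (h : ∀ j, 1 ≤ j → π j = π' j) :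
    Vm J Y B l N a π = Vm J Y B l N a π' := by
  have h1 : ∀ η, lf Y η π = lf Y η π' := fun η => lf_congr (fun _ _ => rfl) h
  simp only [Vm, EE, Sb, Hz, h1]

theorem kk_nonneg (s θ : ℝ) : 0 ≤ kk s θ :=
  div_nonneg (sq_nonneg s) (by nlinarith [Real.cos_le_one θ, sq_nonneg s])

theorem kk_le_one (s θ : ℝ) : kk s θ ≤ 1 :=
  div_le_one_of_le₀ (by linarith [Real.cos_le_one θ])
    (by nlinarith [Real.cos_le_one θ, sq_nonneg s])

theorem NN_nonneg {n : ℕ} (s φ : ℝ) (θ : Fin n → ℝ) : 0 ≤ NN s φ θ :=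
  sum_nonneg fun i _ => by linarith [kk_nonneg s (θ i + φ), kk_nonneg s (θ i - φ)]

theorem NN_le {n : ℕ} (s φ : ℝ) (θ : Fin n → ℝ) : NN s φ θ ≤ n := by
  refine (sum_le_card_nsmul _ _ 1 fun i _ => ?_).trans_eq (by simp)
  linarith [kk_le_one s (θ i + φ), kk_le_one s (θ i - φ)]

end Pool.Agent.MP_dd7250_nt.LS

end

section

/- Ratios at small shifts: the maximum principle across cancelling poles. -/

set_option autoImplicit false
set_option maxHeartbeats 400000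

namespace Pool.Agent.MP_dd7250_nt.LS

open Finset Complex Filter Topology

theorem mp {Φ P : ℂ → ℂ} {R ρ M : ℝ} (hρ : 0 < ρ) (hR : ρ < R)
    (hΦ : DifferentiableOn ℂ Φ (Metric.ball 0 R)) (hP : DifferentiableOn ℂ P (Metric.ball 0 R))
    (hz : ∀ ζ ∈ Metric.ball (0 : ℂ) R, P ζ = 0 → Φ ζ = 0 ∧ deriv P ζ ≠ 0) (h0 : P 0 ≠ 0)
    (hM : ∀ ζ : ℂ, ‖ζ‖ = ρ → P ζ ≠ 0 ∧ ‖Φ ζ / P ζ‖ ≤ M) : ‖Φ 0 / P 0‖ ≤ M := by
  classical
  obtain ⟨G, hG⟩ : ∃ G : ℂ → ℂ, ∀ z, G z = if P z = 0 then deriv Φ z / deriv P z else Φ z / P z :=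
    ⟨_, fun _ => rfl⟩
  have hd : DifferentiableOn ℂ G (Metric.ball 0 R) := by
    intro w hw
    have hn : Metric.ball (0 : ℂ) R ∈ 𝓝 w := Metric.isOpen_ball.mem_nhds hw
    refine DifferentiableAt.differentiableWithinAt ?_
    by_cases h : P w = 0
    · obtain ⟨h1, h2⟩ := hz w hw h
      have a1 := ((differentiableOn_dslope hn).2 hΦ).differentiableAt hn
      have a2 := ((differentiableOn_dslope hn).2 hP).differentiableAt hn
      have a3 : dslope P w w ≠ 0 := by rwa [dslope_same]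
      refine (a1.div a2 a3).congr_of_eventuallyEq ?_
      filter_upwards [a2.continuousAt.eventually_ne a3] with z hz'
      rw [hG, Pi.div_apply]
      by_cases e : z = w
      · rw [e, if_pos h, dslope_same, dslope_same]
      · have b1 := sub_smul_dslope Φ w z
        have b2 := sub_smul_dslope P w z
        rw [h1, sub_zero, smul_eq_mul] at b1
        rw [h, sub_zero, smul_eq_mul] at b2
        have b3 : z - w ≠ 0 := sub_ne_zero.2 e
        rw [if_neg (by rw [← b2]; exact mul_ne_zero b3 hz'), ← b1, ← b2, mul_div_mul_left _ _ b3]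
    · have a1 := hΦ.differentiableAt hn
      have a2 := hP.differentiableAt hn
      refine (a1.div a2 h).congr_of_eventuallyEq ?_
      filter_upwards [a2.continuousAt.eventually_ne h] with z hz'
      rw [hG, if_neg hz', Pi.div_apply]
  have h1 := norm_le_of_forall_mem_frontier_norm_le (f := G) (C := M) (z := 0)
    (Metric.isBounded_ball (x := (0 : ℂ)) (r := ρ))
    (hd.diffContOnCl_ball (Metric.closedBall_subset_ball hR)) (fun z hz' => by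
      rw [frontier_ball _ hρ.ne', mem_sphere_zero_iff_norm] at hz'
      rw [hG, if_neg (hM z hz').1]
      exact (hM z hz').2) (subset_closure (Metric.mem_ball_self hρ))
  rwa [hG, if_neg h0] at h1

theorem mp_radius (ζ : Fin 4 → ℂ) {η : ℝ} (hη : 0 < η) : ∃ ρ : ℝ, 0 < ρ ∧ ρ ≤ 10 * η ∧
    ∀ (i : Fin 4) (z : ℂ), ‖z‖ = ρ → η ≤ ‖z - ζ i‖ := by
  by_contra h
  have h1 : ∀ m : Fin 5, ∃ i : Fin 4, |2 * η * ((m : ℕ) + 1) - ‖ζ i‖| < η := fun m => by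
    by_contra h2
    push Not at h2
    have h3 : ((m : ℕ) : ℝ) ≤ 4 := by exact_mod_cast Nat.lt_succ_iff.1 m.2
    refine h ⟨2 * η * ((m : ℕ) + 1), by positivity, by nlinarith, fun i z hz => (h2 i).trans ?_⟩
    rw [← hz]
    exact abs_norm_sub_norm_le _ _
  choose f hf using h1
  obtain ⟨m, m', hne, e⟩ := Fintype.exists_ne_map_eq_of_card_lt f (by simp)
  have a1 := abs_lt.1 (hf m)
  have a2 := abs_lt.1 (hf m')
  rw [e] at a1
  have b1 : ((m : ℕ) : ℝ) < (m' : ℕ) + 1 := by nlinarith [a1.1, a1.2, a2.1, a2.2]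
  have b2 : ((m' : ℕ) : ℝ) < (m : ℕ) + 1 := by nlinarith [a1.1, a1.2, a2.1, a2.2]
  have c1 : (m : ℕ) < (m' : ℕ) + 1 := by exact_mod_cast b1
  have c2 : (m' : ℕ) < (m : ℕ) + 1 := by exact_mod_cast b2
  exact hne (Fin.ext (by omega))

end Pool.Agent.MP_dd7250_nt.LS

end

section

/- Ratios at small shifts: cosine series with convex coefficients. -/

set_option autoImplicit false
set_option maxHeartbeats 400000

namespace Pool.Agent.MP_dd7250_nt.LS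

open Finset Complex Filter Topology

theorem conv_L1 {s : ℕ → ℝ} (hD : ∀ j, 2 * s (j + 1) ≤ s j + s (j + 2)) (θ : ℝ) (Y : ℕ) :
    2 * s Y * (1 - Real.cos ((Y + 1) * θ)) - 2 * s (Y + 1) * (1 - Real.cos (Y * θ)) ≤
      (2 - 2 * Real.cos θ) * (s 0 + 2 * ∑ j ∈ Icc 1 Y, s j * Real.cos (j * θ)) ∧
    (2 - 2 * Real.cos θ) * (s 0 + 2 * ∑ j ∈ Icc 1 Y, s j * Real.cos (j * θ)) ≤
      4 * (s 0 - s 1 - s Y + s (Y + 1)) +
        (2 * s Y * (1 - Real.cos ((Y + 1) * θ)) - 2 * s (Y + 1) * (1 - Real.cos (Y * θ))) := by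
  induction Y with
  | zero => constructor <;> simp <;> linarith
  | succ Y ih =>
    have e : Real.cos ((Y + 1 + 1) * θ) =
        2 * Real.cos θ * Real.cos ((Y + 1) * θ) - Real.cos (Y * θ) := by
      rw [show ((Y : ℝ) + 1 + 1) * θ = (Y + 1) * θ + θ by ring,
        show (Y : ℝ) * θ = (Y + 1) * θ - θ by ring, Real.cos_add, Real.cos_sub]
      ring
    have a1 := mul_nonneg (sub_nonneg.2 (hD Y)) (sub_nonneg.2 (Real.cos_le_one ((Y + 1) * θ)))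
    have a2 := mul_nonneg (sub_nonneg.2 (hD Y))
      (sub_nonneg.2 (Real.neg_one_le_cos ((Y + 1) * θ)))
    rw [sum_Icc_succ_top (by omega)]
    push_cast
    rw [e]
    constructor <;> nlinarith [ih.1, ih.2]

/-- The convex coefficients. -/
noncomputable def uu_L1 (J : ℝ) (j : ℕ) : ℝ := (2 * max J j - j) / max J j ^ 2

theorem uu_zero_L1 {J : ℝ} (hJ : 0 < J) : uu_L1 J 0 = 2 / J := by
  rw [uu_L1, Nat.cast_zero, max_eq_left hJ.le]
  field_simp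
  ring

theorem uu_eq_L1 {J : ℝ} (hJ : 0 < J) {j : ℕ} (hj : 1 ≤ j) : (1 - psi J j) / j = uu_L1 J j := by
  have h0 : (0 : ℝ) < j := by exact_mod_cast hj
  rcases le_total J j with h | h
  · rw [psi_eq_zero hJ h, uu_L1, max_eq_right h]
    field_simp
    ring
  · rw [psi, uu_L1, max_eq_left h, max_eq_left (sub_nonneg.2 ((div_le_one hJ).2 h))]
    field_simp
    ring

theorem uu_ge_L1 {J t : ℝ} (hJ : 0 < J) (ht : J ≤ t) (j : ℕ) : (2 * t - j) / t ^ 2 ≤ uu_L1 J j := by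
  have h0 : 0 < t := hJ.trans_le ht
  have hm : 0 < max J j := lt_max_of_lt_left hJ
  rw [uu_L1, div_le_div_iff₀ (by positivity) (by positivity)]
  rcases le_total J j with h | h
  · rw [max_eq_right h]
    nlinarith [mul_nonneg (Nat.cast_nonneg (α := ℝ) j) (sq_nonneg (t - j))]
  · rw [max_eq_left h]
    have h1 := mul_le_mul_of_nonneg_right h h0.le
    have h2 := mul_le_mul_of_nonneg_right (h.trans ht) hJ.le
    nlinarith [mul_nonneg (sub_nonneg.2 ht) (show 0 ≤ 2 * J * t - j * (t + J) by linarith)]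

theorem uu_nonneg_L1 (J : ℝ) (j : ℕ) : 0 ≤ uu_L1 J j :=
  div_nonneg (by linarith [le_max_right J j, Nat.cast_nonneg (α := ℝ) j]) (sq_nonneg _)

theorem uu_le_one_L1 {J : ℝ} (hJ : 0 < J) {j : ℕ} (hj : 1 ≤ j) : uu_L1 J j ≤ 1 := by
  have h0 : (1 : ℝ) ≤ j := by exact_mod_cast hj
  rw [← uu_eq_L1 hJ hj]
  exact div_le_one_of_le₀ (by linarith [psi_nonneg J j]) (by linarith)

theorem uu_anti_L1 {J : ℝ} (hJ : 0 < J) (j : ℕ) : uu_L1 J (j + 1) ≤ uu_L1 J j := by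
  refine le_trans ?_ (uu_ge_L1 hJ (le_max_left J ((j + 1 : ℕ) : ℝ)) j)
  refine div_le_div_of_nonneg_right ?_ (sq_nonneg _)
  push_cast
  linarith

theorem uu_conv_L1 {J ρ : ℝ} (hJ : 0 < J) (h0 : 0 ≤ ρ) (h1 : ρ ≤ 1) (j : ℕ) :
    2 * (uu_L1 J (j + 1) * ρ ^ (j + 1)) ≤ uu_L1 J j * ρ ^ j + uu_L1 J (j + 2) * ρ ^ (j + 2) := by
  have a1 : 2 * uu_L1 J (j + 1) ≤ uu_L1 J j + uu_L1 J (j + 2) := by
    refine le_trans (le_of_eq ?_) (add_le_add (uu_ge_L1 hJ (le_max_left J ((j + 1 : ℕ) : ℝ)) j)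
      (uu_ge_L1 hJ (le_max_left J ((j + 1 : ℕ) : ℝ)) (j + 2)))
    rw [uu_L1]
    push_cast
    ring
  have a2 : uu_L1 J (j + 2) ≤ uu_L1 J (j + 1) := uu_anti_L1 hJ (j + 1)
  have a3 := uu_nonneg_L1 J (j + 2)
  have a4 : 0 ≤ uu_L1 J j - 2 * ρ * uu_L1 J (j + 1) + ρ ^ 2 * uu_L1 J (j + 2) := by
    nlinarith [mul_nonneg (sub_nonneg.2 h1) (sub_nonneg.2 a2),
      mul_nonneg (sq_nonneg (1 - ρ)) a3]
  have a5 := mul_nonneg (pow_nonneg h0 j) a4
  rw [pow_succ ρ (j + 1), pow_succ ρ j]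
  nlinarith

theorem lower_L1 {J ρ : ℝ} (hJ : 0 < J) (h0 : 0 ≤ ρ) (h1 : ρ ≤ 1) (θ : ℝ) :
    ∃ A : ℝ, ∀ Y : ℕ,
      -∑ j ∈ Icc 1 Y, uu_L1 J j * ρ ^ j * Real.cos (j * θ) ≤ 1 / J + A * ρ ^ (Y + 1) := by
  rcases (Real.cos_le_one θ).eq_or_lt with h | h
  · have hs : Real.sin θ = 0 := by
      have := Real.sin_sq_add_cos_sq θ
      rw [h] at this
      exact pow_eq_zero_iff two_ne_zero |>.1 (by linarith)
    have hc : ∀ j : ℕ, Real.cos (j * θ) = 1 := fun j => by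
      induction j with
      | zero => simp
      | succ j ih => rw [Nat.cast_succ, add_mul, one_mul, Real.cos_add, ih, h, hs]; ring
    refine ⟨0, fun Y => ?_⟩
    have a1 : 0 ≤ ∑ j ∈ Icc 1 Y, uu_L1 J j * ρ ^ j * Real.cos (j * θ) :=
      sum_nonneg fun j _ => by
        rw [hc, mul_one]; exact mul_nonneg (uu_nonneg_L1 J j) (pow_nonneg h0 j)
    have a2 : 0 < 1 / J := by positivity
    linarith
  · have hp : 0 < 2 - 2 * Real.cos θ := by linarith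
    refine ⟨2 / (2 - 2 * Real.cos θ), fun Y => ?_⟩
    have a1 := (conv_L1 (s := fun j => uu_L1 J j * ρ ^ j) (uu_conv_L1 hJ h0 h1) θ Y).1
    simp only [uu_zero_L1 hJ, pow_zero, mul_one] at a1
    have a2 := mul_nonneg (mul_nonneg (uu_nonneg_L1 J Y) (pow_nonneg h0 Y))
      (sub_nonneg.2 (Real.cos_le_one ((Y + 1) * θ)))
    have a3 := mul_nonneg (mul_nonneg (uu_nonneg_L1 J (Y + 1)) (pow_nonneg h0 (Y + 1)))
      (sub_nonneg.2 (Real.neg_one_le_cos (Y * θ)))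
    have a4 := mul_le_mul_of_nonneg_right (uu_le_one_L1 hJ (Nat.le_add_left 1 Y))
      (pow_nonneg h0 (Y + 1))
    refine le_of_mul_le_mul_left ?_ hp
    have e : (2 - 2 * Real.cos θ) * (1 / J + 2 / (2 - 2 * Real.cos θ) * ρ ^ (Y + 1)) =
        (2 - 2 * Real.cos θ) * (2 / J) / 2 + 2 * ρ ^ (Y + 1) := by
      field_simp
    rw [e]
    nlinarith

theorem low_open_L1 {J : ℝ} (hJ : 0 < J) {Y : ℕ} (hY : J ≤ Y) {w : ℂ} (hw : ‖w‖ < 1) :
    ‖1 - w‖ * Real.exp (∑ j ∈ Icc 1 Y, (psi J j : ℂ) * w ^ j / j).re ≤ Real.exp (1 / J) := by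
  have hne : 0 < ‖1 - w‖ := norm_pos_iff.2 fun h => by
    rw [← sub_eq_zero.1 h, norm_one] at hw
    exact lt_irrefl _ hw
  rw [← Real.exp_log hne, ← Real.exp_add, Real.exp_le_exp]
  obtain ⟨A, hA⟩ := lower_L1 hJ (norm_nonneg w) hw.le (arg w)
  have hre : ∀ j : ℕ, (w ^ j).re = ‖w‖ ^ j * Real.cos (j * arg w) := fun j => by
    conv_lhs => rw [← norm_mul_exp_arg_mul_I w, mul_pow, ← Complex.exp_nat_mul, ← ofReal_pow,
      re_ofReal_mul, ← mul_assoc, ← ofReal_natCast, ← ofReal_mul, exp_ofReal_mul_I_re]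
  have t1 : Tendsto (fun n : ℕ => ∑ j ∈ range (n + 1), (w ^ j / j).re) atTop
      (𝓝 (-Real.log ‖1 - w‖)) := by
    have := (hasSum_re (hasSum_taylorSeries_neg_log hw)).tendsto_sum_nat
    rw [neg_re, log_re] at this
    exact this.comp (tendsto_add_atTop_nat 1)
  have t2 : Tendsto (fun n : ℕ => 1 / J + A * ‖w‖ ^ (n + 1)) atTop (𝓝 (1 / J + A * 0)) :=
    (((tendsto_pow_atTop_nhds_zero_of_lt_one (norm_nonneg w) hw).comp
      (tendsto_add_atTop_nat 1)).const_mul A).const_add _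
  have t3 := t1.add t2
  have key : (∑ j ∈ Icc 1 Y, (psi J j : ℂ) * w ^ j / j).re ≤
      -Real.log ‖1 - w‖ + (1 / J + A * 0) := by
    refine ge_of_tendsto t3 (eventually_atTop.2 ⟨Y, fun n hn => ?_⟩)
    have e1 : ∑ j ∈ Icc 1 Y, (psi J j : ℂ) * w ^ j / j = ∑ j ∈ Icc 1 n, (psi J j : ℂ) * w ^ j / j :=
      sum_subset (Icc_subset_Icc_right hn) fun j hj hj' => by
        have h1 := (mem_Icc.1 hj).1
        have h2 : Y ≤ j := by
          by_contra h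
          exact hj' (mem_Icc.2 ⟨h1, by omega⟩)
        rw [psi_eq_zero hJ (hY.trans (Nat.cast_le.2 h2))]
        simp
    have e2 : ∑ j ∈ range (n + 1), (w ^ j / j).re = ∑ j ∈ Icc 1 n, (w ^ j / j).re := by
      rw [range_eq_Ico, sum_eq_sum_Ico_succ_bot (Nat.succ_pos n)]
      simp [Ico_add_one_right_eq_Icc]
    refine le_trans (le_of_eq ?_) (add_le_add le_rfl (hA n))
    rw [e1, e2, re_sum, ← sub_eq_add_neg, ← sum_sub_distrib]
    refine sum_congr rfl fun j hj => ?_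
    rw [← uu_eq_L1 hJ (mem_Icc.1 hj).1, div_natCast_re, div_natCast_re, re_ofReal_mul, hre]
    ring
  linarith

theorem low_bound {J : ℝ} (hJ : 0 < J) {Y : ℕ} (hY : J ≤ Y) {w : ℂ} (hw : ‖w‖ ≤ 1) :
    ‖1 - w‖ * Real.exp (∑ j ∈ Icc 1 Y, (psi J j : ℂ) * w ^ j / j).re ≤ Real.exp (1 / J) := by
  have hc : IsClosed {w : ℂ | ‖1 - w‖ * Real.exp (∑ j ∈ Icc 1 Y, (psi J j : ℂ) * w ^ j / j).re ≤
      Real.exp (1 / J)} := isClosed_le (by fun_prop) continuous_const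
  have h := closure_minimal (s := Metric.ball (0 : ℂ) 1)
    (fun w hw => low_open_L1 hJ hY (mem_ball_zero_iff.1 hw)) hc
  rw [closure_ball _ one_ne_zero] at h
  exact h (mem_closedBall_zero_iff.2 hw)

theorem high_bound {J ρ : ℝ} (hJ : 0 < J) (h0 : 0 ≤ ρ) (h1 : ρ < 1) (s θ : ℝ) (Y : ℕ) :
    (s ^ 2 + (2 - 2 * Real.cos θ)) *
      (∑ j ∈ Icc 1 Y, (1 - psi J j) / j * ρ ^ j * Real.cos (j * θ) - ρ ^ Y / (1 - ρ)) ≤
      s ^ 2 * (2 / (J * (1 - ρ))) + (4 * (1 - ρ) / J + 2 / J ^ 2) := by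
  have hρ : 0 < 1 - ρ := sub_pos.2 h1
  have hp : 0 ≤ 2 - 2 * Real.cos θ := by linarith [Real.cos_le_one θ]
  rw [sum_congr rfl fun j hj => by rw [uu_eq_L1 hJ (mem_Icc.1 hj).1], add_mul]
  have hs : ∀ j, 0 ≤ uu_L1 J j * ρ ^ j := fun j => mul_nonneg (uu_nonneg_L1 J j) (pow_nonneg h0 j)
  have hq : ∀ n : ℕ, 0 ≤ ρ ^ n / (1 - ρ) := fun n => by positivity
  refine add_le_add (mul_le_mul_of_nonneg_left ?_ (sq_nonneg s)) ?_
  · have a1 : ∀ n : ℕ, ∑ j ∈ Icc 1 n, uu_L1 J j * ρ ^ j * Real.cos (j * θ) ≤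
        2 / J * ((1 - ρ ^ (n + 1)) / (1 - ρ)) := fun n => by
      induction n with
      | zero => simp; positivity
      | succ n ih =>
        have b1 : uu_L1 J (n + 1) ≤ 2 / J :=
          uu_zero_L1 hJ ▸ antitone_nat_of_succ_le (uu_anti_L1 hJ) (Nat.zero_le _)
        have b2 := mul_le_mul_of_nonneg_left (Real.cos_le_one ((n + 1 : ℕ) * θ)) (hs (n + 1))
        have b3 := mul_le_mul_of_nonneg_right b1 (pow_nonneg h0 (n + 1))
        have e : 2 / J * ((1 - ρ ^ (n + 1 + 1)) / (1 - ρ)) =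
            2 / J * ((1 - ρ ^ (n + 1)) / (1 - ρ)) + 2 / J * ρ ^ (n + 1) := by
          field_simp
          ring
        rw [sum_Icc_succ_top (by omega), e]
        linarith
    have a2 : 2 / J * ((1 - ρ ^ (Y + 1)) / (1 - ρ)) ≤ 2 / J * (1 / (1 - ρ)) := by
      have := pow_nonneg h0 (Y + 1)
      gcongr
      linarith
    rw [div_mul_div_comm 2 J 1, mul_one] at a2
    linarith [a1 Y, hq Y]
  · have mono : Monotone fun n : ℕ =>
        ∑ j ∈ Icc 1 n, uu_L1 J j * ρ ^ j * Real.cos (j * θ) - ρ ^ n / (1 - ρ) :=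
      monotone_nat_of_le_succ fun n => by
        have b2 := mul_le_mul_of_nonneg_left (Real.neg_one_le_cos ((n + 1 : ℕ) * θ)) (hs (n + 1))
        have b3 := mul_le_mul_of_nonneg_right (uu_le_one_L1 hJ (Nat.le_add_left 1 n))
          (pow_nonneg h0 (n + 1))
        have b4 : ρ ^ (n + 1) ≤ ρ ^ n := pow_le_pow_of_le_one h0 h1.le n.le_succ
        have e : ρ ^ (n + 1) / (1 - ρ) = ρ ^ n / (1 - ρ) - ρ ^ n := by
          field_simp
          ring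
        rw [sum_Icc_succ_top (by omega), e]
        linarith
    have t2 : Tendsto (fun n : ℕ => 4 * (1 - ρ) / J + 2 / J ^ 2 + 2 * ρ ^ (n + 1)) atTop
        (𝓝 (4 * (1 - ρ) / J + 2 / J ^ 2 + 2 * 0)) :=
      (((tendsto_pow_atTop_nhds_zero_of_lt_one h0 h1).comp
        (tendsto_add_atTop_nat 1)).const_mul 2).const_add _
    rw [mul_zero, add_zero] at t2
    refine ge_of_tendsto t2 (eventually_atTop.2 ⟨Y, fun n hn => ?_⟩)
    refine (mul_le_mul_of_nonneg_left (mono hn) hp).trans ?_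
    have a1 := (conv_L1 (s := fun j => uu_L1 J j * ρ ^ j) (uu_conv_L1 hJ h0 h1.le) θ n).2
    simp only [uu_zero_L1 hJ, pow_zero, mul_one, pow_one] at a1
    have a2 := mul_nonneg (hs n) (sub_nonneg.2 (Real.neg_one_le_cos ((n + 1) * θ)))
    have a3 := mul_nonneg (hs (n + 1)) (sub_nonneg.2 (Real.cos_le_one (n * θ)))
    have a4 := mul_le_mul_of_nonneg_right (uu_le_one_L1 hJ (Nat.le_add_left 1 n))
      (pow_nonneg h0 (n + 1))
    have a5 := mul_le_mul_of_nonneg_right (uu_ge_L1 hJ le_rfl 1) h0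
    have a6 := mul_nonneg hp (hq n)
    have a7 : 0 ≤ (2 - 2 * Real.cos θ) * (2 / J) := by positivity
    have a8 : 0 ≤ (1 - ρ) / J ^ 2 := by positivity
    have e : 4 * (1 - ρ) / J + 2 / J ^ 2 =
        2 * (2 / J) - 2 * ((2 * J - (1 : ℕ)) / J ^ 2 * ρ) + 2 * ((1 - ρ) / J ^ 2) := by
      push_cast
      field_simp
      ring
    rw [e]
    nlinarith

end Pool.Agent.MP_dd7250_nt.LS

end

section

/- Ratios at small shifts: pointwise bounds in terms of the zeros. -/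

set_option autoImplicit false
set_option maxHeartbeats 400000

namespace Pool.Agent.MP_dd7250_nt.LS

open Finset Complex Filter Topology

theorem ps_ZL {n : ℕ} {θ : Fin n → ℝ} (h : Cj θ) (j : ℕ) :
    ps θ j = ∑ i, exp (θ i * I) ^ j := by
  have h1 : ∀ i, exp (θ i * I) ^ j =
      ((Real.cos (j * θ i) : ℝ) : ℂ) + ((Real.sin (j * θ i) : ℝ) : ℂ) * I := fun i => by
    rw [← exp_nat_mul, ← mul_assoc, exp_mul_I]
    push_cast
    rfl
  simp only [h1]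
  rw [sum_add_distrib, ← sum_mul, ← ofReal_sum, ← ofReal_sum, h.sin0 j, ps]
  simp

theorem lf_ZL {n : ℕ} {θ : Fin n → ℝ} (h : Cj θ) (Y : ℕ) (c : ℕ → ℂ) (w : ℂ) :
    lf Y (fun j => c j * w ^ j) (ps θ) =
      ∑ i, ∑ j ∈ Icc 1 Y, c j * (w * exp (θ i * I)) ^ j / j := by
  rw [sum_comm, lf]
  refine sum_congr rfl fun j _ => ?_
  rw [ps_ZL h, mul_sum, sum_div]
  exact sum_congr rfl fun i _ => by rw [mul_pow, mul_assoc]

theorem norm_ZL (w : ℂ) (t : ℝ) : ‖w * exp (t * I)‖ = ‖w‖ := by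
  rw [norm_mul, norm_exp_ofReal_mul_I, mul_one]

theorem one_ZL {J ρ s : ℝ} (hJ : 0 < J) (h0 : 0 ≤ ρ) (h1 : ρ < 1) (hs : 0 < s) (θ : ℝ) (Y : ℕ) :
    ∑ j ∈ Icc 1 Y, (1 - psi J j) / j * ρ ^ j * Real.cos (j * θ) ≤
      (2 / (J * (1 - ρ)) + (4 * (1 - ρ) / J + 2 / J ^ 2) / s ^ 2) * kk s θ + ρ ^ Y / (1 - ρ) := by
  have hD : 0 < s ^ 2 + (2 - 2 * Real.cos θ) := by
    nlinarith [Real.cos_le_one θ, pow_pos hs 2]
  have h2 := high_bound hJ h0 h1 s θ Y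
  rw [mul_comm, ← le_div_iff₀ hD] at h2
  have h3 : (2 / (J * (1 - ρ)) + (4 * (1 - ρ) / J + 2 / J ^ 2) / s ^ 2) * kk s θ =
      (s ^ 2 * (2 / (J * (1 - ρ))) + (4 * (1 - ρ) / J + 2 / J ^ 2)) /
        (s ^ 2 + (2 - 2 * Real.cos θ)) := by
    rw [kk, ← mul_div_assoc, add_mul, div_mul_cancel₀ _ (pow_pos hs 2).ne', mul_comm]
  rw [h3]
  linarith

theorem lim_ZL {v : ℂ} (hv : ‖v‖ < 1) :
    1 - v ≠ 0 ∧ Tendsto (fun Y : ℕ => exp (∑ j ∈ Icc 1 Y, 1 * v ^ j / j)) atTop (𝓝 (1 - v)⁻¹) := by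
  have h0 : 1 - v ≠ 0 := fun h => by
    rw [← sub_eq_zero.1 h] at hv
    simp at hv
  refine ⟨h0, ?_⟩
  have h1 := (hasSum_taylorSeries_neg_log hv).tendsto_sum_nat.comp (tendsto_add_atTop_nat 1)
  have h2 := (continuous_exp.tendsto _).comp h1
  rw [exp_neg, exp_log h0] at h2
  refine h2.congr fun Y => ?_
  simp only [Function.comp, one_mul]
  rw [range_eq_Ico, sum_eq_sum_Ico_succ_bot Y.succ_pos]
  simp only [Nat.cast_zero, div_zero, zero_add]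
  rfl

theorem z_low {n : ℕ} {θ : Fin n → ℝ} (h : Cj θ) {J : ℝ} (hJ : 0 < J) {Y : ℕ} (hY : J ≤ Y)
    {w : ℂ} (hw : ‖w‖ ≤ 1) :
    ‖Lam θ w‖ * Real.exp (lf Y (fun j => (psi J j : ℂ) * w ^ j) (ps θ)).re ≤
      Real.exp (n / J) := by
  rw [lf_ZL h, re_sum, Real.exp_sum, Lam, norm_prod, ← prod_mul_distrib]
  refine (prod_le_prod (fun i _ => by positivity)
    fun i _ => low_bound hJ hY ((norm_ZL w (θ i)).trans_le hw)).trans_eq ?_
  rw [prod_const, card_univ, Fintype.card_fin, ← Real.exp_nat_mul, mul_one_div]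

theorem z_high {n : ℕ} (θ : Fin n → ℝ) {J s : ℝ} (hJ : 0 < J) (hs : 0 < s) (Y : ℕ) {w : ℂ}
    (hw : ‖w‖ < 1) :
    (lf Y (fun j => ((1 - psi J j : ℝ) : ℂ) * w ^ j) (ps θ)).re ≤
      (2 / (J * (1 - ‖w‖)) + (4 * (1 - ‖w‖) / J + 2 / J ^ 2) / s ^ 2) * NN s w.arg θ +
        n * (‖w‖ ^ Y / (1 - ‖w‖)) := by
  have h1 : (lf Y (fun j => ((1 - psi J j : ℝ) : ℂ) * w ^ j) (ps θ)).re =
      ∑ i, (∑ j ∈ Icc 1 Y, (1 - psi J j) / j * ‖w‖ ^ j * Real.cos (j * (θ i + w.arg)) +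
        ∑ j ∈ Icc 1 Y, (1 - psi J j) / j * ‖w‖ ^ j * Real.cos (j * (θ i - w.arg))) / 2 := by
    simp only [← sum_add_distrib, sum_div]
    rw [sum_comm, lf, re_sum]
    refine sum_congr rfl fun j _ => ?_
    have h2 : (w ^ j).re = ‖w‖ ^ j * Real.cos (j * w.arg) := by
      conv_lhs => rw [← norm_mul_exp_arg_mul_I w, mul_pow, ← exp_nat_mul, ← mul_assoc,
        ← ofReal_pow, re_ofReal_mul, ← ofReal_natCast, ← ofReal_mul, exp_ofReal_mul_I_re]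
    rw [div_natCast_re, ps, re_mul_ofReal, re_ofReal_mul, h2, mul_sum, sum_div]
    refine sum_congr rfl fun i _ => ?_
    rw [mul_add, mul_sub (j : ℝ), Real.cos_add, Real.cos_sub]
    ring
  rw [h1, NN, mul_sum]
  have h3 : (n : ℝ) * (‖w‖ ^ Y / (1 - ‖w‖)) = ∑ _i : Fin n, ‖w‖ ^ Y / (1 - ‖w‖) := by simp
  rw [h3, ← sum_add_distrib]
  refine sum_le_sum fun i _ => ?_
  linarith [one_ZL hJ (norm_nonneg w) hw hs (θ i + w.arg) Y,
    one_ZL hJ (norm_nonneg w) hw hs (θ i - w.arg) Y]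

theorem z_lim {n : ℕ} {θ : Fin n → ℝ} (h : Cj θ) {w : ℂ} (hw : ‖w‖ < 1) :
    Lam θ w ≠ 0 ∧
      Tendsto (fun Y => exp (lf Y (fun j => w ^ j) (ps θ))) atTop (𝓝 (Lam θ w)⁻¹) := by
  have h1 := fun i => lim_ZL ((norm_ZL w (θ i)).trans_lt hw)
  refine ⟨prod_ne_zero_iff.2 fun i _ => (h1 i).1, ?_⟩
  rw [Lam, ← prod_inv_distrib]
  refine (tendsto_finsetProd univ fun i _ => (h1 i).2).congr fun Y => ?_
  rw [← exp_sum, ← lf_ZL h Y (fun _ => 1) w]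
  simp only [one_mul]

theorem z_hb {C J₀ s σ : ℝ} (hC : 1 ≤ C) (hJ : 1 ≤ J₀) {x₁ x₂ y₁ y₂ : ℂ}
    (h : Rg C s σ x₁ x₂ y₁ y₂) (n : ℕ) : ∀ᶠ Y in atTop, ∀ (θ : Fin n → ℝ) (z : ℂ), 1 ≤ ‖z‖ →
      ‖z‖ ≤ Real.exp (s / 4) → (Hz (J₀ / s) Y (aa y₁ y₂) (ps θ) z).re ≤
        12 * C / J₀ * (NN s (y₁ * z).arg θ + NN s (y₂ * z).arg θ) + 1 := by
  have hs := h.hs
  have hs8 : s ≤ 1 / 8 := by nlinarith [h.hC]
  have hJ0 : 0 < J₀ := by linarith
  have r0 : Real.exp (-(3 * s / 4)) ≤ 1 - 3 * s / 8 := by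
    rw [Real.exp_neg, inv_le_iff_one_le_mul₀ (Real.exp_pos _)]
    have := Real.add_one_le_exp (3 * s / 4)
    nlinarith
  have t1 : Tendsto (fun Y : ℕ => n * (Real.exp (-(3 * s / 4)) ^ Y / (3 * s / 8))) atTop
      (𝓝 (n * (0 / (3 * s / 8)))) :=
    ((tendsto_pow_atTop_nhds_zero_of_lt_one (Real.exp_pos _).le (by linarith)).div_const _).const_mul _
  filter_upwards [t1.eventually_le_const (u := 1 / 2) (by simp)] with Y hY θ z z1 z2
  have key : ∀ y : ℂ, ‖y‖ ≤ Real.exp (-s) → ‖y - 1‖ ≤ C * s →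
      (lf Y (fun j => ((1 - psi (J₀ / s) j : ℝ) : ℂ) * (y * z) ^ j) (ps θ)).re ≤
        12 * C / J₀ * NN s (y * z).arg θ + 1 / 2 := by
    intro y y1 y2
    have a1 : ‖y * z‖ ≤ Real.exp (-(3 * s / 4)) := by
      rw [norm_mul, show -(3 * s / 4) = -s + s / 4 by ring, Real.exp_add]
      exact mul_le_mul y1 z2 (norm_nonneg _) (Real.exp_pos _).le
    have a2 : 3 * s / 8 ≤ 1 - ‖y * z‖ := by linarith
    have a3 : 1 - ‖y * z‖ ≤ C * s := by
      have b1 := norm_sub_norm_le (1 : ℂ) y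
      rw [norm_one, norm_sub_rev] at b1
      rw [norm_mul]
      nlinarith [norm_nonneg y]
    refine (z_high θ (by positivity) hs Y (by linarith)).trans (add_le_add ?_ (le_trans ?_ hY))
    · refine mul_le_mul_of_nonneg_right ?_ (NN_nonneg _ _ _)
      have b1 : 2 / (J₀ / s * (1 - ‖y * z‖)) ≤ 16 / 3 / J₀ := by
        calc _ ≤ 2 / (J₀ / s * (3 * s / 8)) := by gcongr
          _ = _ := by field_simp; ring
      have b2 : (4 * (1 - ‖y * z‖) / (J₀ / s) + 2 / (J₀ / s) ^ 2) / s ^ 2 ≤ (4 * C + 2) / J₀ := by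
        calc _ ≤ (4 * (C * s) / (J₀ / s) + 2 / (J₀ / s) ^ 2) / s ^ 2 := by gcongr
          _ = (4 * C + 2 / J₀) / J₀ := by field_simp
          _ ≤ _ := by gcongr; exact div_le_self zero_le_two hJ
      refine (add_le_add b1 b2).trans ?_
      rw [← add_div]
      gcongr
      linarith
    · gcongr
  have e : Hz (J₀ / s) Y (aa y₁ y₂) (ps θ) z =
      lf Y (fun j => ((1 - psi (J₀ / s) j : ℝ) : ℂ) * (y₁ * z) ^ j) (ps θ) +
        lf Y (fun j => ((1 - psi (J₀ / s) j : ℝ) : ℂ) * (y₂ * z) ^ j) (ps θ) := by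
    rw [Hz, ← lf_add]
    exact lf_congr (fun j _ => by rw [aa]; ring) fun _ _ => rfl
  rw [e, add_re]
  linarith [key y₁ h.h3 h.d3, key y₂ h.h4 h.d4]

end Pool.Agent.MP_dd7250_nt.LS

end
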