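import Mathlib
import Pool.Agent.Mg.F43e117.G8d341a
import Pool.Agent.Mg.Fdd7250p.G4187d7

set_option linter.all false

section

/- Ratios at small shifts: definitions of the arithmetic part. -/

set_option autoImplicit false

namespace Pool.Agent.MP_dd7250_nt.LS

open Polynomial Finset Pool.Agent.MP_d232b3_nt Pool.Agent.MP_dd7250_nt
open scoped Classical

section Gen

variable {F : Type*} [Field F] [Fintype F] {A : Type*} [CommRing A] [Algebra ℂ A]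

/-- The four local variables at a prime of degree `d`. -/
def av (U₀ U₁ : A) (R R' : ℕ → A) (d : ℕ) : Fin 4 → A := ![U₀ ^ d, U₁ ^ d, R d, R' d]

/-- The twisting weight. -/
noncomputable def omt (χ : F[X] → ℂ) (M : ℕ) (R R' : ℕ → A) : A :=
  ∏ P ∈ pr F M, (1 - algebraMap ℂ A (χ P) * R P.natDegree) *
    (1 - algebraMap ℂ A (χ P) * R' P.natDegree)

/-- The factor at a prime of the sieving set. -/
def lE' (M I : ℕ) (a : ℕ → Fin 4 → A) (y : A) (d : ℕ) : A :=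
  -(Ev M (a d) * rho I y d * y ^ d)

/-- The factor at a prime outside the sieving set. -/
noncomputable def lO' (M I : ℕ) (a : ℕ → Fin 4 → A) (y : A) (σ : ℂ) (W P : F[X]) : A :=
  1 + Ev M (a P.natDegree) * rho I y P.natDegree + algebraMap ℂ A (jac W P) *
    (Od M (a P.natDegree) * rho I y P.natDegree * dy F σ y ^ P.natDegree)

variable (F)

/-- The generating function over squarefree `D`. -/
noncomputable def Zs' (M I : ℕ) (U₀ U₁ : A) (R R' : ℕ → A) (y : A) : A :=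
  ∑ N ∈ range (I + 1), y ^ N * ∑ D ∈ sqF F N,
    Lt (jac D) I U₀ * Lt (jac D) I U₁ * omt (jac D) M R R'

/-- The correction making the Euler product of a square converge. -/
noncomputable def om' (U₀ U₁ y : A) (σ : ℂ) (d : ℕ) : A :=
  (1 - (dy F σ y * U₀) ^ d) * (1 - (dy F σ y * U₁) ^ d)

/-- The dual terms with a nonsquare. -/
noncomputable def Pr' (M I : ℕ) (a : ℕ → Fin 4 → A) (y : A) : A :=
  ∑ σ ∈ ({1, -1} : Finset ℂ), kap F σ y * ∑ V ∈ monLe F M,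
    ∑ e ∈ (pr F M).powerset with ¬ IsSquare (V * ∏ P ∈ e, P), wV F M y V *
      ((∏ P ∈ e, lE' M I a y P.natDegree) * ∏ P ∈ pr F M \ e, lO' M I a y σ (V * ∏ P ∈ e, P) P)

/-- The dual terms with a square, with the poles removed. -/
noncomputable def Ps' (M I : ℕ) (U₀ U₁ : A) (a : ℕ → Fin 4 → A) (y : A) : A :=
  ∑ σ ∈ ({1, -1} : Finset ℂ), kap F σ y *
    ((1 + qA F A * (dy F σ y * U₀)) * (1 + qA F A * (dy F σ y * U₁))) *
    ∑ V ∈ monLe F M, ∑ e ∈ (pr F M).powerset with IsSquare (V * ∏ P ∈ e, P), wV F M y V *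
      ((∏ P ∈ e, om' F U₀ U₁ y σ P.natDegree * lE' M I a y P.natDegree) *
        ∏ P ∈ pr F M \ e, om' F U₀ U₁ y σ P.natDegree * lO' M I a y σ (V * ∏ P ∈ e, P) P)

/-- The diagonal correction. -/
noncomputable def Pd' (M I : ℕ) (a : ℕ → Fin 4 → A) (y : A) : A :=
  ∏ P ∈ pr F M, (1 + Ev M (a P.natDegree) * rho I y P.natDegree * (1 - y ^ P.natDegree))

/-- The common prefactor of the three pieces. -/
noncomputable def pre' (U₀ U₁ y : A) : A :=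
  (1 - qA F A * y ^ 2) * (1 + qA F A * y) * (1 - qA F A ^ 4 * U₀ ^ 2 * U₁ ^ 2 * y ^ 2)

/-- The two polar factors cancelled in the square terms. -/
noncomputable def mid' (U₀ U₁ y : A) : A :=
  (1 - qA F A ^ 3 * U₀ ^ 2 * y ^ 2) * (1 - qA F A ^ 3 * U₁ ^ 2 * y ^ 2)

/-- A sequence graded by the degree. -/
noncomputable def gr (r : ℕ → ℂ) (d : ℕ) : ℂ[X] := C (r d) * X ^ d

variable {F}

/-- The homogeneous parts of the twisting weight. -/
noncomputable def bet (r r' : ℕ → ℂ) (k : ℕ) (D : F[X]) : ℂ :=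
  (omt (jac D) k (gr r) (gr r')).coeff k

variable (F)

/-- The homogeneous parts of `HW` for the twisted second moment. -/
noncomputable def ff' (u₀ u₁ : ℂ) (r r' : ℕ → ℂ) (n k g : ℕ) : ℂ :=
  (HW (F := F) (bet r r' k) (C u₀ * X : ℂ[X]) (C u₁ * X) g).coeff n

/-- The main term of the twisted second moment. -/
noncomputable def Gr (u₀ u₁ : ℂ) (r r' : ℕ → ℂ) : ℂ :=
  (∏' P : Prm F, BP F P.1.natDegree (av u₀ u₁ r r' P.1.natDegree)) /
    ((1 - Q F * u₀ ^ 2) * (1 - Q F * u₁ ^ 2) * (1 - Q F * (u₀ * u₁)))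

/-- The range of the variables in the twisted second moment. -/
structure Rt (a₀ a₁ : ℝ) (u₀ u₁ : ℂ) (r r' : ℕ → ℂ) (Y : ℕ) : Prop where
  h0 : ‖u₀‖ = qp F (-(1 / 2 + a₀))
  h1 : ‖u₁‖ = qp F (-(1 / 2 + a₁))
  b0 : |a₀| ≤ 1 / 64
  b1 : |a₁| ≤ 1 / 64
  hr : ∀ d : ℕ, ‖r d‖ ≤ qp F (-3 * d)
  hr' : ∀ d : ℕ, ‖r' d‖ ≤ qp F (-3 * d)
  hY : ∀ d, Y < d → r d = 0 ∧ r' d = 0

variable {F}

section Map

variable {B : Type*} [CommRing B] [Algebra ℂ B] (φ : A →ₐ[ℂ] B)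

theorem map_av (U₀ U₁ : A) (R R' : ℕ → A) (d : ℕ) :
    φ ∘ av U₀ U₁ R R' d = av (φ U₀) (φ U₁) (fun d => φ (R d)) (fun d => φ (R' d)) d := by
  funext i
  fin_cases i <;> simp [av]

theorem map_Ev' (M : ℕ) (a : Fin 4 → A) : φ (Ev M a) = Ev M (φ ∘ a) := by
  simp [Ev, map_gam]

theorem map_Od' (M : ℕ) (a : Fin 4 → A) : φ (Od M a) = Od M (φ ∘ a) := by
  simp [Od, map_gam]

omit [Field F] in
theorem map_BP' (d : ℕ) (a : Fin 4 → A) : φ (BP F d a) = BP F d (φ ∘ a) := by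
  simp only [BP, map_mul, map_sub, map_add, map_one, map_pow, AlgHom.commutes, Function.comp]

theorem map_omt (χ : F[X] → ℂ) (M : ℕ) (R R' : ℕ → A) :
    φ (omt χ M R R') = omt χ M (fun d => φ (R d)) fun d => φ (R' d) := by
  simp only [omt, map_prod, map_mul, map_sub, map_one, AlgHom.commutes]

theorem map_lE' (M I d : ℕ) (a : ℕ → Fin 4 → A) (y : A) :
    φ (lE' M I a y d) = lE' M I (fun d => φ ∘ a d) (φ y) d := by
  simp only [lE', map_neg, map_mul, map_Ev', map_rho, map_pow]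

theorem map_lO' (M I : ℕ) (a : ℕ → Fin 4 → A) (y : A) (σ : ℂ) (W P : F[X]) :
    φ (lO' M I a y σ W P) = lO' M I (fun d => φ ∘ a d) (φ y) σ W P := by
  simp only [lO', map_add, map_one, map_mul, map_Ev', map_Od', map_rho, map_pow, map_dy,
    AlgHom.commutes]

theorem map_om' (d : ℕ) (U₀ U₁ y : A) (σ : ℂ) :
    φ (om' F U₀ U₁ y σ d) = om' F (φ U₀) (φ U₁) (φ y) σ d := by
  simp only [om', map_sub, map_one, map_mul, map_pow, map_dy]

theorem map_Zs' (M I : ℕ) (U₀ U₁ : A) (R R' : ℕ → A) (y : A) :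
    φ (Zs' F M I U₀ U₁ R R' y) =
      Zs' F M I (φ U₀) (φ U₁) (fun d => φ (R d)) (fun d => φ (R' d)) (φ y) := by
  simp only [Zs', map_sum, map_mul, map_pow, map_Lt, map_omt]

theorem map_Pr' (M I : ℕ) (a : ℕ → Fin 4 → A) (y : A) :
    φ (Pr' F M I a y) = Pr' F M I (fun d => φ ∘ a d) (φ y) := by
  simp only [Pr', map_sum, map_mul, map_prod, map_kap, map_wV, map_lE', map_lO']

theorem map_Ps' (M I : ℕ) (U₀ U₁ : A) (a : ℕ → Fin 4 → A) (y : A) :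
    φ (Ps' F M I U₀ U₁ a y) = Ps' F M I (φ U₀) (φ U₁) (fun d => φ ∘ a d) (φ y) := by
  simp only [Ps', map_sum, map_mul, map_prod, map_kap, map_wV, map_lE', map_lO', map_om', map_add,
    map_one, map_dy, map_natCast]

theorem map_Pd' (M I : ℕ) (a : ℕ → Fin 4 → A) (y : A) :
    φ (Pd' F M I a y) = Pd' F M I (fun d => φ ∘ a d) (φ y) := by
  simp only [Pd', map_mul, map_prod, map_add, map_sub, map_one, map_Ev', map_rho, map_pow]

omit [Field F] in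
theorem map_pre' (U₀ U₁ y : A) : φ (pre' F U₀ U₁ y) = pre' F (φ U₀) (φ U₁) (φ y) := by
  simp only [pre', map_mul, map_sub, map_add, map_one, map_pow, map_natCast]

omit [Field F] in
theorem map_mid' (U₀ U₁ y : A) : φ (mid' F U₀ U₁ y) = mid' F (φ U₀) (φ U₁) (φ y) := by
  simp only [mid', map_mul, map_sub, map_one, map_pow, map_natCast]

end Map

theorem norm_pre_le' {U₀ U₁ y : ℂ} (h0 : ‖U₀‖ ≤ 1) (h1 : ‖U₁‖ ≤ 1) (hy : ‖y‖ ≤ 1) :
    ‖pre' F U₀ U₁ y‖ ≤ (1 + (Q F : ℝ) ^ 4) ^ 3 ∧ ‖mid' F U₀ U₁ y‖ ≤ (1 + (Q F : ℝ) ^ 4) ^ 2 :=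
  norm_pre_le (F := F) (U := ![U₀, U₁, 0, 0]) (fun i => by fin_cases i <;> simp [h0, h1]) hy

end Gen

section Model

variable {F : Type*} [Field F] [Fintype F]

/-- The power sums attached to values of a character at the primes. -/
noncomputable def pp (χ : F[X] → ℂ) (j : ℕ) : ℂ :=
  -((sq F)⁻¹ ^ j * ∑ P ∈ pr F j with P.natDegree ∣ j,
    (P.natDegree : ℂ) * χ P ^ (j / P.natDegree))

/-- A point of the model as a function on all polynomials. -/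
noncomputable def xt (Y : ℕ) (p : ∀ P ∈ pr F Y, ℂ) (P : F[X]) : ℂ :=
  if h : P ∈ pr F Y then p P h else 0

variable (F)

/-- The points of the model. -/
noncomputable def Xs (Y : ℕ) : Finset (∀ P ∈ pr F Y, ℂ) :=
  (pr F Y).pi fun _ => ({0, 1, -1} : Finset ℂ)

/-- The weight of a point of the model. -/
noncomputable def wm (Y : ℕ) (x₁ x₂ : ℂ) (p : ∀ P ∈ pr F Y, ℂ) : ℂ :=
  ∏ P ∈ pr F Y, mu (((sq F)⁻¹ ^ P.natDegree) ^ 2) (x₁ ^ P.natDegree * (sq F)⁻¹ ^ P.natDegree)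
    (x₂ ^ P.natDegree * (sq F)⁻¹ ^ P.natDegree) (xt Y p P)

/-- The model average. -/
noncomputable def nu (Y : ℕ) (x₁ x₂ : ℂ) (Φ : (ℕ → ℂ) → ℂ) : ℂ :=
  ∑ p ∈ Xs F Y, wm F Y x₁ x₂ p * Φ (pp (xt Y p))

/-- The product of the local factors of the model. -/
noncomputable def PL (Y : ℕ) (x₁ x₂ : ℂ) (η : ℕ → ℂ) : ℂ :=
  ∏ P ∈ pr F Y, lc Y ((sq F)⁻¹ ^ P.natDegree) (x₁ ^ P.natDegree) (x₂ ^ P.natDegree) η P.natDegree

/-- The contribution of the primes of degree above `Y`. -/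
noncomputable def tl (Y : ℕ) (x₁ x₂ : ℂ) : ℂ :=
  ∏' P : Prm F, if P.1.natDegree ≤ Y then 1 else
    BP F P.1.natDegree (av (x₁ * (sq F)⁻¹) (x₂ * (sq F)⁻¹) 0 0 P.1.natDegree)

/-- The polar factors. -/
noncomputable def den (x₁ x₂ : ℂ) : ℂ := (1 - x₁ ^ 2) * (1 - x₂ ^ 2) * (1 - x₁ * x₂)

/-- One of the four terms of the model. -/
noncomputable def MV (Y : ℕ) (x₁ x₂ : ℂ) (Φ : (ℕ → ℂ) → ℂ) : ℂ :=
  tl F Y x₁ x₂ * nu F Y x₁ x₂ Φ / den x₁ x₂

/-- The four terms of the model. -/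
noncomputable def M4 (g Y : ℕ) (x₁ x₂ : ℂ) (Φ : (ℕ → ℂ) → ℂ) : ℂ :=
  MV F Y x₁ x₂ Φ + (x₂ ^ 2) ^ g * MV F Y x₁ x₂⁻¹ Φ +
    ((x₁ ^ 2) ^ g * MV F Y x₁⁻¹ x₂ Φ + (x₁ ^ 2) ^ g * (x₂ ^ 2) ^ g * MV F Y x₁⁻¹ x₂⁻¹ Φ)

/-- The normalised variable attached to a shift. -/
noncomputable def xv (α : ℂ) : ℂ := (Q F : ℂ) ^ (-α)

/-- The logarithm of `q`. -/
noncomputable def lq : ℝ := Real.log (Q F)

/-- The prediction of the ratios conjecture. -/
noncomputable def pred (g : ℕ) (α β γ δ : ℂ) : ℂ :=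
  GG F α β γ δ + (xv F β ^ 2) ^ g * GG F α (-β) γ δ +
    ((xv F α ^ 2) ^ g * GG F (-α) β γ δ + (xv F α ^ 2) ^ g * (xv F β ^ 2) ^ g * GG F (-α) (-β) γ δ)

/-- The normalised L-polynomial. -/
noncomputable def LD (g : ℕ) (D : F[X]) (x : ℂ) : ℂ := Lt (jac D) (2 * g) (x * (sq F)⁻¹)

/-- The average of the ratio. -/
noncomputable def av4 (g : ℕ) (α β γ δ : ℂ) : ℂ :=
  (∑ D ∈ sqF F (2 * g + 1), LD F g D (xv F α) * LD F g D (xv F β) /
    (LD F g D (xv F γ) * LD F g D (xv F δ))) / ((Q F - 1) * (Q F : ℂ) ^ (2 * g))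

/-- The shifts are of size at most `C c`, with real part at least `c` in the denominator. -/
structure Sh (C c : ℝ) (α β γ δ : ℂ) : Prop where
  hc : 0 < c
  h1 : ‖α‖ ≤ C * c
  h2 : ‖β‖ ≤ C * c
  h3 : ‖γ‖ ≤ C * c
  h4 : ‖δ‖ ≤ C * c
  r3 : c ≤ γ.re
  r4 : c ≤ δ.re

/-- The shifts are at distance at least `e` from the poles. -/
structure Far (e : ℝ) (α β : ℂ) : Prop where
  h1 : e ≤ ‖α‖
  h2 : e ≤ ‖β‖
  h3 : e ≤ ‖α + β‖
  h4 : e ≤ ‖α - β‖

variable {F}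

theorem one_le_lq (hF : ringChar F ≠ 2) : 1 ≤ lq F := by
  have h3 := three_le_Q hF
  rw [lq, Real.le_log_iff_exp_le (by linarith)]
  linarith [Real.exp_one_lt_d9]

omit [Field F] in
theorem qp_eq (h : 0 < Q F) (x : ℝ) : qp F x = Real.exp (lq F * x) :=
  Real.rpow_def_of_pos (by exact_mod_cast h) x

theorem xv_eq (α : ℂ) : xv F α = Complex.exp (-(lq F * α)) := by
  rw [xv, Complex.cpow_def_of_ne_zero Q_ne, lq, Complex.ofReal_log (Nat.cast_nonneg _),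
    Complex.ofReal_natCast, mul_neg]

theorem norm_xv (α : ℂ) : ‖xv F α‖ = qp F (-α.re) := by
  rw [xv, br_norm, Complex.neg_re]

omit [Field F] in
theorem xv_neg (α : ℂ) : xv F (-α) = (xv F α)⁻¹ := by
  rw [xv, xv, Complex.cpow_neg]

theorem xv_add (α β : ℂ) : xv F (α + β) = xv F α * xv F β := by
  rw [xv, xv, xv, neg_add, Complex.cpow_add _ _ Q_ne]

theorem xv_ne (α : ℂ) : xv F α ≠ 0 := asm_ne (norm_xv α)

theorem sq_inv_pow (d : ℕ) : (sq F)⁻¹ ^ d = ((qp F (-(1 / 2) * d) : ℝ) : ℂ) := by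
  rw [← qp_pow, qp_neg, sq, Real.sqrt_eq_rpow, qp]
  push_cast
  rfl

theorem uu_eq (α : ℂ) : uu F α = xv F α * (sq F)⁻¹ := by
  have h : (sq F)⁻¹ = (Q F : ℂ) ^ (-(1 / 2 : ℂ)) := by
    rw [Complex.cpow_neg, sq, Real.sqrt_eq_rpow, Complex.ofReal_cpow (Nat.cast_nonneg _)]
    push_cast
    rfl
  rw [h, uu, xv, ← Complex.cpow_add _ _ Q_ne]
  congr 1
  ring

theorem Lf_eq_LD (hF : ringChar F ≠ 2) {D : F[X]} {g : ℕ} (hD : D ∈ sqF F (2 * g + 1)) (α : ℂ) :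
    Lf D (1 / 2 + α) = LD F g D (xv F α) := by
  rw [Lf_eq hF hD, uu_eq, LD]

end Model

end Pool.Agent.MP_dd7250_nt.LS

end

section

/- Ratios at small shifts: complete character sums and even moments. -/

set_option autoImplicit false
set_option maxHeartbeats 400000

namespace Pool.Agent.MP_dd7250_nt.LS

open Polynomial Finset Filter Topology Pool.Agent.MP_d232b3_nt Pool.Agent.MP_dd7250_nt
open scoped Classical

variable {F : Type} [Field F] [Fintype F]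

theorem pow_odd_PA (D P : F[X]) {m : ℕ} (h : Odd m) : jac D P ^ m = jac D P := by
  rcases jac_tri D P with h1 | h1 | h1 <;> rw [h1]
  · exact zero_pow h.pos.ne'
  · exact one_pow _
  · exact h.neg_one_pow

theorem pow_even_PA (D P : F[X]) {m : ℕ} (h : Even m) (h0 : m ≠ 0) :
    jac D P ^ m = jac D P ^ 2 := by
  rcases jac_tri D P with h1 | h1 | h1 <;> rw [h1]
  · rw [zero_pow h0, zero_pow two_ne_zero]
  · rw [one_pow, one_pow]
  · rw [h.neg_one_pow, neg_one_sq]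

theorem ind_PA {M : ℕ} {e : Finset F[X]} (he : e ⊆ pr F M) (D : F[X]) :
    ∏ P ∈ e, (-(if P ∣ D then 1 else 0) : ℂ) =
      (-1) ^ e.card * if (∏ P ∈ e, P) ∣ D then 1 else 0 := by
  have h1 : ∀ P ∈ e, P.Monic ∧ Irreducible P := fun P hP =>
    ⟨(mem_pr.1 (he hP)).1, (mem_pr.1 (he hP)).2.1⟩
  rw [prod_neg]
  congr 1
  split_ifs with h
  · exact prod_eq_one fun P hP => if_pos ((dvd_prod_of_mem (fun P => P) hP).trans h)
  · by_contra hc
    refine h (Finset.prod_dvd_of_coprime (fun a ha b hb hab => ?_) fun P hP => ?_)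
    · exact (h1 a ha).2.coprime_iff_not_dvd.2 fun h => hab (eq_of_monic_of_associated (h1 a ha).1
        (h1 b hb).1 ((h1 a ha).2.associated_of_dvd (h1 b hb).2 h))
    · by_contra hP'
      exact hc (prod_eq_zero hP (if_neg hP'))

/-- Complete sums vanish unless all multiplicities are even. -/
theorem complete_sum (hF : ringChar F ≠ 2) {n M : ℕ} {S : Finset F[X]} (hS : S ⊆ pr F M)
    (m : F[X] → ℕ) (hn : ∑ P ∈ S, m P * P.natDegree ≤ n) (ho : ∃ P ∈ S, Odd (m P)) :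
    ∑ D ∈ monF F n, ∏ P ∈ S, jac D P ^ m P = 0 := by
  set S0 := S.filter fun P => Odd (m P) with hS0
  set S2 := S.filter fun P => ¬ Odd (m P) with hS2
  set S1 := S2.filter fun P => m P ≠ 0 with hS1
  have s0 : S0 ⊆ pr F M := (filter_subset _ _).trans hS
  have s1 : S1 ⊆ pr F M := ((filter_subset _ _).trans (filter_subset _ _)).trans hS
  obtain ⟨u1, u2, u3, -⟩ := monic_sqfree_prod s0
  set U := ∏ P ∈ S0, P with hU
  have u4 : 0 < U.natDegree := by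
    obtain ⟨P, hP, hP'⟩ := ho
    have hm : P ∈ S0 := mem_filter.2 ⟨hP, hP'⟩
    rw [u3]
    exact ((mem_pr.1 (s0 hm)).2.1.natDegree_pos).trans_le
      (single_le_sum (f := fun P : F[X] => P.natDegree) (fun _ _ => Nat.zero_le _) hm)
  have key : ∀ D : F[X], ∏ P ∈ S, jac D P ^ m P =
      ∑ e ∈ S1.powerset, (-1) ^ e.card * if (∏ P ∈ e, P) ∣ D then jac D U else 0 := by
    intro D
    have a0 : ∏ P ∈ S0, jac D P ^ m P = jac D U := by
      rw [hU, (jac_cm D).prod S0 fun P hP => (mem_pr.1 (s0 hP)).1]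
      exact prod_congr rfl fun P hP => pow_odd_PA D P (mem_filter.1 hP).2
    have a1 : ∏ P ∈ S2, jac D P ^ m P = ∏ P ∈ S1, (1 + -(if P ∣ D then 1 else 0) : ℂ) := by
      rw [← prod_filter_of_ne (p := fun P => m P ≠ 0) fun P _ h h0 => h (by rw [h0, pow_zero])]
      refine prod_congr rfl fun P hP => ?_
      have b1 := mem_filter.1 hP
      rw [pow_even_PA D P (Nat.not_odd_iff_even.1 (mem_filter.1 b1.1).2) b1.2,
        jac_sq_prime D (mem_pr.1 (s1 hP)).1 (mem_pr.1 (s1 hP)).2.1]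
      split_ifs <;> simp
    rw [← prod_filter_mul_prod_filter_not S fun P => Odd (m P), a0, a1, prod_one_add, mul_sum]
    refine sum_congr rfl fun e he => ?_
    rw [ind_PA ((mem_powerset.1 he).trans s1)]
    split_ifs <;> ring
  simp only [key]
  rw [sum_comm]
  refine sum_eq_zero fun e he => ?_
  have he' := mem_powerset.1 he
  obtain ⟨c1, -, c3, -⟩ := monic_sqfree_prod (he'.trans s1)
  have d0 : U.natDegree + (∏ P ∈ e, P).natDegree ≤ n := by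
    refine le_trans ?_ hn
    rw [u3, c3, ← sum_filter_add_sum_filter_not S fun P => Odd (m P)]
    refine add_le_add (sum_le_sum fun P hP => ?_) ?_
    · exact Nat.le_mul_of_pos_left _ (mem_filter.1 hP).2.pos
    · refine le_trans (sum_le_sum fun P hP => ?_)
        (sum_le_sum_of_subset (he'.trans (filter_subset _ _)))
      exact Nat.le_mul_of_pos_left _ (Nat.pos_of_ne_zero (mem_filter.1 (he' hP)).2)
  rw [← mul_sum, weil_sum_dvd (jac_cm_left hF u1) c1 (by omega),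
    AA_vanish hF u1 u2 u4 (by omega), mul_zero, mul_zero]

theorem re_PA (D P : F[X]) : (((jac D P).re : ℝ) : ℂ) = jac D P := by
  rcases jac_tri D P with h1 | h1 | h1 <;> simp [h1]

theorem abs_PA (D P : F[X]) : |(jac D P).re| ≤ 1 := by
  rcases jac_tri D P with h1 | h1 | h1 <;> simp [h1]

theorem even_moment (hF : ringChar F ≠ 2) {n M k : ℕ} (hn : 2 * k * M ≤ n) (β : F[X] → ℝ) :
    ∑ D ∈ monF F n, (∑ P ∈ pr F M, β P * (jac D P).re) ^ (2 * k) ≤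
      (Q F : ℝ) ^ n * (2 * k * ∑ P ∈ pr F M, β P ^ 2) ^ k := by
  set s := pr F M with hs
  have e1 : ∑ D ∈ monF F n, (∑ P ∈ s, β P * (jac D P).re) ^ (2 * k) =
      ∑ m ∈ piAntidiag s (2 * k), (Nat.multinomial s m : ℝ) * (∏ P ∈ s, β P ^ m P) *
        ∑ D ∈ monF F n, ∏ P ∈ s, (jac D P).re ^ m P := by
    simp only [sum_pow_eq_sum_piAntidiag, mul_pow, prod_mul_distrib, mul_sum, mul_assoc]
    rw [sum_comm]
  have e2 : ∀ m ∈ piAntidiag s (2 * k), ¬ (∀ P ∈ s, 2 ∣ m P) →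
      ∑ D ∈ monF F n, ∏ P ∈ s, (jac D P).re ^ m P = 0 := by
    intro m hm ho
    have h1 : ∑ P ∈ s, m P * P.natDegree ≤ n := by
      refine le_trans ?_ hn
      rw [← (mem_piAntidiag.1 hm).1, sum_mul]
      exact sum_le_sum fun P hP => Nat.mul_le_mul_left _ (mem_pr.1 hP).2.2
    have h2 : ∃ P ∈ s, Odd (m P) := by
      push Not at ho
      obtain ⟨P, hP, h⟩ := ho
      exact ⟨P, hP, Nat.not_even_iff_odd.1 fun h' => h h'.two_dvd⟩
    have h3 := complete_sum hF (Subset.refl _) m h1 h2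
    rw [← Complex.ofReal_eq_zero]
    push_cast
    simp only [re_PA]
    exact h3
  have e3 : ∀ m : F[X] → ℕ, ∑ D ∈ monF F n, ∏ P ∈ s, (jac D P).re ^ m P ≤ (Q F : ℝ) ^ n := by
    intro m
    refine (sum_le_card_nsmul _ _ 1 fun D _ => ?_).trans (by simp [card_monF])
    refine (le_abs_self _).trans ?_
    rw [abs_prod]
    refine prod_le_one (fun _ _ => abs_nonneg _) fun P _ => ?_
    rw [abs_pow]
    exact pow_le_one₀ (abs_nonneg _) (abs_PA D P)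
  have e4 : {f ∈ piAntidiag s (2 * k) | ∀ P ∈ s, 2 ∣ f P} =
      (piAntidiag s k).map ⟨(2 • ·), nsmul_right_injective two_ne_zero⟩ := by
    convert (map_nsmul_piAntidiag s k two_ne_zero).symm
  rw [e1, ← sum_filter_of_ne (p := fun m : F[X] → ℕ => ∀ P ∈ s, 2 ∣ m P) fun m hm h => by
    by_contra ho
    exact h (by rw [e2 m hm ho, mul_zero]), e4, sum_map,
    mul_pow, sum_pow_eq_sum_piAntidiag, mul_sum, mul_sum]
  refine sum_le_sum fun m hm => ?_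
  have hk := (mem_piAntidiag.1 hm).1
  have f1 : (Nat.multinomial s (fun P => 2 * m P) : ℝ) ≤ (2 * k) ^ k * Nat.multinomial s m := by
    have := Nat.multinomial_two_mul_le_mul_multinomial (s := s) (f := m)
    rw [hk] at this
    have h2 : (Nat.multinomial s (fun P => 2 * m P) : ℝ) ≤ (k : ℝ) ^ k * Nat.multinomial s m := by
      exact_mod_cast this
    refine h2.trans ?_
    have : (0 : ℝ) ≤ k := Nat.cast_nonneg k
    gcongr
    linarith
  have f2 : ∏ P ∈ s, β P ^ (2 * m P) = ∏ P ∈ s, (β P ^ 2) ^ m P := by simp only [pow_mul]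
  have f3 : 0 ≤ ∏ P ∈ s, (β P ^ 2) ^ m P := prod_nonneg fun P _ => by positivity
  change (Nat.multinomial s (fun P => 2 * m P) : ℝ) * (∏ P ∈ s, β P ^ (2 * m P)) *
    ∑ D ∈ monF F n, ∏ P ∈ s, (jac D P).re ^ (2 * m P) ≤ _
  rw [f2]
  calc _ ≤ (Nat.multinomial s (fun P => 2 * m P) : ℝ) * (∏ P ∈ s, (β P ^ 2) ^ m P) *
        (Q F : ℝ) ^ n := mul_le_mul_of_nonneg_left (e3 fun P => 2 * m P) (by positivity)
    _ ≤ ((2 * k) ^ k * Nat.multinomial s m) * (∏ P ∈ s, (β P ^ 2) ^ m P) * (Q F : ℝ) ^ n := by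
        gcongr
    _ = _ := by ring

end Pool.Agent.MP_dd7250_nt.LS

end

section

/- Ratios at small shifts: the zeros of the L-polynomials. -/

set_option autoImplicit false
set_option maxHeartbeats 400000

namespace Pool.Agent.MP_dd7250_nt.LS

open Polynomial Finset Filter Topology Pool.Agent.MP_d232b3_nt Pool.Agent.MP_dd7250_nt
open scoped Classical

variable {F : Type} [Field F] [Fintype F]

omit [Fintype F] in
theorem cm_pow_ZD {χ : F[X] → ℂ} (h : CM χ) {P : F[X]} (hP : P.Monic) (n : ℕ) :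
    χ (P ^ n) = χ P ^ n := by
  induction n with
  | zero => simpa using h.one
  | succ n ih => rw [pow_succ, h.mul _ _ (hP.pow n) hP, ih, pow_succ]

theorem SS_eq {χ : F[X] → ℂ} (h : CM χ) {j : ℕ} (hj : 1 ≤ j) :
    SS χ j = ∑ P ∈ pr F j with P.natDegree ∣ j, (P.natDegree : ℂ) * χ P ^ (j / P.natDegree) := by
  have hj0 : j ≠ 0 := by omega
  rw [SS, ← sum_fiberwise_of_maps_to (t := (pr F j).filter fun P => P.natDegree ∣ j)
    (g := fun x => minpoly F x) fun x hx => by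
      have h2 := (fix_iff x j).1 ((mem_VV hj0).1 hx)
      exact mem_filter.2 ⟨mem_pr.2 ⟨minpoly.monic (integral x), minpoly.irreducible (integral x),
        Nat.le_of_dvd hj h2⟩, h2⟩]
  refine sum_congr rfl fun P hP => ?_
  obtain ⟨hP1, h3⟩ := mem_filter.1 hP
  obtain ⟨h1, h2, -⟩ := mem_pr.1 hP1
  have h4 : (VV F j).filter (fun x => minpoly F x = P) =
      (P.map (algebraMap F (KK F))).roots.toFinset := by
    ext x
    rw [mem_filter, mem_VV hj0, fix_iff, Multiset.mem_toFinset,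
      mem_roots (h1.map _).ne_zero, IsRoot.def, eval_map_algebraMap]
    refine ⟨fun h => h.2 ▸ minpoly.aeval F x, fun h => ?_⟩
    rw [← minpoly.eq_of_irreducible_of_monic h2 h h1]
    exact ⟨h3, rfl⟩
  rw [sum_congr rfl (g := fun _ => χ P ^ (j / P.natDegree)), sum_const, nsmul_eq_mul, h4,
    Multiset.toFinset_card_of_nodup (nodup_roots (PerfectField.separable_of_irreducible h2).map),
    IsAlgClosed.card_roots_eq_natDegree, h1.natDegree_map]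
  intro x hx
  rw [cc, (mem_filter.1 hx).2, cm_pow_ZD h h1]

theorem roots_ZD {χ : F[X] → ℂ} (h : CM χ) {n : ℕ} (hn : ∀ m, n < m → AA χ m = 0)
    {c : ℝ} {s0 : ℕ} (hc : ∀ s ≥ s0, ‖SS χ (2 * s)‖ ≤ c * (Q F : ℝ) ^ s) :
    ∃ M : Multiset ℂ, M.card = n ∧ (∀ m, PowerSeries.coeff m (PP M) = AA χ m) ∧
      (∀ j, j ≠ 0 → SS χ j = -(M.map (· ^ j)).sum) ∧ ∀ w ∈ M, ‖w‖ ^ 2 ≤ Q F := by
  set R : ℂ[X] := ∑ i ∈ range (n + 1), monomial i (AA χ (n - i)) with hR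
  have hRc : ∀ i, R.coeff i = if i ≤ n then AA χ (n - i) else 0 := by
    intro i
    simp [hR, coeff_monomial]
  have hRd : R.natDegree ≤ n := natDegree_le_iff_coeff_eq_zero.2 fun i hi => by
    rw [hRc, if_neg (by omega)]
  have hRn : R.coeff n = 1 := by rw [hRc, if_pos le_rfl, Nat.sub_self, weil_AA_zero h]
  have hRm : R.Monic := monic_of_natDegree_le_of_coeff_eq_one n hRd hRn
  have hcard : R.roots.card = n := by
    rw [IsAlgClosed.card_roots_eq_natDegree]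
    exact natDegree_eq_of_le_of_coeff_ne_zero hRd (by rw [hRn]; exact one_ne_zero)
  have h1 : ∀ m, PowerSeries.coeff m (PP R.roots) = AA χ m := by
    intro m
    by_cases hm : m ≤ n
    · rw [coeff_PP _ (hcard ▸ hm), prod_multiset_X_sub_C_of_monic_of_roots_card_eq hRm
        IsAlgClosed.card_roots_eq_natDegree, hcard, hRc, if_pos (by omega)]
      congr 1
      omega
    · rw [coeff_PP_eq_zero _ (by omega), hn _ (by omega)]
  have h2 : PP R.roots * TT R.roots =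
      PP R.roots * PowerSeries.mk fun j => if j = 0 then 0 else SS χ j := by
    rw [← X_deriv_PP]
    ext m
    rw [mul_comm (PP _), PowerSeries.coeff_mul _ (PowerSeries.mk _),
      Finset.Nat.sum_antidiagonal_eq_sum_range_succ_mk, sum_range_succ']
    simp only [PowerSeries.coeff_mk, h1, if_true, zero_mul, add_zero, Nat.succ_ne_zero, if_false]
    have h3 := weil_rec h m
    rw [← Finset.Ico_add_one_right_eq_Icc, sum_Ico_eq_sum_range, Nat.add_sub_cancel] at h3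
    simp only [add_comm 1] at h3
    rw [← h3]
    cases m with
    | zero => simp
    | succ m =>
      rw [PowerSeries.coeff_succ_X_mul, PowerSeries.coeff_derivative, h1]
      push_cast
      ring
  have h3 : PP R.roots ≠ 0 := fun h0 => by simpa [h0] using constantCoeff_PP R.roots
  have h4 : ∀ j, j ≠ 0 → SS χ j = -(R.roots.map (· ^ j)).sum := by
    intro j hj
    have := congrArg (PowerSeries.coeff j) (mul_left_cancel₀ h3 h2)
    simpa [TT, hj] using this.symm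
  refine ⟨R.roots, hcard, h1, h4, fun w hw => ?_⟩
  set M := R.roots.map (· ^ 2) with hM
  have h5 : w ^ 2 ∈ M.toFinset := Multiset.mem_toFinset.2 (Multiset.mem_map_of_mem _ hw)
  rw [← norm_pow]
  refine norm_le_of_sum_pow_le (by exact_mod_cast Fintype.card_pos) (M.toFinset.erase (w ^ 2))
    (notMem_erase _ _) (fun v => M.count v) c (s0 + 1) ?_ fun s hs => ?_
  · rw [insert_erase h5]
    intro v hv
    exact_mod_cast Multiset.count_ne_zero.2 (Multiset.mem_toFinset.1 hv)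
  · rw [insert_erase h5]
    have h6 := hc s (by omega)
    rw [h4 _ (by omega), norm_neg] at h6
    refine le_of_eq_of_le ?_ h6
    have := Finset.sum_multiset_map_count M (· ^ s)
    simp only [nsmul_eq_mul] at this
    rw [← this, hM, Multiset.map_map]
    simp [pow_mul]

theorem index_ZD {n : ℕ} (M : Multiset ℂ) (h : M.card = n) :
    ∃ w : Fin n → ℂ, M = Finset.univ.val.map w := by
  induction M using Quotient.inductionOn with
  | _ l =>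
  have h' : l.length = n := h
  subst h'
  refine ⟨l.get, ?_⟩
  rw [Fin.univ_val_map, List.ofFn_get]
  rfl

theorem eval_ZD {n : ℕ} (w : Fin n → ℂ) (z : ℂ) :
    ∑ m ∈ range (n + 1), PowerSeries.coeff m (PP (Finset.univ.val.map w)) * z ^ m =
      ∏ i, (1 - w i * z) := by
  set p : ℂ[X] := ∏ i, (1 - C (w i) * X) with hp
  have h1 : (p : PowerSeries ℂ) = PP (Finset.univ.val.map w) := by
    rw [hp, PP, Multiset.map_map, ← Polynomial.coeToPowerSeries.ringHom_apply, map_prod]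
    simp only [map_sub, map_one, map_mul, Polynomial.coeToPowerSeries.ringHom_apply,
      Polynomial.coe_C, Polynomial.coe_X]
    rfl
  have h2 : p.natDegree < n + 1 := by
    refine Nat.lt_succ_of_le ((natDegree_prod_le _ _).trans ?_)
    refine (sum_le_card_nsmul _ _ 1 fun i _ => ?_).trans (by simp)
    compute_degree
  rw [← h1]
  simp only [Polynomial.coeff_coe]
  rw [← eval_eq_sum_range' h2, hp, eval_prod]
  simp

theorem top_ZD {n : ℕ} (w : Fin n → ℂ) :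
    ‖PowerSeries.coeff n (PP (Finset.univ.val.map w))‖ = ∏ i, ‖w i‖ := by
  have hc : (Finset.univ.val.map w).card = n := by simp
  rw [coeff_PP _ hc.ge, hc, Nat.sub_self, coeff_zero_eq_eval_zero, Multiset.map_map]
  change ‖eval 0 (∏ i, (X - C (w i)))‖ = _
  rw [eval_prod, norm_prod]
  simp

theorem conj_jac_ZD (D f : F[X]) : (starRingEnd ℂ) (jac D f) = jac D f := by
  rcases jac_tri D f with h | h | h <;> simp [h]

theorem zero_data (hF : ringChar F ≠ 2) {g : ℕ} {D : F[X]} (hD : D ∈ sqF F (2 * g + 1)) :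
    ∃ θ : Fin (2 * g) → ℝ, Cj θ ∧ (∀ x, LD F g D x = Lam θ x) ∧
      ∀ j, 1 ≤ j → pp (jac D) j = ps θ j := by
  obtain ⟨hm, hs, hd⟩ := mem_sqF.1 hD
  have h0 : 0 < D.natDegree := by omega
  obtain ⟨c, s0, hc⟩ := norm_SS_jac hF hm hs h0
  obtain ⟨M, hcard, h1, h4, h7⟩ := roots_ZD (jac_cm D) (n := 2 * g)
    (fun m hm' => AA_jac_vanish hF hm hs h0 (by omega)) hc
  obtain ⟨w, rfl⟩ := index_ZD M hcard
  have hQ : (0 : ℝ) < Q F := zero_lt_one.trans one_lt_Q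
  have ht : AA (jac D) (2 * g) = (Q F : ℂ) ^ g := by
    have a := fe_odd hF hm hs (n := 0) hd (Nat.zero_le _)
    rw [weil_AA_zero (jac_cm_left hF hm), mul_one, pow_zero, one_mul, Nat.sub_zero] at a
    rw [fe_AA_recip hF hm, ← a, show D.natDegree * (2 * g) = 2 * (D.natDegree * g) by ring,
      pow_mul, eta_neg_one_sq, one_pow, one_mul]
  have hp : ∏ i, ‖w i‖ ^ 2 = ∏ _i : Fin (2 * g), (Q F : ℝ) := by
    rw [prod_pow, ← top_ZD, h1, ht, norm_pow, Complex.norm_natCast, prod_const, card_univ,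
      Fintype.card_fin, ← pow_mul, mul_comm]
  have hle : ∀ i, ‖w i‖ ^ 2 ≤ Q F := fun i => h7 _ (Multiset.mem_map_of_mem _ (mem_univ i))
  have hw : ∀ i, ‖w i‖ ^ 2 = Q F := by
    intro i
    by_contra hne
    have hpos : ∀ k ∈ (univ : Finset (Fin (2 * g))), 0 < ‖w k‖ ^ 2 := fun k hk =>
      lt_of_le_of_ne (sq_nonneg _) fun e => by
        rw [prod_eq_zero hk e.symm] at hp
        exact (prod_pos fun _ _ => hQ).ne hp
    exact (prod_lt_prod hpos (fun k _ => hle k) ⟨i, mem_univ i, lt_of_le_of_ne (hle i) hne⟩).ne hp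
  have hsq : sq F ≠ 0 := fun e => Q_ne (F := F) (by rw [← sq_sq, e]; simp)
  have hθ : ∀ i, w i * (sq F)⁻¹ = Complex.exp ((w i).arg * Complex.I) := fun i => by
    have a : ((‖w i‖ : ℝ) : ℂ) = sq F := by
      rw [sq, ← hw i, Real.sqrt_sq (norm_nonneg _)]
    rw [mul_inv_eq_iff_eq_mul₀ hsq, mul_comm, ← a, Complex.norm_mul_exp_arg_mul_I]
  have hL : ∀ x, LD F g D x = Lam (fun i => (w i).arg) x := fun x => by
    rw [LD, Lt, Lam]
    simp only [Algebra.algebraMap_self, RingHom.id_apply, ← h1]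
    rw [eval_ZD]
    refine prod_congr rfl fun i _ => ?_
    rw [← hθ]
    ring
  have hcs : (starRingEnd ℂ) (sq F) = sq F := Complex.conj_ofReal _
  have hP : ∀ j, 1 ≤ j → pp (jac D) j = ((∑ i, Real.cos (j * (w i).arg) : ℝ) : ℂ) +
      ((∑ i, Real.sin (j * (w i).arg) : ℝ) : ℂ) * Complex.I := fun j hj => by
    rw [pp, ← SS_eq (jac_cm D) hj, h4 j (by omega), Multiset.map_map, mul_neg, neg_neg]
    change (sq F)⁻¹ ^ j * ∑ i, w i ^ j = _
    push_cast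
    rw [mul_sum, sum_mul, ← sum_add_distrib]
    refine sum_congr rfl fun i _ => ?_
    rw [← mul_pow, mul_comm, hθ, ← Complex.exp_nat_mul, ← mul_assoc, Complex.exp_mul_I]
  have hS : ∀ j : ℕ, ∑ i, Real.sin (j * (w i).arg) = 0 := fun j => by
    rcases Nat.eq_zero_or_pos j with rfl | hj
    · simp
    have a : (starRingEnd ℂ) (pp (jac D) j) = pp (jac D) j := by
      simp only [pp, map_neg, map_mul, map_pow, map_inv₀, map_sum, map_natCast, hcs, conj_jac_ZD]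
    have b := Complex.conj_eq_iff_im.1 a
    rw [hP j hj] at b
    simpa only [Complex.add_im, Complex.ofReal_im, Complex.mul_im, Complex.ofReal_re,
      Complex.I_im, Complex.I_re, mul_one, mul_zero, add_zero, zero_add] using b
  refine ⟨fun i => (w i).arg, ⟨hS, fun x => ?_⟩, hL, fun j hj => ?_⟩
  · have a : (starRingEnd ℂ) (LD F g D ((starRingEnd ℂ) x)) = LD F g D x := by
      simp only [LD, Lt, AA, Algebra.algebraMap_self, RingHom.id_apply, map_mul, map_pow, map_inv₀,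
        map_sum, hcs, conj_jac_ZD, Complex.conj_conj]
    rw [← hL, ← a, hL, Lam, map_prod]
    refine prod_congr rfl fun i _ => ?_
    rw [map_sub, map_one, map_mul, Complex.conj_conj, ← Complex.exp_conj, map_mul,
      Complex.conj_ofReal, Complex.conj_I, mul_neg]
  · rw [hP j hj, hS, ps]
    simp

end Pool.Agent.MP_dd7250_nt.LS

end

section

/- Ratios at small shifts: moments of short linear statistics. -/

set_option autoImplicit false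
set_option maxHeartbeats 400000

namespace Pool.Agent.MP_dd7250_nt.LS

open Polynomial Finset Filter Topology Pool.Agent.MP_d232b3_nt Pool.Agent.MP_dd7250_nt
open scoped Classical

variable {F : Type} [Field F] [Fintype F]

theorem card_prD_mul (d : ℕ) : d * (prD F d).card ≤ Q F ^ d := by
  rcases eq_or_ne d 0 with rfl | hd
  · simp
  have h := weil_full (F := F) (fun _ => 1) hd
  simp only [sum_const, nsmul_eq_mul, mul_one] at h
  have h1 : ((VV F d).filter fun x => (minpoly F x).natDegree = d).card = d * (prD F d).card := by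
    exact_mod_cast h
  rw [← h1, ← card_VV hd]
  exact card_filter_le _ _

theorem cut_P1 {α : Type*} [AddCommMonoid α] (f : ℕ → α) {Y M : ℕ} (f0 : f 0 = 0)
    (hM : ∀ j, M < j → f j = 0) :
    ∑ d ∈ range (M + 1), (if d ≤ Y then f d else 0) = ∑ j ∈ Icc 1 Y, f j := by
  rw [← sum_filter]
  refine (sum_subset (s₁ := (range (M + 1)).filter (· ≤ Y)) (s₂ := range (Y + 1))
    (fun j hj => mem_range.2 (Nat.lt_succ_of_le (mem_filter.1 hj).2)) fun j hj hj' => ?_).trans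
    (sum_subset (s₁ := Icc 1 Y) (s₂ := range (Y + 1))
      (fun j hj => mem_range.2 (Nat.lt_succ_of_le (mem_Icc.1 hj).2)) fun j hj hj' => ?_).symm
  · refine hM j ?_
    simp only [mem_filter, mem_range] at hj hj'
    omega
  · simp only [mem_Icc, mem_range] at hj hj'
    rw [show j = 0 by omega, f0]

theorem prD_zero_P1 : prD F 0 = ∅ :=
  eq_empty_of_forall_notMem fun _ h => (deg_pos (mem_prD.1 h).2.1).ne' (mem_prD.1 h).2.2

theorem geo_P1 {x : ℝ} (hx : 2 ≤ x) (m : ℕ) : ∑ d ∈ range (m + 1), x ^ d ≤ 2 * x ^ m := by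
  induction m with
  | zero => simp
  | succ m ih =>
    rw [sum_range_succ, pow_succ]
    have : 0 ≤ x ^ m := by positivity
    nlinarith

/-- The inverse square root of `q`. -/
noncomputable def rr_P1 (F : Type) [Fintype F] : ℝ := (Real.sqrt (Q F))⁻¹

omit [Field F] in
theorem rr_eq_P1 : (sq F)⁻¹ = (rr_P1 F : ℂ) := by
  rw [sq, rr_P1, Complex.ofReal_inv]

theorem rr_pos_P1 : 0 < rr_P1 F := inv_pos.2 (Real.sqrt_pos.2 (zero_lt_one.trans one_lt_Q))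

theorem rr_sq_P1 : rr_P1 F ^ 2 * Q F = 1 := by
  rw [rr_P1, inv_pow, Real.sq_sqrt (Nat.cast_nonneg _)]
  exact inv_mul_cancel₀ (zero_lt_one.trans one_lt_Q).ne'

theorem rr_le_P1 : rr_P1 F ≤ 1 :=
  inv_le_one_of_one_le₀ (Real.one_le_sqrt.2 one_lt_Q.le)

theorem pp_split_P1 {χ : F[X] → ℂ} (hχ : ∀ P, ‖χ P‖ ≤ 1) {j : ℕ} (hj : 1 ≤ j) :
    ‖pp χ j + (rr_P1 F : ℂ) ^ j * (j * ∑ P ∈ prD F j, χ P)‖ ≤ 2 := by
  have e1 : ((pr F j).filter fun P => P.natDegree ∣ j).filter (fun P => P.natDegree = j) =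
      prD F j := by
    ext P
    simp only [mem_filter, mem_pr, mem_prD]
    exact ⟨fun h => ⟨h.1.1.1, h.1.1.2.1, h.2⟩,
      fun h => ⟨⟨⟨h.1, h.2.1, h.2.2.le⟩, h.2.2 ▸ dvd_rfl⟩, h.2.2⟩⟩
  have e2 : ∑ P ∈ prD F j, (P.natDegree : ℂ) * χ P ^ (j / P.natDegree) =
      j * ∑ P ∈ prD F j, χ P := by
    rw [mul_sum]
    refine sum_congr rfl fun P hP => ?_
    rw [(mem_prD.1 hP).2.2, Nat.div_self hj, pow_one]
  rw [pp, rr_eq_P1, ← sum_filter_add_sum_filter_not _ (fun P : F[X] => P.natDegree = j), e1, e2,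
    mul_add, neg_add, add_right_comm, neg_add_cancel, zero_add, norm_neg, norm_mul, norm_pow,
    Complex.norm_real, Real.norm_of_nonneg rr_pos_P1.le]
  have hq : (2 : ℝ) ≤ Q F := by exact_mod_cast (Fintype.one_lt_card : 1 < Q F)
  have h1 : ‖∑ P ∈ ((pr F j).filter fun P => P.natDegree ∣ j).filter
      (fun P => ¬ P.natDegree = j), (P.natDegree : ℂ) * χ P ^ (j / P.natDegree)‖ ≤
      2 * (Q F : ℝ) ^ (j / 2) := by
    refine (norm_sum_le _ _).trans ((sum_le_sum (g := fun P : F[X] => (P.natDegree : ℝ))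
      fun P _ => ?_).trans ((sum_le_sum_of_subset_of_nonneg (t := pr F (j / 2)) (fun P hP => ?_)
        fun _ _ _ => Nat.cast_nonneg _).trans ?_))
    · rw [norm_mul, norm_pow, Complex.norm_natCast]
      exact mul_le_of_le_one_right (Nat.cast_nonneg _) (pow_le_one₀ (norm_nonneg _) (hχ P))
    · simp only [mem_filter, mem_pr] at hP ⊢
      refine ⟨hP.1.1.1, hP.1.1.2.1, ?_⟩
      obtain ⟨c, hc⟩ := hP.1.2
      have hc2 : 2 ≤ c := by
        rcases c with _ | _ | c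
        · omega
        · exact absurd (by omega) hP.2
        · omega
      rw [Nat.le_div_iff_mul_le two_pos, hc]
      exact Nat.mul_le_mul_left _ hc2
    · rw [sum_pr]
      refine (sum_le_sum fun d _ => ?_).trans (geo_P1 hq _)
      rw [sum_congr rfl (g := fun _ => (d : ℝ)) fun P hP => by rw [(mem_prD.1 hP).2.2],
        sum_const, nsmul_eq_mul, mul_comm]
      exact_mod_cast card_prD_mul d
  have h2 : rr_P1 F ^ j ≤ (rr_P1 F ^ 2) ^ (j / 2) := by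
    rw [← pow_mul]
    exact pow_le_pow_of_le_one rr_pos_P1.le rr_le_P1 (by omega)
  calc _ ≤ (rr_P1 F ^ 2) ^ (j / 2) * (2 * (Q F : ℝ) ^ (j / 2)) :=
        mul_le_mul h2 h1 (norm_nonneg _) (by positivity)
    _ = 2 * (rr_P1 F ^ 2 * Q F) ^ (j / 2) := by
        rw [mul_pow]
        ring
    _ = 2 := by rw [rr_sq_P1, one_pow, mul_one]

/-- The coefficient of a prime of degree `d` in the main part. -/
noncomputable def cf_P1 (F : Type) [Fintype F] (Y : ℕ) (η : ℕ → ℂ) (d : ℕ) : ℂ :=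
  if d ≤ Y then η d * (rr_P1 F : ℂ) ^ d else 0

theorem lf_split_P1 {χ : F[X] → ℂ} (hχ : ∀ P, ‖χ P‖ ≤ 1) {Y M : ℕ} {η : ℕ → ℂ} {a : ℝ}
    (h0 : ∀ j, M < j → η j = 0) (h2 : ∑ j ∈ Icc 1 Y, ‖η j‖ / j ≤ a) :
    ‖lf Y η (pp χ)‖ ≤ ‖∑ P ∈ pr F M, cf_P1 F Y η P.natDegree * χ P‖ + 2 * a := by
  have e1 : ∑ P ∈ pr F M, cf_P1 F Y η P.natDegree * χ P =
      ∑ j ∈ Icc 1 Y, η j * (rr_P1 F : ℂ) ^ j * ∑ P ∈ prD F j, χ P := by
    rw [sum_pr, ← cut_P1 (M := M) _ (by rw [prD_zero_P1, sum_empty, mul_zero])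
      fun j hj => by rw [h0 j hj, zero_mul, zero_mul]]
    refine sum_congr rfl fun d _ => ?_
    rw [sum_congr rfl (g := fun P => cf_P1 F Y η d * χ P) fun P hP => by
      rw [(mem_prD.1 hP).2.2], ← mul_sum, cf_P1]
    split_ifs
    · rfl
    · exact zero_mul _
  have e2 : lf Y η (pp χ) = ∑ j ∈ Icc 1 Y,
      η j / j * (pp χ j + (rr_P1 F : ℂ) ^ j * (j * ∑ P ∈ prD F j, χ P)) -
      ∑ P ∈ pr F M, cf_P1 F Y η P.natDegree * χ P := by
    rw [e1, lf, ← sum_sub_distrib]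
    refine sum_congr rfl fun j hj => ?_
    have : (j : ℂ) ≠ 0 := Nat.cast_ne_zero.2 (by have := (mem_Icc.1 hj).1; omega)
    field_simp
    ring
  rw [e2, add_comm]
  refine (norm_sub_le _ _).trans (add_le_add ((norm_sum_le _ _).trans ?_) le_rfl)
  refine le_trans (sum_le_sum (g := fun j => 2 * (‖η j‖ / j)) fun j hj => ?_) ?_
  · rw [norm_mul, norm_div, Complex.norm_natCast, mul_comm]
    exact mul_le_mul_of_nonneg_right (pp_split_P1 hχ (mem_Icc.1 hj).1) (by positivity)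
  · rw [← mul_sum]
    linarith

theorem cf_sq_P1 {Y M : ℕ} {η : ℕ → ℂ} {a : ℝ} (h0 : ∀ j, M < j → η j = 0)
    (h1 : ∀ j, ‖η j‖ ≤ a) (h2 : ∑ j ∈ Icc 1 Y, ‖η j‖ / j ≤ a) :
    ∑ P ∈ pr F M, ‖cf_P1 F Y η P.natDegree‖ ^ 2 ≤ a ^ 2 := by
  have a0 : 0 ≤ a := (norm_nonneg _).trans (h1 0)
  have e1 : ∑ P ∈ pr F M, ‖cf_P1 F Y η P.natDegree‖ ^ 2 =
      ∑ j ∈ Icc 1 Y, (prD F j).card * (‖η j‖ ^ 2 * (rr_P1 F ^ 2) ^ j) := by
    rw [sum_pr, ← cut_P1 (M := M) _ (by rw [prD_zero_P1]; simp)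
      fun j hj => by rw [h0 j hj]; simp]
    refine sum_congr rfl fun d _ => ?_
    rw [sum_congr rfl (g := fun _ => ‖cf_P1 F Y η d‖ ^ 2) fun P hP => by
      rw [(mem_prD.1 hP).2.2], sum_const, nsmul_eq_mul, cf_P1]
    split_ifs
    · rw [norm_mul, norm_pow, Complex.norm_real, Real.norm_of_nonneg rr_pos_P1.le]
      ring
    · simp
  rw [e1]
  refine le_trans (sum_le_sum (g := fun j => a * (‖η j‖ / j)) fun j hj => ?_) ?_
  · have hj0 : (0 : ℝ) < j := by exact_mod_cast (mem_Icc.1 hj).1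
    have c1 : ((prD F j).card : ℝ) ≤ (Q F : ℝ) ^ j / j := by
      rw [le_div_iff₀ hj0, mul_comm]
      exact_mod_cast card_prD_mul j
    have c2 : ‖η j‖ ^ 2 ≤ a * ‖η j‖ := by
      rw [pow_two]
      exact mul_le_mul_of_nonneg_right (h1 j) (norm_nonneg _)
    calc _ ≤ (Q F : ℝ) ^ j / j * (a * ‖η j‖ * (rr_P1 F ^ 2) ^ j) := by gcongr
      _ = a * (‖η j‖ / j) * (rr_P1 F ^ 2 * Q F) ^ j := by
          rw [mul_pow]
          ring
      _ = _ := by rw [rr_sq_P1, one_pow, mul_one]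
  · rw [← mul_sum, pow_two]
    exact mul_le_mul_of_nonneg_left h2 a0

theorem three_P1 {x y z : ℝ} (hx : 0 ≤ x) (hy : 0 ≤ y) (hz : 0 ≤ z) (n : ℕ) :
    (x + y + z) ^ (n + 1) ≤ 3 ^ n * (x ^ (n + 1) + y ^ (n + 1) + z ^ (n + 1)) := by
  have h := pow_sum_le_card_mul_sum_pow (s := (univ : Finset (Fin 3))) (f := ![x, y, z])
    (fun i _ => by fin_cases i <;> simpa) n
  simpa [Fin.sum_univ_three] using h

theorem moment (hF : ringChar F ≠ 2) {g Y M k : ℕ} {η : ℕ → ℂ} {a : ℝ} (hg : 1 ≤ g)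
    (hk : 1 ≤ k) (hM : k * M ≤ g) (h0 : ∀ j, M < j → η j = 0) (h1 : ∀ j, ‖η j‖ ≤ a)
    (h2 : ∑ j ∈ Icc 1 Y, ‖η j‖ / j ≤ a) :
    ∑ D ∈ sqF F (2 * g + 1), ‖lf Y η (pp (jac D))‖ ^ (2 * k) ≤
      (sqF F (2 * g + 1)).card * (100 * a ^ 2 * k) ^ k := by
  have a0 : 0 ≤ a := (norm_nonneg _).trans (h1 0)
  have hk' : (1 : ℝ) ≤ k := by exact_mod_cast hk
  have hn : 2 * k * M ≤ 2 * g + 1 := by
    rw [mul_assoc]
    omega
  have hs := cf_sq_P1 (F := F) h0 h1 h2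
  have mom : ∀ β : F[X] → ℝ, (∀ P, |β P| ≤ ‖cf_P1 F Y η P.natDegree‖) →
      ∑ D ∈ sqF F (2 * g + 1), |∑ P ∈ pr F M, β P * (jac D P).re| ^ (2 * k) ≤
        (Q F : ℝ) ^ (2 * g + 1) * (4 * a ^ 2 * k) ^ k := fun β hβ => by
    simp only [(even_two_mul k).pow_abs]
    refine (sum_le_sum_of_subset_of_nonneg (filter_subset _ _)
      fun _ _ _ => (even_two_mul k).pow_nonneg _).trans ((even_moment hF hn β).trans ?_)
    have b1 : ∑ P ∈ pr F M, β P ^ 2 ≤ a ^ 2 := by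
      refine le_trans (sum_le_sum fun P _ => ?_) hs
      rw [← sq_abs]
      exact pow_le_pow_left₀ (abs_nonneg _) (hβ P) 2
    have b0 : 0 ≤ ∑ P ∈ pr F M, β P ^ 2 := sum_nonneg fun _ _ => sq_nonneg _
    refine mul_le_mul_of_nonneg_left (pow_le_pow_left₀ (by positivity) ?_ k) (by positivity)
    nlinarith [sq_nonneg a]
  have m1 := mom (fun P => (cf_P1 F Y η P.natDegree).re) fun P => Complex.abs_re_le_norm _
  have m2 := mom (fun P => (cf_P1 F Y η P.natDegree).im) fun P => Complex.abs_im_le_norm _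
  obtain ⟨n, hnk⟩ : ∃ n, 2 * k = n + 1 := ⟨2 * k - 1, by omega⟩
  have pt : ∀ D : F[X], ‖lf Y η (pp (jac D))‖ ^ (2 * k) ≤ 3 ^ n *
      (|∑ P ∈ pr F M, (cf_P1 F Y η P.natDegree).re * (jac D P).re| ^ (2 * k) +
        |∑ P ∈ pr F M, (cf_P1 F Y η P.natDegree).im * (jac D P).re| ^ (2 * k) +
        (2 * a) ^ (2 * k)) := fun D => by
    rw [hnk]
    refine le_trans (pow_le_pow_left₀ (norm_nonneg _) ?_ _)
      (three_P1 (abs_nonneg _) (abs_nonneg _) (by linarith) n)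
    refine (lf_split_P1 (norm_jac_le D) h0 h2).trans (add_le_add ?_ le_rfl)
    have him : ∀ P, (jac D P).im = 0 := fun P => by
      rcases jac_tri D P with h | h | h <;> simp [h]
    refine (Complex.norm_le_abs_re_add_abs_im _).trans_eq ?_
    simp only [Complex.re_sum, Complex.im_sum, Complex.mul_re, Complex.mul_im, him, mul_zero,
      sub_zero, zero_add]
  have hc : ((sqF F (2 * g + 1)).card : ℝ) = (Q F - 1) * (Q F : ℝ) ^ (2 * g) := by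
    exact_mod_cast card_sqF (F := F) hg
  have hq := three_le_Q hF
  have c1 : ((sqF F (2 * g + 1)).card : ℝ) ≤ (Q F : ℝ) ^ (2 * g + 1) := by
    exact_mod_cast card_sqF_le _
  have c2 : (Q F : ℝ) ^ (2 * g + 1) ≤ (sqF F (2 * g + 1)).card * 2 ^ k := by
    have d1 : (2 : ℝ) ≤ 2 ^ k := le_self_pow₀ one_le_two (by omega)
    have d2 : (0 : ℝ) ≤ (Q F : ℝ) ^ (2 * g) := by positivity
    refine le_trans ?_ (mul_le_mul_of_nonneg_left d1 (Nat.cast_nonneg _))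
    rw [hc, pow_succ]
    nlinarith
  have c3 : (2 * a) ^ (2 * k) ≤ (4 * a ^ 2 * k) ^ k := by
    rw [pow_mul]
    refine pow_le_pow_left₀ (by positivity) ?_ k
    nlinarith [sq_nonneg a]
  have c4 : (3 : ℝ) ^ n * 3 = 9 ^ k := by
    rw [← pow_succ, ← hnk, pow_mul]
    norm_num
  refine (sum_le_sum fun D _ => pt D).trans ?_
  rw [← mul_sum, sum_add_distrib, sum_add_distrib, sum_const, nsmul_eq_mul]
  have m3 := mul_le_mul c1 c3 (by positivity) (by positivity)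
  calc _ ≤ 3 ^ n * (3 * ((Q F : ℝ) ^ (2 * g + 1) * (4 * a ^ 2 * k) ^ k)) :=
        mul_le_mul_of_nonneg_left (by linarith) (by positivity)
    _ = (Q F : ℝ) ^ (2 * g + 1) * (9 ^ k * (4 * a ^ 2 * k) ^ k) := by
        rw [← c4]
        ring
    _ ≤ (sqF F (2 * g + 1)).card * 2 ^ k * (9 ^ k * (4 * a ^ 2 * k) ^ k) :=
        mul_le_mul_of_nonneg_right c2 (by positivity)
    _ = (sqF F (2 * g + 1)).card * (2 * (9 * (4 * a ^ 2 * k))) ^ k := by
        rw [mul_pow 2, mul_pow 9, mul_assoc]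
    _ ≤ _ := by
        refine mul_le_mul_of_nonneg_left (pow_le_pow_left₀ (by positivity) ?_ k)
          (Nat.cast_nonneg _)
        nlinarith [sq_nonneg a]

theorem exists_ens (hF : ringChar F ≠ 2) {g : ℕ} (hg : 1 ≤ g) :
    ∃ θ : F[X] → Fin (2 * g) → ℝ, Ens g (sqF F (2 * g + 1)) θ ∧ ∀ D ∈ sqF F (2 * g + 1),
      (∀ x, LD F g D x = Lam (θ D) x) ∧ ∀ j, 1 ≤ j → pp (jac D) j = ps (θ D) j := by
  choose! θ h1 h2 h3 using fun D (hD : D ∈ sqF F (2 * g + 1)) => zero_data hF hD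
  refine ⟨θ, ⟨h1, fun Y M k η a hk hM h0 b1 b2 => ?_⟩, fun D hD => ⟨h2 D hD, h3 D hD⟩⟩
  refine le_of_eq_of_le (sum_congr rfl fun D hD => ?_) (moment hF hg hk hM h0 b1 b2)
  rw [lf_congr (fun _ _ => rfl) (h3 D hD)]

end Pool.Agent.MP_dd7250_nt.LS

end

section

/- Ratios at small shifts: the arithmetic factor near the origin. -/

set_option autoImplicit false
set_option maxHeartbeats 400000

namespace Pool.Agent.MP_dd7250_nt.LS

open Polynomial Finset Filter Topology Pool.Agent.MP_d232b3_nt Pool.Agent.MP_dd7250_nt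
open scoped Classical

variable {F : Type} [Field F] [Fintype F]

/-- the constant of a product -/
def mk_GB (K K' : ℝ) : ℝ := K + K' + 4 * K * K'

/-- `z` is `1 + x` up to second order -/
def Ap_GB (t : ℝ) (z x : ℂ) (K : ℝ) : Prop := 0 ≤ K ∧ ‖z - (1 + x)‖ ≤ K * t ^ 2 ∧ ‖x‖ ≤ K * t

theorem mul_GB {t K K' : ℝ} {z x z' x' : ℂ} (h0 : 0 ≤ t) (h1 : t ≤ 1) (h : Ap_GB t z x K)
    (h' : Ap_GB t z' x' K') : Ap_GB t (z * z') (x + x') (mk_GB K K') := by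
  obtain ⟨a0, a1, a2⟩ := h
  obtain ⟨b0, b1, b2⟩ := h'
  have ht : t ^ 2 ≤ 1 := pow_le_one₀ h0 h1
  have c1 : ‖1 + x‖ ≤ 1 + K := (norm_add_le _ _).trans (by rw [norm_one]; nlinarith)
  have c2 : ‖z'‖ ≤ 1 + 2 * K' := by
    have := norm_add_le (z' - (1 + x')) (1 + x')
    have := norm_add_le 1 x'
    rw [norm_one] at this
    rw [sub_add_cancel] at *
    nlinarith
  refine ⟨by unfold mk_GB; positivity, ?_, (norm_add_le _ _).trans ?_⟩
  · have e : z * z' - (1 + (x + x')) =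
        (z - (1 + x)) * z' + (1 + x) * (z' - (1 + x')) + x * x' := by ring
    rw [e]
    refine (norm_add₃_le).trans ?_
    rw [norm_mul, norm_mul, norm_mul]
    calc _ ≤ K * t ^ 2 * (1 + 2 * K') + (1 + K) * (K' * t ^ 2) + K * t * (K' * t) := by gcongr
      _ = _ := by unfold mk_GB; ring
  · have : 0 ≤ 4 * K * K' * t := by positivity
    unfold mk_GB
    linarith

theorem ne_GB {t : ℝ} {x : ℂ} (h1 : t ≤ 3 / 5) (h : ‖x‖ ≤ t) : 2 / 5 ≤ ‖1 - x‖ := by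
  have := norm_sub_norm_le 1 x
  rw [norm_one] at this
  linarith

theorem inv_GB {t : ℝ} {x : ℂ} (h1 : t ≤ 3 / 5) (h : ‖x‖ ≤ t) : Ap_GB t (1 - x)⁻¹ x 3 := by
  have h2 := ne_GB h1 h
  have h3 : 1 - x ≠ 0 := norm_pos_iff.1 (by linarith)
  have h0 := norm_nonneg x
  refine ⟨by norm_num, ?_, by linarith⟩
  have e : (1 - x)⁻¹ - (1 + x) = x ^ 2 / (1 - x) := by field_simp; ring
  rw [e, norm_div, norm_pow, div_le_iff₀ (by linarith)]
  have : ‖x‖ ^ 2 ≤ t ^ 2 := by gcongr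
  nlinarith

theorem lin_GB {t : ℝ} {x : ℂ} (h : ‖x‖ ≤ t) : Ap_GB t (1 - x) (-x) 1 :=
  ⟨zero_le_one, by rw [← sub_eq_add_neg, sub_self, norm_zero]; positivity, by simpa using h⟩

theorem alg_GB : ∃ κ : ℝ, 0 ≤ κ ∧ ∀ (t : ℝ) (u A B c₁ c₂ c₃ c₄ e₁ e₂ e₃ e₄ : ℂ), t ≤ 3 / 5 →
    ‖u‖ ≤ t → ‖A‖ ≤ t → ‖B‖ ≤ t → ‖c₁‖ ≤ t → ‖c₂‖ ≤ t → ‖c₃‖ ≤ t → ‖c₄‖ ≤ t →
    ‖e₁‖ ≤ t ^ 2 → ‖e₂‖ ≤ t ^ 2 → ‖e₃‖ ≤ t ^ 2 → ‖e₄‖ ≤ t ^ 2 →
    ‖(1 + u)⁻¹ * ((1 - A) * (1 - B) / ((1 - c₁) * (1 - c₂) * (1 - c₃) * (1 - c₄))) *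
      (1 + u + A + B - (c₁ + c₂ + c₃ + c₄) - (e₁ + e₂) + e₃ + e₄) - 1‖ ≤ κ * t ^ 2 := by
  refine ⟨mk_GB (mk_GB 3 (mk_GB (mk_GB 1 1) (mk_GB (mk_GB (mk_GB 3 3) 3) 3))) 7,
    by unfold mk_GB; positivity,
    fun t u A B c₁ c₂ c₃ c₄ e₁ e₂ e₃ e₄ ht hu hA hB h1 h2 h3 h4 g1 g2 g3 g4 => ?_⟩
  have h0 : 0 ≤ t := (norm_nonneg _).trans hu
  have ht1 : t ≤ 1 := by linarith
  have hl : Ap_GB t (1 + u + A + B - (c₁ + c₂ + c₃ + c₄) - (e₁ + e₂) + e₃ + e₄)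
      (u + A + B - (c₁ + c₂ + c₃ + c₄)) 7 := by
    refine ⟨by norm_num, ?_, ?_⟩
    · have e : 1 + u + A + B - (c₁ + c₂ + c₃ + c₄) - (e₁ + e₂) + e₃ + e₄ -
          (1 + (u + A + B - (c₁ + c₂ + c₃ + c₄))) = e₃ + e₄ - (e₁ + e₂) := by ring
      rw [e]
      have := norm_sub_le (e₃ + e₄) (e₁ + e₂)
      have := norm_add_le e₃ e₄
      have := norm_add_le e₁ e₂
      have := _root_.sq_nonneg t
      linarith
    · have := norm_sub_le (u + A + B) (c₁ + c₂ + c₃ + c₄)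
      have := norm_add₃_le (a := u) (b := A) (c := B)
      have := norm_add_le (c₁ + c₂ + c₃) c₄
      have := norm_add₃_le (a := c₁) (b := c₂) (c := c₃)
      linarith
  have h := (mul_GB h0 ht1 (mul_GB h0 ht1 (inv_GB (x := -u) ht (by simpa using hu))
    (mul_GB h0 ht1 (mul_GB h0 ht1 (lin_GB hA) (lin_GB hB))
      (mul_GB h0 ht1 (mul_GB h0 ht1 (mul_GB h0 ht1 (inv_GB ht h1) (inv_GB ht h2)) (inv_GB ht h3))
        (inv_GB ht h4)))) hl).2.1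
  refine le_trans (le_of_eq (congrArg norm ?_)) h
  rw [div_eq_mul_inv, mul_inv, mul_inv, mul_inv, sub_neg_eq_add]
  ring

theorem term_GB (d : ℕ) {s : ℂ} {x : ℝ} (h : s.re ≤ x) : ‖((Q F : ℂ) ^ d) ^ s‖ ≤ qp F (x * d) := by
  rw [br_pow, norm_pow, br_norm, qp_pow]
  exact qp_mono (mul_le_mul_of_nonneg_right h (Nat.cast_nonneg d))

theorem re_GB {α : ℂ} (h : ‖α‖ ≤ 1 / 32) : -(1 / 32) ≤ α.re :=
  (abs_le.1 ((Complex.abs_re_le_norm α).trans h)).1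

theorem two_GB (d : ℕ) {x y : ℂ} (hx : ‖x‖ ≤ 1 / 32) (hy : ‖y‖ ≤ 1 / 32) :
    ‖((Q F : ℂ) ^ d) ^ (-1 - x - y)‖ ≤ qp F (-(3 / 4) * d) :=
  term_GB d (by simp; linarith [re_GB hx, re_GB hy])

theorem t_GB (hF : ringChar F ≠ 2) {d : ℕ} (hd : 1 ≤ d) : qp F (-(3 / 4) * d) ≤ 3 / 5 := by
  have : (1 : ℝ) ≤ d := by exact_mod_cast hd
  exact qp_le_of hF (by linarith)

theorem locA_bound (hF : ringChar F ≠ 2) : ∃ κ : ℝ, 0 ≤ κ ∧ ∀ (α β γ δ : ℂ) (d : ℕ), 1 ≤ d →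
    ‖α‖ ≤ 1 / 32 → ‖β‖ ≤ 1 / 32 → ‖γ‖ ≤ 1 / 32 → ‖δ‖ ≤ 1 / 32 →
    ‖locA ((Q F : ℂ) ^ d) α β γ δ - 1‖ ≤ κ * qp F (-(1 + 1 / 2) * d) := by
  obtain ⟨κ, h0, h⟩ := alg_GB
  refine ⟨κ, h0, fun α β γ δ d hd ha hb hc he => ?_⟩
  have e : qp F (-(1 + 1 / 2) * d) = qp F (-(3 / 4) * d) ^ 2 := by
    rw [qp_pow]; congr 1; push_cast; ring
  have r1 := re_GB ha
  have r2 := re_GB hb
  have r3 := re_GB hc
  have r4 := re_GB he
  rw [locA, one_div]
  refine (h _ _ _ _ _ _ _ _ _ _ _ _ (t_GB hF hd) ?_ (two_GB d ha hb) (two_GB d hc he)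
    (two_GB d ha hc) (two_GB d ha he) (two_GB d hb hc) (two_GB d hb he) ?_ ?_ ?_ ?_).trans_eq
    (by rw [e])
  · rw [← Complex.cpow_neg_one]
    exact term_GB d (by simp; norm_num)
  all_goals
    rw [← e]
    exact term_GB d (by simp; linarith)

theorem AA4_bound (hF : ringChar F ≠ 2) : ∃ K : ℝ, 0 ≤ K ∧ ∀ α β γ δ : ℂ,
    ‖α‖ ≤ 1 / 32 → ‖β‖ ≤ 1 / 32 → ‖γ‖ ≤ 1 / 32 → ‖δ‖ ≤ 1 / 32 → ‖AA4 F α β γ δ‖ ≤ K := by
  obtain ⟨κ, h0, h⟩ := locA_bound hF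
  obtain ⟨C, hC⟩ := sum_pr_le (F := F) (ε := 1 / 2) (by norm_num)
  refine ⟨Real.exp (κ * C), (Real.exp_pos _).le, fun α β γ δ ha hb hc he => ?_⟩
  obtain ⟨b, h1, h2⟩ := hasProd_of_bound (F := F) (ε := 1 / 2) (by norm_num)
    (fun d => locA ((Q F : ℂ) ^ d) α β γ δ) fun d hd => h α β γ δ d hd ha hb hc he
  rw [show AA4 F α β γ δ = b from h1.tprod_eq]
  refine le_of_tendsto' h2.norm fun M => ?_
  calc ‖∏ P ∈ pr F M, locA ((Q F : ℂ) ^ P.natDegree) α β γ δ‖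
      ≤ ∏ P ∈ pr F M, Real.exp (κ * qp F (-(1 + 1 / 2) * P.natDegree)) := by
        rw [norm_prod]
        refine prod_le_prod (fun _ _ => norm_nonneg _) fun P hP => ?_
        have h3 := h α β γ δ _ (deg_pos (mem_pr.1 hP).2.1) ha hb hc he
        have h4 := norm_add_le (locA ((Q F : ℂ) ^ P.natDegree) α β γ δ - 1) 1
        rw [sub_add_cancel, norm_one] at h4
        linarith [Real.add_one_le_exp (κ * qp F (-(1 + 1 / 2) * P.natDegree))]
    _ ≤ _ := by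
        rw [← Real.exp_sum, ← mul_sum]
        exact Real.exp_le_exp.2 (mul_le_mul_of_nonneg_left (hC M) h0)

theorem AA4_comm (α β γ δ : ℂ) : AA4 F α β γ δ = AA4 F β α γ δ := by
  refine tprod_congr fun P => ?_
  have e1 : -1 - β - α = -1 - α - β := by ring
  have e2 : -2 - β - α - γ - δ = -2 - α - β - γ - δ := by ring
  have e3 : -3 - 2 * β - 2 * α = -3 - 2 * α - 2 * β := by ring
  rw [locA, locA, e1, e2, e3]
  simp only [div_eq_mul_inv, mul_inv]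
  ring

theorem AA4_diff (hF : ringChar F ≠ 2) {α β a b γ δ : ℂ} {R : ℝ}
    (h1 : ‖α‖ + ‖a‖ * R ≤ 1 / 32) (h2 : ‖β‖ + ‖b‖ * R ≤ 1 / 32) (h3 : ‖γ‖ ≤ 1 / 32)
    (h4 : ‖δ‖ ≤ 1 / 32) :
    DifferentiableOn ℂ (fun ζ => AA4 F (α + a * ζ) (β + b * ζ) γ δ) (Metric.ball 0 R) := by
  obtain ⟨κ, -, h⟩ := locA_bound hF
  have hs : ∀ {x c : ℂ}, ‖x‖ + ‖c‖ * R ≤ 1 / 32 → ∀ ζ ∈ Metric.ball (0 : ℂ) R,
      ‖x + c * ζ‖ ≤ 1 / 32 := fun {x c} hx ζ hζ => by
    have := norm_add_le x (c * ζ)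
    rw [norm_mul] at this
    have := mul_le_mul_of_nonneg_left (mem_ball_zero_iff.1 hζ).le (norm_nonneg c)
    linarith
  have hd : ∀ P : Prm F, DifferentiableOn ℂ
      (fun ζ => locA ((Q F : ℂ) ^ P.1.natDegree) (α + a * ζ) (β + b * ζ) γ δ)
      (Metric.ball 0 R) := fun P ζ hζ => by
    have hp : (Q F : ℂ) ^ P.1.natDegree ≠ 0 := pow_ne_zero _ Q_ne
    have hn : ∀ {x y : ℂ}, ‖x‖ ≤ 1 / 32 → ‖y‖ ≤ 1 / 32 →
        1 - ((Q F : ℂ) ^ P.1.natDegree) ^ (-1 - x - y) ≠ 0 := fun hx hy =>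
      norm_pos_iff.1 (lt_of_lt_of_le (by norm_num)
        (ne_GB (t_GB hF (deg_pos P.2.2)) (two_GB _ hx hy)))
    refine DifferentiableAt.differentiableWithinAt ?_
    have hden := mul_ne_zero (mul_ne_zero (mul_ne_zero (hn (hs h1 ζ hζ) h3) (hn (hs h1 ζ hζ) h4))
      (hn (hs h2 ζ hζ) h3)) (hn (hs h2 ζ hζ) h4)
    simp only [locA, Complex.cpow_def_of_ne_zero hp] at hden ⊢
    fun_prop (disch := exact hden)
  have hp := Summable.hasProdLocallyUniformlyOn_one_add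
    (f := fun (P : Prm F) ζ =>
      locA ((Q F : ℂ) ^ P.1.natDegree) (α + a * ζ) (β + b * ζ) γ δ - 1)
    Metric.isOpen_ball ((inf_summable (F := F) (ε := 1 / 2) (by norm_num)).mul_left κ)
    (Eventually.of_forall fun P ζ hζ =>
      h _ _ _ _ _ (deg_pos P.2.2) (hs h1 ζ hζ) (hs h2 ζ hζ) h3 h4)
    fun P => ((hd P).sub_const 1).continuousOn
  simp only [add_sub_cancel] at hp
  refine hp.differentiableOn (.of_forall fun s => ?_) Metric.isOpen_ball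
  simpa [Finset.prod_fn] using DifferentiableOn.finsetProd (u := s) fun P _ => hd P

end Pool.Agent.MP_dd7250_nt.LS

end

section

/- Ratios at small shifts: the main terms in the normalised variables. -/

set_option autoImplicit false
set_option maxHeartbeats 400000

namespace Pool.Agent.MP_dd7250_nt.LS

open Polynomial Finset Filter Topology Pool.Agent.MP_d232b3_nt Pool.Agent.MP_dd7250_nt
open scoped Classical

variable {F : Type} [Field F] [Fintype F]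

theorem zeta_GX (x y : ℂ) : zeta F (1 + x + y) = (1 - xv F x * xv F y)⁻¹ := by
  rw [← xv_add, zeta, xv]
  congr 3
  ring

theorem lq_pos_GX : 0 < lq F := Real.log_pos one_lt_Q

theorem GG_x (α β γ δ : ℂ) : GG F α β γ δ = AA4 F α β γ δ *
    ((1 - xv F α * xv F γ) * (1 - xv F α * xv F δ) * (1 - xv F β * xv F γ) *
      (1 - xv F β * xv F δ)) / (1 - xv F γ * xv F δ) / den (xv F α) (xv F β) := by
  have h1 : (1 : ℂ) + 2 * α = 1 + α + α := by ring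
  have h2 : (1 : ℂ) + 2 * β = 1 + β + β := by ring
  rw [GG, h1, h2, den, pow_two, pow_two]
  simp only [zeta_GX, div_eq_mul_inv, mul_inv, inv_inv]
  ring

theorem norm_GX (α : ℂ) : ‖-((lq F : ℂ) * α)‖ = lq F * ‖α‖ := by
  rw [norm_neg, norm_mul, Complex.norm_real, Real.norm_of_nonneg lq_pos_GX.le]

theorem xv_sub_one_le {α : ℂ} (h : lq F * ‖α‖ ≤ 1) : ‖xv F α - 1‖ ≤ 2 * (lq F * ‖α‖) := by
  rw [xv_eq, ← norm_GX]
  exact Complex.norm_exp_sub_one_le (by rwa [norm_GX])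

theorem le_xv_sub_one {α : ℂ} (h : lq F * ‖α‖ ≤ 1) : lq F * ‖α‖ / 4 ≤ ‖1 - xv F α‖ := by
  rw [xv_eq, ← norm_GX] at *
  generalize -((lq F : ℂ) * α) = w at *
  have h1 := Complex.exp_bound h (n := 2) two_pos
  have h2 : ∑ m ∈ range 2, w ^ m / (m.factorial : ℂ) = 1 + w := by
    simp [sum_range_succ]
  rw [h2] at h1
  norm_num [Nat.factorial] at h1
  have h3 : ‖w‖ ≤ ‖1 - Complex.exp w‖ + ‖Complex.exp w - (1 + w)‖ := by
    have := norm_add_le (1 - Complex.exp w) (Complex.exp w - (1 + w))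
    rwa [show 1 - Complex.exp w + (Complex.exp w - (1 + w)) = -w by ring, norm_neg] at this
  nlinarith [norm_nonneg w]

theorem den_ge {e : ℝ} {α β : ℂ} (he : 0 ≤ e) (h : Far e α β) (h1 : lq F * ‖α‖ ≤ 1 / 2)
    (h2 : lq F * ‖β‖ ≤ 1 / 2) : (lq F * e / 4) ^ 3 ≤ ‖den (xv F α) (xv F β)‖ := by
  have hl := lq_pos_GX (F := F)
  have key : ∀ x y : ℂ, lq F * ‖x‖ ≤ 1 / 2 → lq F * ‖y‖ ≤ 1 / 2 → e ≤ ‖x + y‖ →
      lq F * e / 4 ≤ ‖1 - xv F x * xv F y‖ := by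
    intro x y hx hy hxy
    rw [← xv_add]
    refine le_trans ?_ (le_xv_sub_one ?_)
    · gcongr
    · have := mul_le_mul_of_nonneg_left (norm_add_le x y) hl.le
      linarith
  have two : ∀ x : ℂ, e ≤ ‖x‖ → e ≤ ‖x + x‖ := fun x hx => by
    rw [← two_mul, norm_mul, Complex.norm_two]
    linarith [norm_nonneg x]
  have a := key α α h1 h1 (two α h.h1)
  have b := key β β h2 h2 (two β h.h2)
  have c := key α β h1 h2 h.h3
  have h0 : 0 ≤ lq F * e / 4 := by positivity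
  rw [den, norm_mul, norm_mul, pow_two, pow_two, pow_succ, pow_two]
  gcongr

theorem rg_of_sh {C c σ : ℝ} {α β γ δ : ℂ} (h : Sh C c α β γ δ)
    (hc : 2 * C * (lq F * c) ≤ 1 / 8) (h1 : -(lq F * α.re) ≤ σ) (h2 : -(lq F * β.re) ≤ σ) :
    Rg (2 * C) (lq F * c) σ (xv F α) (xv F β) (xv F γ) (xv F δ) := by
  have hl := lq_pos_GX (F := F)
  have hn : ∀ x : ℂ, ‖xv F x‖ = Real.exp (-(lq F * x.re)) := fun x => by
    rw [norm_xv, qp_eq Fintype.card_pos, mul_neg]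
  have hd : ∀ x : ℂ, ‖x‖ ≤ C * c → ‖xv F x - 1‖ ≤ 2 * C * (lq F * c) := fun x hx => by
    have := mul_le_mul_of_nonneg_left hx hl.le
    refine (xv_sub_one_le (by nlinarith)).trans (by nlinarith)
  refine ⟨mul_pos hl h.hc, hc, ?_, ?_, ?_, ?_, hd _ h.h1, hd _ h.h2, hd _ h.h3, hd _ h.h4⟩
  · rw [hn]; exact Real.exp_le_exp.2 h1
  · rw [hn]; exact Real.exp_le_exp.2 h2
  · rw [hn]; exact Real.exp_le_exp.2 (neg_le_neg (mul_le_mul_of_nonneg_left h.r3 hl.le))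
  · rw [hn]; exact Real.exp_le_exp.2 (neg_le_neg (mul_le_mul_of_nonneg_left h.r4 hl.le))

theorem GG_bound (hF : ringChar F ≠ 2) {C η : ℝ} (hC : 1 ≤ C) (hη : 0 < η) :
    ∃ K : ℝ, 0 ≤ K ∧ ∀ (c : ℝ) (α β γ δ : ℂ), Sh C c α β γ δ → C * (lq F * c) ≤ 1 / 32 →
      Far (η * c) α β → ‖GG F α β γ δ‖ ≤ K := by
  obtain ⟨KA, hKA, hA⟩ := AA4_bound hF
  refine ⟨KA * (4 * C) ^ 4 * 2 * 64 / η ^ 3, by positivity, fun c α β γ δ h hc hf => ?_⟩
  have hl := lq_pos_GX (F := F)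
  have hl1 := one_le_lq hF
  have c0 := h.hc
  have hs : 0 < lq F * c := mul_pos hl c0
  have hCc : C * c ≤ C * (lq F * c) := by
    have : c ≤ lq F * c := le_mul_of_one_le_left c0.le hl1
    gcongr
  have hm : ∀ x : ℂ, ‖x‖ ≤ C * c → lq F * ‖x‖ ≤ C * (lq F * c) := fun x hx => by
    have := mul_le_mul_of_nonneg_left hx hl.le
    linarith
  have hxy : ∀ x y : ℂ, ‖x‖ ≤ C * c → ‖y‖ ≤ C * c → lq F * ‖x + y‖ ≤ 2 * (C * (lq F * c)) :=
    fun x y hx hy => by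
      have := mul_le_mul_of_nonneg_left (norm_add_le x y) hl.le
      linarith [hm x hx, hm y hy]
  have up : ∀ x y : ℂ, ‖x‖ ≤ C * c → ‖y‖ ≤ C * c →
      ‖1 - xv F x * xv F y‖ ≤ 4 * C * (lq F * c) := fun x y hx hy => by
    rw [← xv_add, norm_sub_rev]
    have := hxy x y hx hy
    refine (xv_sub_one_le (by linarith)).trans (by linarith)
  have lo : lq F * c / 2 ≤ ‖1 - xv F γ * xv F δ‖ := by
    rw [← xv_add]
    have a := hxy γ δ h.h3 h.h4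
    refine le_trans ?_ (le_xv_sub_one (by linarith))
    have b : 2 * c ≤ ‖γ + δ‖ := by
      refine le_trans ?_ (Complex.re_le_norm _)
      rw [Complex.add_re]
      linarith [h.r3, h.r4]
    have := mul_le_mul_of_nonneg_left b hl.le
    linarith
  have dn := den_ge (F := F) (by positivity) hf (by linarith [hm α h.h1]) (by linarith [hm β h.h2])
  have a0 := hA α β γ δ (by linarith [h.h1]) (by linarith [h.h2]) (by linarith [h.h3])
    (by linarith [h.h4])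
  have a1 := up α γ h.h1 h.h3
  have a2 := up α δ h.h1 h.h4
  have a3 := up β γ h.h2 h.h3
  have a4 := up β δ h.h2 h.h4
  rw [GG_x, norm_div, norm_div, norm_mul, norm_mul, norm_mul, norm_mul]
  calc _ ≤ KA * (4 * C * (lq F * c) * (4 * C * (lq F * c)) * (4 * C * (lq F * c)) *
        (4 * C * (lq F * c))) / (lq F * c / 2) / (lq F * (η * c) / 4) ^ 3 := by
        gcongr
    _ = _ := by
        field_simp
        ring

end Pool.Agent.MP_dd7250_nt.LS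

end

section

/- Ratios with the exponent two: the main terms at all heights. -/

set_option autoImplicit false
set_option maxHeartbeats 400000

namespace Pool.Agent.MP_dd7250_nt.SH

open Polynomial Finset Filter Topology Pool.Agent.MP_d232b3_nt Pool.Agent.MP_dd7250_nt
open Pool.Agent.MP_dd7250_nt.LS
open scoped Classical

variable {F : Type} [Field F] [Fintype F]

theorem two_re (d : ℕ) {x y : ℂ} (hx : -(1 / 32) ≤ x.re) (hy : -(1 / 32) ≤ y.re) :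
    ‖((Q F : ℂ) ^ d) ^ (-1 - x - y)‖ ≤ qp F (-(3 / 4) * d) :=
  term_GB d (by simp; linarith)

theorem locA_re (hF : ringChar F ≠ 2) : ∃ κ : ℝ, 0 ≤ κ ∧ ∀ (α β γ δ : ℂ) (d : ℕ), 1 ≤ d →
    -(1 / 32) ≤ α.re → -(1 / 32) ≤ β.re → -(1 / 32) ≤ γ.re → -(1 / 32) ≤ δ.re →
    ‖locA ((Q F : ℂ) ^ d) α β γ δ - 1‖ ≤ κ * qp F (-(1 + 1 / 2) * d) := by
  obtain ⟨κ, h0, h⟩ := alg_GB
  refine ⟨κ, h0, fun α β γ δ d hd ha hb hc he => ?_⟩
  have e : qp F (-(1 + 1 / 2) * d) = qp F (-(3 / 4) * d) ^ 2 := by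
    rw [qp_pow]; congr 1; push_cast; ring
  rw [locA, one_div]
  refine (h _ _ _ _ _ _ _ _ _ _ _ _ (t_GB hF hd) ?_ (two_re d ha hb) (two_re d hc he)
    (two_re d ha hc) (two_re d ha he) (two_re d hb hc) (two_re d hb he) ?_ ?_ ?_ ?_).trans_eq
    (by rw [e])
  · rw [← Complex.cpow_neg_one]
    exact term_GB d (by simp; norm_num)
  all_goals
    rw [← e]
    exact term_GB d (by simp; linarith)

theorem AA4_re (hF : ringChar F ≠ 2) : ∃ K : ℝ, 0 ≤ K ∧ ∀ α β γ δ : ℂ,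
    -(1 / 32) ≤ α.re → -(1 / 32) ≤ β.re → -(1 / 32) ≤ γ.re → -(1 / 32) ≤ δ.re →
    ‖AA4 F α β γ δ‖ ≤ K := by
  obtain ⟨κ, h0, h⟩ := locA_re hF
  obtain ⟨C, hC⟩ := sum_pr_le (F := F) (ε := 1 / 2) (by norm_num)
  refine ⟨Real.exp (κ * C), (Real.exp_pos _).le, fun α β γ δ ha hb hc he => ?_⟩
  obtain ⟨b, h1, h2⟩ := hasProd_of_bound (F := F) (ε := 1 / 2) (by norm_num)
    (fun d => locA ((Q F : ℂ) ^ d) α β γ δ) fun d hd => h α β γ δ d hd ha hb hc he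
  rw [show AA4 F α β γ δ = b from h1.tprod_eq]
  refine le_of_tendsto' h2.norm fun M => ?_
  calc ‖∏ P ∈ pr F M, locA ((Q F : ℂ) ^ P.natDegree) α β γ δ‖
      ≤ ∏ P ∈ pr F M, Real.exp (κ * qp F (-(1 + 1 / 2) * P.natDegree)) := by
        rw [norm_prod]
        refine prod_le_prod (fun _ _ => norm_nonneg _) fun P hP => ?_
        have h3 := h α β γ δ _ (deg_pos (mem_pr.1 hP).2.1) ha hb hc he
        have h4 := norm_add_le (locA ((Q F : ℂ) ^ P.natDegree) α β γ δ - 1) 1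
        rw [sub_add_cancel, norm_one] at h4
        linarith [Real.add_one_le_exp (κ * qp F (-(1 + 1 / 2) * P.natDegree))]
    _ ≤ _ := by
        rw [← Real.exp_sum, ← mul_sum]
        exact Real.exp_le_exp.2 (mul_le_mul_of_nonneg_left (hC M) h0)

theorem AA4_on (hF : ringChar F ≠ 2) {u v w z : ℂ → ℂ} {S : Set ℂ} (hS : IsOpen S)
    (hu : Differentiable ℂ u) (hv : Differentiable ℂ v) (hw : Differentiable ℂ w)
    (hz : Differentiable ℂ z) (hr : ∀ ζ ∈ S, -(1 / 32) ≤ (u ζ).re ∧ -(1 / 32) ≤ (v ζ).re ∧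
      -(1 / 32) ≤ (w ζ).re ∧ -(1 / 32) ≤ (z ζ).re) :
    DifferentiableOn ℂ (fun ζ => AA4 F (u ζ) (v ζ) (w ζ) (z ζ)) S := by
  obtain ⟨κ, -, h⟩ := locA_re hF
  have hd : ∀ P : Prm F, DifferentiableOn ℂ
      (fun ζ => locA ((Q F : ℂ) ^ P.1.natDegree) (u ζ) (v ζ) (w ζ) (z ζ)) S := fun P ζ hζ => by
    have hp : (Q F : ℂ) ^ P.1.natDegree ≠ 0 := pow_ne_zero _ Q_ne
    have hn : ∀ {x y : ℂ}, -(1 / 32) ≤ x.re → -(1 / 32) ≤ y.re →
        1 - ((Q F : ℂ) ^ P.1.natDegree) ^ (-1 - x - y) ≠ 0 := fun hx hy =>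
      norm_pos_iff.1 (lt_of_lt_of_le (by norm_num)
        (ne_GB (t_GB hF (deg_pos P.2.2)) (two_re _ hx hy)))
    obtain ⟨r1, r2, r3, r4⟩ := hr ζ hζ
    refine DifferentiableAt.differentiableWithinAt ?_
    have hden := mul_ne_zero (mul_ne_zero (mul_ne_zero (hn r1 r3) (hn r1 r4)) (hn r2 r3))
      (hn r2 r4)
    have d1 := hu ζ
    have d2 := hv ζ
    have d3 := hw ζ
    have d4 := hz ζ
    simp only [locA, Complex.cpow_def_of_ne_zero hp] at hden ⊢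
    fun_prop (disch := exact hden)
  have hp := Summable.hasProdLocallyUniformlyOn_one_add
    (f := fun (P : Prm F) ζ =>
      locA ((Q F : ℂ) ^ P.1.natDegree) (u ζ) (v ζ) (w ζ) (z ζ) - 1)
    hS ((inf_summable (F := F) (ε := 1 / 2) (by norm_num)).mul_left κ)
    (Eventually.of_forall fun P ζ hζ =>
      h _ _ _ _ _ (deg_pos P.2.2) (hr ζ hζ).1 (hr ζ hζ).2.1 (hr ζ hζ).2.2.1 (hr ζ hζ).2.2.2)
    fun P => ((hd P).sub_const 1).continuousOn
  simp only [add_sub_cancel] at hp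
  refine hp.differentiableOn (.of_forall fun s => ?_) hS
  simpa [Finset.prod_fn] using DifferentiableOn.finsetProd (u := s) fun P _ => hd P

theorem AA4_congr {α α' : ℂ} (h : xv F α = xv F α') (β γ δ : ℂ) :
    AA4 F α β γ δ = AA4 F α' β γ δ := by
  refine tprod_congr fun P => ?_
  have e : ∀ (s t t' : ℂ), xv F t = xv F t' → ((Q F : ℂ) ^ P.1.natDegree) ^ (s - t) =
      ((Q F : ℂ) ^ P.1.natDegree) ^ (s - t') := fun s t t' h1 => by
    rw [br_pow, br_pow, sub_eq_add_neg, sub_eq_add_neg, Complex.cpow_add _ _ Q_ne,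
      Complex.cpow_add _ _ Q_ne, ← xv, ← xv, h1]
  have h2 : xv F (2 * α) = xv F (2 * α') := by rw [two_mul, two_mul, xv_add, xv_add, h]
  have e1 : ∀ x y : ℂ, -1 - x - y = -1 - y - x := fun x y => by ring
  have e2 : ∀ x : ℂ, -2 - x - β - γ - δ = -2 - β - γ - δ - x := fun x => by ring
  have e3 : ∀ x : ℂ, -3 - 2 * x - 2 * β = -3 - 2 * β - 2 * x := fun x => by ring
  rw [locA, locA, e1 α β, e1 α γ, e1 α δ, e1 α' β, e1 α' γ, e1 α' δ, e2, e2, e3, e3,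
    e (-1 - β) _ _ h, e (-1 - γ) _ _ h, e (-1 - δ) _ _ h, e (-2 - β - γ - δ) _ _ h,
    e (-2) _ _ h2, e (-3 - 2 * β) _ _ h2]

theorem div4 {a₁ a₂ a₃ a₄ b₁ b₂ b₃ b₄ : ℂ} {k₁ k₂ k₃ k₄ : ℝ} (h1 : ‖a₁‖ ≤ k₁ * ‖b₁‖)
    (h2 : ‖a₂‖ ≤ k₂ * ‖b₂‖) (h3 : ‖a₃‖ ≤ k₃ * ‖b₃‖) (h4 : ‖a₄‖ ≤ k₄ * ‖b₄‖) (c1 : 0 ≤ k₁)
    (c2 : 0 ≤ k₂) (c3 : 0 ≤ k₃) (c4 : 0 ≤ k₄) :
    ‖a₁ * a₂ * a₃ * a₄ / (b₁ * b₂ * b₃ * b₄)‖ ≤ k₁ * k₂ * k₃ * k₄ := by
  have e : ∀ {a b : ℂ} {k : ℝ}, 0 ≤ k → ‖a‖ ≤ k * ‖b‖ → ‖a / b‖ ≤ k := fun c h => by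
    rw [norm_div]
    exact div_le_of_le_mul₀ (norm_nonneg _) c h
  rw [← div_mul_div_comm, ← div_mul_div_comm, ← div_mul_div_comm, norm_mul, norm_mul, norm_mul]
  have := e c1 h1
  have := e c2 h2
  have := e c3 h3
  have := e c4 h4
  gcongr

/-- The normalised shifts are paired at distance `Y`, and `Y / R` away from the poles. -/
structure Px (Y R : ℝ) (x₁ x₂ y₁ y₂ : ℂ) : Prop where
  hR : 1 ≤ R
  l1 : 1 / 2 ≤ ‖x₁‖
  l2 : 1 / 2 ≤ ‖x₂‖
  u1 : ‖x₁‖ ≤ 2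
  u2 : ‖x₂‖ ≤ 2
  u3 : ‖y₁‖ ≤ 1
  u4 : ‖y₂‖ ≤ 1
  d1 : ‖x₁ - y₁‖ ≤ Y
  d2 : ‖x₂ - y₂‖ ≤ Y
  p1 : Y ≤ R * ‖1 - x₁ ^ 2‖
  p2 : Y ≤ R * ‖1 - x₂ ^ 2‖
  p3 : Y ≤ R * ‖1 - x₁ * x₂‖
  p4 : Y ≤ R * ‖x₂ - x₁‖
  p5 : Y ≤ R * ‖1 - y₁ * y₂‖

/-- One term of the prediction without the arithmetic factor. -/
noncomputable def tm (x₁ x₂ y₁ y₂ : ℂ) : ℂ :=
  (1 - x₁ * y₁) * (1 - x₁ * y₂) * (1 - x₂ * y₁) * (1 - x₂ * y₂) / (1 - y₁ * y₂) / den x₁ x₂

theorem tri {a b c d : ℂ} {k Y R : ℝ} (e : a = b + c * d) (hc : ‖c‖ ≤ k) (hd : ‖d‖ ≤ Y)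
    (hR : 1 ≤ R) (h : Y ≤ R * ‖b‖) : ‖a‖ ≤ (1 + k) * R * ‖b‖ := by
  have h1 := norm_add_le b (c * d)
  have k0 := (norm_nonneg c).trans hc
  rw [← e, norm_mul] at h1
  have h2 := mul_le_mul hc (hd.trans h) (norm_nonneg _) k0
  nlinarith [norm_nonneg b]

theorem Px.symm {Y R : ℝ} {x₁ x₂ y₁ y₂ : ℂ} (h : Px Y R x₁ x₂ y₁ y₂) : Px Y R x₂ x₁ y₂ y₁ :=
  ⟨h.hR, h.l2, h.l1, h.u2, h.u1, h.u4, h.u3, h.d2, h.d1, h.p2, h.p1, mul_comm x₁ x₂ ▸ h.p3,
    norm_sub_rev x₂ x₁ ▸ h.p4, mul_comm y₁ y₂ ▸ h.p5⟩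

theorem tm_comm (x₁ x₂ y₁ y₂ : ℂ) : tm x₁ x₂ y₁ y₂ = tm x₂ x₁ y₂ y₁ := by
  rw [tm, tm, den, den]
  ring

theorem tm1 {Y R : ℝ} {x₁ x₂ y₁ y₂ : ℂ} (h : Px Y R x₁ x₂ y₁ y₂) :
    ‖tm x₁ x₂ y₁ y₂‖ ≤ 400 * R ^ 4 := by
  have hR := h.hR
  have e : tm x₁ x₂ y₁ y₂ = (1 - x₁ * y₁) * (1 - x₂ * y₂) * (1 - x₁ * y₂) * (1 - x₂ * y₁) /
      ((1 - x₁ ^ 2) * (1 - x₂ ^ 2) * (1 - x₁ * x₂) * (1 - y₁ * y₂)) := by
    rw [tm, den, div_div]
    congr 1 <;> ring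
  rw [e]
  refine (div4 (tri (by ring) h.u1 h.d1 hR h.p1) (tri (by ring) h.u2 h.d2 hR h.p2)
    (tri (by ring) h.u1 h.d2 hR h.p3)
    (tri (c := y₁) (d := y₂ - x₂) (by ring) h.u3 (norm_sub_rev x₂ y₂ ▸ h.d2) hR h.p5)
    (by positivity) (by positivity) (by positivity) (by positivity)).trans ?_
  nlinarith [pow_pos (zero_lt_one.trans_le hR) 4]

theorem tm2 {Y R : ℝ} {x₁ x₂ y₁ y₂ : ℂ} (h : Px Y R x₁ x₂ y₁ y₂) :
    ‖tm x₁ x₂⁻¹ y₁ y₂‖ ≤ 400 * R ^ 4 := by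
  have hR := h.hR
  have h0 : x₂ ≠ 0 := norm_pos_iff.1 (lt_of_lt_of_le (by norm_num) h.l2)
  have e : tm x₁ x₂⁻¹ y₁ y₂ = -x₂ * ((1 - x₁ * y₁) * (x₂ - y₂) * (x₂ - y₁) * (1 - x₁ * y₂) /
      ((1 - x₁ ^ 2) * (1 - x₂ ^ 2) * (x₂ - x₁) * (1 - y₁ * y₂))) := by
    have e1 : den x₁ x₂⁻¹ = (1 - x₁ ^ 2) * (1 - x₂ ^ 2) * (x₂ - x₁) / (-x₂ ^ 3) := by
      rw [den]
      field_simp
      ring
    have e2 : (1 - x₁ * y₁) * (1 - x₁ * y₂) * (1 - x₂⁻¹ * y₁) * (1 - x₂⁻¹ * y₂) =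
        (1 - x₁ * y₁) * (x₂ - y₂) * (x₂ - y₁) * (1 - x₁ * y₂) / x₂ ^ 2 := by
      field_simp
    rw [tm, e1, e2, div_div_eq_mul_div]
    simp only [div_eq_mul_inv, mul_inv]
    generalize (1 - x₁ ^ 2)⁻¹ = a
    generalize (1 - x₂ ^ 2)⁻¹ = b
    generalize (x₂ - x₁)⁻¹ = c
    generalize (1 - y₁ * y₂)⁻¹ = d
    field_simp
  rw [e, norm_mul, norm_neg]
  refine (mul_le_mul h.u2 (div4 (tri (by ring) h.u1 h.d1 hR h.p1) (h.d2.trans h.p2)
    (tri (c := 1) (by ring) norm_one.le h.d1 hR h.p4)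
    (tri (c := y₂) (d := y₁ - x₁) (by ring) h.u4 (norm_sub_rev x₁ y₁ ▸ h.d1) hR h.p5)
    (by positivity) (by positivity) (by positivity) (by positivity)) (norm_nonneg _)
    zero_le_two).trans ?_
  nlinarith [pow_pos (zero_lt_one.trans_le hR) 4]

theorem tm3 {Y R : ℝ} {x₁ x₂ y₁ y₂ : ℂ} (h : Px Y R x₁ x₂ y₁ y₂) :
    ‖tm x₁⁻¹ x₂ y₁ y₂‖ ≤ 400 * R ^ 4 := by
  rw [tm_comm]
  exact tm2 h.symm

theorem dist_le {x₁ x₂ : ℂ} (h : 1 / 2 ≤ ‖x₁‖) :
    ‖x₂ - x₁‖ ≤ 2 * (‖1 - x₁ ^ 2‖ + ‖1 - x₁ * x₂‖) := by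
  have h1 := norm_sub_le (1 - x₁ ^ 2) (1 - x₁ * x₂)
  rw [show 1 - x₁ ^ 2 - (1 - x₁ * x₂) = x₁ * (x₂ - x₁) by ring, norm_mul] at h1
  nlinarith [norm_nonneg (x₂ - x₁)]

theorem tm4 {Y R : ℝ} {x₁ x₂ y₁ y₂ : ℂ} (h : Px Y R x₁ x₂ y₁ y₂) :
    ‖tm x₁⁻¹ x₂⁻¹ y₁ y₂‖ ≤ 400 * R ^ 4 := by
  have hR := h.hR
  have h1 : x₁ ≠ 0 := norm_pos_iff.1 (lt_of_lt_of_le (by norm_num) h.l1)
  have h2 : x₂ ≠ 0 := norm_pos_iff.1 (lt_of_lt_of_le (by norm_num) h.l2)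
  have e : tm x₁⁻¹ x₂⁻¹ y₁ y₂ = -(x₁ * x₂) * ((x₁ - y₁) * (x₂ - y₂) * (x₁ - y₂) * (x₂ - y₁) /
      ((1 - x₁ ^ 2) * (1 - x₂ ^ 2) * (1 - x₁ * x₂) * (1 - y₁ * y₂))) := by
    have e1 : den x₁⁻¹ x₂⁻¹ =
        (1 - x₁ ^ 2) * (1 - x₂ ^ 2) * (1 - x₁ * x₂) / (-(x₁ * x₂) ^ 3) := by
      rw [den]
      field_simp
      ring
    have e2 : (1 - x₁⁻¹ * y₁) * (1 - x₁⁻¹ * y₂) * (1 - x₂⁻¹ * y₁) * (1 - x₂⁻¹ * y₂) =
        (x₁ - y₁) * (x₂ - y₂) * (x₁ - y₂) * (x₂ - y₁) / (x₁ * x₂) ^ 2 := by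
      field_simp
    rw [tm, e1, e2, div_div_eq_mul_div]
    simp only [div_eq_mul_inv, mul_inv]
    generalize (1 - x₁ ^ 2)⁻¹ = a
    generalize (1 - x₂ ^ 2)⁻¹ = b
    generalize (1 - x₁ * x₂)⁻¹ = c
    generalize (1 - y₁ * y₂)⁻¹ = d
    field_simp
  have a0 : ‖-(x₁ * x₂)‖ ≤ 4 := by
    rw [norm_neg, norm_mul]
    nlinarith [h.u1, h.u2, norm_nonneg x₁, norm_nonneg x₂]
  have a1 : ‖x₁ - y₂‖ ≤ ‖x₂ - x₁‖ + Y := by
    have := norm_sub_le (x₂ - y₂) (x₂ - x₁)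
    rw [show x₂ - y₂ - (x₂ - x₁) = x₁ - y₂ by ring] at this
    linarith [h.d2]
  have a2 : ‖x₂ - y₁‖ ≤ ‖x₂ - x₁‖ + Y := by
    have := norm_add_le (x₂ - x₁) (x₁ - y₁)
    rw [show x₂ - x₁ + (x₁ - y₁) = x₂ - y₁ by ring] at this
    linarith [h.d1]
  have a3 := dist_le (x₂ := x₂) h.l1
  have a4 := dist_le (x₂ := x₁) h.l2
  rw [norm_sub_rev x₁ x₂, mul_comm x₂ x₁] at a4
  have a5 : ‖1 - x₁ * x₂‖ ≤ ‖1 - y₁ * y₂‖ + 3 * Y := by
    have b1 := norm_sub_le (1 - y₁ * y₂) (x₁ * (x₂ - y₂) + y₂ * (x₁ - y₁))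
    have b2 := norm_add_le (x₁ * (x₂ - y₂)) (y₂ * (x₁ - y₁))
    rw [show 1 - y₁ * y₂ - (x₁ * (x₂ - y₂) + y₂ * (x₁ - y₁)) = 1 - x₁ * x₂ by ring] at b1
    rw [norm_mul, norm_mul] at b2
    have b3 := mul_le_mul h.u1 h.d2 (norm_nonneg _) zero_le_two
    have b4 := mul_le_mul h.u4 h.d1 (norm_nonneg _) zero_le_one
    linarith
  have p1 := h.p1
  have p2 := h.p2
  have p3 := h.p3
  have p5 := h.p5
  have q1 := le_mul_of_one_le_left (norm_nonneg (1 - x₁ ^ 2)) hR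
  have q2 := le_mul_of_one_le_left (norm_nonneg (1 - x₂ ^ 2)) hR
  have q3 := le_mul_of_one_le_left (norm_nonneg (1 - x₁ * x₂)) hR
  have q5 := le_mul_of_one_le_left (norm_nonneg (1 - y₁ * y₂)) hR
  have R4 := pow_pos (zero_lt_one.trans_le hR) 4
  rw [e, norm_mul]
  by_cases hc : ‖1 - x₁ ^ 2‖ ≤ ‖1 - x₁ * x₂‖ ∨ ‖1 - x₂ ^ 2‖ ≤ ‖1 - x₁ * x₂‖
  · have a6 : ‖x₂ - x₁‖ ≤ 4 * ‖1 - x₁ * x₂‖ := by rcases hc with hc | hc <;> linarith
    refine (mul_le_mul a0 (div4 (k₃ := 5 * R) (k₄ := 17 * R) (h.d1.trans p1) (h.d2.trans p2)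
      (by linarith) (by linarith) (by positivity) (by positivity) (by positivity)
      (by positivity)) (norm_nonneg _) (by norm_num)).trans ?_
    nlinarith
  · rw [not_or, not_le, not_le] at hc
    rw [show (x₁ - y₁) * (x₂ - y₂) * (x₁ - y₂) * (x₂ - y₁) =
      (x₁ - y₂) * (x₂ - y₁) * (x₁ - y₁) * (x₂ - y₂) by ring]
    refine (mul_le_mul a0 (div4 (k₁ := 5 * R) (k₂ := 5 * R) (by linarith [hc.1])
      (by linarith [hc.2]) (h.d1.trans p3) (h.d2.trans p5) (by positivity) (by positivity)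
      (by positivity) (by positivity)) (norm_nonneg _) (by norm_num)).trans ?_
    nlinarith

theorem GG_tm (α β γ δ : ℂ) :
    GG F α β γ δ = AA4 F α β γ δ * tm (xv F α) (xv F β) (xv F γ) (xv F δ) := by
  rw [GG_x, tm, mul_div_assoc, mul_div_assoc]

theorem norm_xv_sq (α : ℂ) (g : ℕ) : ‖(xv F α ^ 2) ^ g‖ ≤ qp F (2 * g * max 0 (-α.re)) := by
  rw [norm_pow, norm_pow, norm_xv, qp_pow, qp_pow]
  refine qp_mono ?_
  push_cast
  nlinarith [mul_le_mul_of_nonneg_left (le_max_right 0 (-α.re)) (Nat.cast_nonneg (α := ℝ) g)]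

theorem pred_le (hF : ringChar F ≠ 2) : ∃ K : ℝ, 0 ≤ K ∧ ∀ (g : ℕ) (Y R : ℝ) (α β γ δ : ℂ),
    |α.re| ≤ 1 / 32 → |β.re| ≤ 1 / 32 → 0 ≤ γ.re → 0 ≤ δ.re →
    Px Y R (xv F α) (xv F β) (xv F γ) (xv F δ) → ‖pred F g α β γ δ‖ ≤
      K * R ^ 4 * qp F (2 * g * max 0 (-α.re) + 2 * g * max 0 (-β.re)) := by
  obtain ⟨K, hK, hA⟩ := AA4_re hF
  refine ⟨4 * (K * 400), by positivity, fun g Y R α β γ δ ha hb hc hd h => ?_⟩
  obtain ⟨a1, a2⟩ := abs_le.1 ha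
  obtain ⟨b1, b2⟩ := abs_le.1 hb
  have c1 : -(1 / 32) ≤ γ.re := by linarith
  have d1 : -(1 / 32) ≤ δ.re := by linarith
  have a3 : -(1 / 32) ≤ (-α).re := by rw [Complex.neg_re]; linarith
  have b3 : -(1 / 32) ≤ (-β).re := by rw [Complex.neg_re]; linarith
  have t1 := mul_le_mul (hA _ _ _ _ a1 b1 c1 d1) (tm1 h) (norm_nonneg _) hK
  have t2 := mul_le_mul (hA _ _ _ _ a1 b3 c1 d1) (tm2 h) (norm_nonneg _) hK
  have t3 := mul_le_mul (hA _ _ _ _ a3 b1 c1 d1) (tm3 h) (norm_nonneg _) hK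
  have t4 := mul_le_mul (hA _ _ _ _ a3 b3 c1 d1) (tm4 h) (norm_nonneg _) hK
  rw [← xv_neg, ← norm_mul, ← GG_tm] at t2 t3
  rw [← xv_neg, ← xv_neg, ← norm_mul, ← GG_tm] at t4
  rw [← norm_mul, ← GG_tm] at t1
  have n1 := norm_xv_sq (F := F) α g
  have n2 := norm_xv_sq (F := F) β g
  have m1 : 1 ≤ qp F (2 * g * max 0 (-α.re)) := qp_zero.ge.trans (qp_mono (by positivity))
  have m2 : 1 ≤ qp F (2 * g * max 0 (-β.re)) := qp_zero.ge.trans (qp_mono (by positivity))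
  rw [pred, qp_add]
  refine (norm_add_le_of_le (norm_add_le _ _) (norm_add_le _ _)).trans ?_
  rw [norm_mul, norm_mul, norm_mul, norm_mul]
  have hR : 0 ≤ K * (400 * R ^ 4) := by positivity
  generalize qp F (2 * g * max 0 (-α.re)) = A at *
  generalize qp F (2 * g * max 0 (-β.re)) = B at *
  calc _ ≤ A * B * (K * (400 * R ^ 4)) + A * B * (K * (400 * R ^ 4)) +
        (A * B * (K * (400 * R ^ 4)) + A * B * (K * (400 * R ^ 4))) := by
        gcongr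
        · exact t1.trans (le_mul_of_one_le_left hR (one_le_mul_of_one_le_of_one_le m1 m2))
        · exact n2.trans (le_mul_of_one_le_left (by linarith) m1)
        · exact n1.trans (le_mul_of_one_le_right (by linarith) m2)
    _ = _ := by ring

end Pool.Agent.MP_dd7250_nt.SH

end
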