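import Mathlib
import Pool.Agent.Mg.Fdd7250p.G4187d7

set_option linter.all false

section

/- Ratios at small shifts: a band limited majorant. -/

set_option autoImplicit false
set_option maxHeartbeats 400000

namespace Pool.Agent.MP_dd7250_nt.LS

open Finset Complex Filter Topology

theorem dir_L3 (M : ℕ) (t : ℝ) :
    (2 - 2 * Real.cos t) * (1 + 2 * ∑ j ∈ Icc 1 M, Real.cos (j * t)) =
      2 * (Real.cos (M * t) - Real.cos ((M + 1) * t)) := by
  induction M with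
  | zero => simp; ring
  | succ M ih =>
    rw [sum_Icc_succ_top (by omega)]
    have h1 : Real.cos (M * t) = Real.cos ((M + 1) * t - t) := by congr 1; ring
    have h2 : Real.cos (((M + 1 : ℕ) + 1) * t) = Real.cos ((M + 1) * t + t) := by
      congr 1; push_cast; ring
    rw [h2]
    rw [h1, Real.cos_sub] at ih
    rw [Real.cos_add]
    push_cast
    linear_combination ih

theorem fej_L3 (M : ℕ) (t : ℝ) :
    (2 - 2 * Real.cos t) * (M + 2 * ∑ j ∈ Icc 1 M, ((M : ℝ) - j) * Real.cos (j * t)) =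
      2 * (1 - Real.cos (M * t)) := by
  induction M with
  | zero => simp
  | succ M ih =>
    rw [sum_Icc_succ_top (by omega)]
    have h1 : ∑ j ∈ Icc 1 M, (((M + 1 : ℕ) : ℝ) - j) * Real.cos (j * t) =
        ∑ j ∈ Icc 1 M, ((M : ℝ) - j) * Real.cos (j * t) + ∑ j ∈ Icc 1 M, Real.cos (j * t) := by
      rw [← sum_add_distrib]
      refine sum_congr rfl fun j _ => ?_
      push_cast
      ring
    rw [h1]
    have h2 := dir_L3 M t
    push_cast
    linear_combination ih + h2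

theorem fej_nonneg_L3 (M : ℕ) (t : ℝ) :
    0 ≤ (M : ℝ) + 2 * ∑ j ∈ Icc 1 M, ((M : ℝ) - j) * Real.cos (j * t) := by
  rcases (Real.cos_le_one t).eq_or_lt with h | h
  · obtain ⟨n, rfl⟩ := (Real.cos_eq_one_iff t).1 h
    refine add_nonneg (Nat.cast_nonneg M) (mul_nonneg zero_le_two (sum_nonneg fun j hj => ?_))
    have h1 : (j : ℝ) * (n * (2 * Real.pi)) = ((j * n : ℤ) : ℝ) * (2 * Real.pi) := by
      push_cast; ring
    have h2 : (j : ℝ) ≤ M := by exact_mod_cast (mem_Icc.1 hj).2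
    rw [h1, Real.cos_int_mul_two_pi]
    linarith
  · have h1 := fej_L3 M t
    have h2 := Real.cos_le_one (M * t)
    by_contra h3
    have h4 := mul_neg_of_pos_of_neg (show 0 < 2 - 2 * Real.cos t by linarith) (not_le.1 h3)
    linarith

theorem tri_L3 (t a : ℝ) :
    2 - 2 * Real.cos (t + a) ≤ 2 * (2 - 2 * Real.cos t) + 2 * a ^ 2 := by
  have h1 := Real.one_sub_sq_div_two_le_cos (x := a)
  rw [Real.cos_add]
  nlinarith [sq_nonneg (Real.cos t - 2 + Real.cos a), sq_nonneg (Real.sin t - Real.sin a),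
    Real.sin_sq_add_cos_sq t, Real.sin_sq_add_cos_sq a]

theorem fejer {M : ℕ} (hM : 1 ≤ M) : ∃ c : ℕ → ℝ, (∀ j, |c j| ≤ 6 / M) ∧ ∀ θ : ℝ,
    1 / (1 + (M : ℝ) ^ 2 * (2 - 2 * Real.cos θ)) ≤
      3 / M + ∑ j ∈ Icc 1 M, c j * Real.cos (j * θ) := by
  have hM0 : (0 : ℝ) < M := by exact_mod_cast hM
  set a : ℝ := Real.pi / (2 * M) with ha
  refine ⟨fun j => if j ≤ M then 6 / M ^ 2 * (M - j) * Real.cos (j * a) else 0, fun j => ?_,
    fun θ => ?_⟩
  · dsimp only
    split_ifs with h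
    · have h2 : (j : ℝ) ≤ M := by exact_mod_cast h
      have h3 : (0 : ℝ) ≤ j := Nat.cast_nonneg j
      rw [abs_mul, abs_of_nonneg (mul_nonneg (by positivity) (by linarith))]
      refine (mul_le_of_le_one_right (mul_nonneg (by positivity) (by linarith))
        (Real.abs_cos_le_one _)).trans ?_
      refine (mul_le_mul_of_nonneg_left (show (M : ℝ) - j ≤ M by linarith)
        (by positivity)).trans_eq ?_
      field_simp
    · rw [abs_zero]; positivity
  · have hx : 0 ≤ 2 - 2 * Real.cos θ := by linarith [Real.cos_le_one θ]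
    have hMa : M * a = Real.pi / 2 := by rw [ha]; field_simp
    have ha2 : (M : ℝ) ^ 2 * a ^ 2 ≤ 3 := by
      rw [← mul_pow, hMa]
      nlinarith [Real.pi_lt_d2, Real.pi_pos]
    have p1 := fej_L3 M (θ + a)
    have p2 := fej_L3 M (θ + -a)
    have n1 := fej_nonneg_L3 M (θ + a)
    have n2 := fej_nonneg_L3 M (θ + -a)
    have t1 := tri_L3 θ a
    have t2 := tri_L3 θ (-a)
    rw [neg_sq] at t2
    rw [mul_add (M : ℝ) θ, hMa, Real.cos_add_pi_div_two] at p1
    rw [mul_add (M : ℝ) θ, mul_neg, hMa, ← sub_eq_add_neg (M * θ), Real.cos_sub_pi_div_two] at p2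
    have e : ∑ j ∈ Icc 1 M, (if j ≤ M then 6 / (M : ℝ) ^ 2 * (M - j) * Real.cos (j * a) else 0) *
        Real.cos (j * θ) = 3 / (M : ℝ) ^ 2 *
        (∑ j ∈ Icc 1 M, ((M : ℝ) - j) * Real.cos (j * (θ + a)) +
          ∑ j ∈ Icc 1 M, ((M : ℝ) - j) * Real.cos (j * (θ + -a))) := by
      rw [← sum_add_distrib, mul_sum]
      refine sum_congr rfl fun j hj => ?_
      rw [if_pos (mem_Icc.1 hj).2, mul_add (j : ℝ) θ, mul_add (j : ℝ) θ, mul_neg, Real.cos_add,
        Real.cos_add, Real.cos_neg, Real.sin_neg]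
      ring
    rw [e]
    generalize ∑ j ∈ Icc 1 M, ((M : ℝ) - j) * Real.cos (j * (θ + a)) = A at *
    generalize ∑ j ∈ Icc 1 M, ((M : ℝ) - j) * Real.cos (j * (θ + -a)) = B at *
    generalize 2 - 2 * Real.cos (θ + a) = y1 at *
    generalize 2 - 2 * Real.cos (θ + -a) = y2 at *
    generalize 2 - 2 * Real.cos θ = x at *
    have k1 := mul_le_mul_of_nonneg_right t1 n1
    have k2 := mul_le_mul_of_nonneg_right t2 n2
    have k3 : 2 ≤ (x + a ^ 2) * (2 * (M + A + B)) := by nlinarith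
    have n3 : 0 ≤ M + A + B := by linarith
    have e2 : 3 / (M : ℝ) + 3 / (M : ℝ) ^ 2 * (A + B) = 3 * (M + A + B) / M ^ 2 := by
      field_simp
      ring
    rw [e2, div_le_div_iff₀ (by positivity) (by positivity)]
    generalize (M : ℝ) + A + B = S at *
    have k4 := mul_le_mul_of_nonneg_left k3 (sq_nonneg (M : ℝ))
    have k5 := mul_le_mul_of_nonneg_right ha2 n3
    have k6 : 0 ≤ (M : ℝ) ^ 2 * x * S := by positivity
    nlinarith

theorem nn_major {M : ℕ} (hM : 1 ≤ M) {s : ℝ} (hs : 0 < s) (hMs : M * s ≤ 1) (φ : ℝ) :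
    ∃ η : ℕ → ℂ, (∀ j, M < j → η j = 0) ∧ (∀ j, ‖η j‖ ≤ 6) ∧ ∑ j ∈ Icc 1 M, ‖η j‖ / j ≤ 6 ∧
      ∀ (n : ℕ) (θ : Fin n → ℝ), NN s φ θ ≤ 3 * n / M + ‖lf M η (ps θ)‖ := by
  have hM0 : (0 : ℝ) < M := by exact_mod_cast hM
  obtain ⟨c, hc, h⟩ := fejer hM
  have hb : ∀ j : ℕ, ‖((j * c j * Real.cos (j * φ) : ℝ) : ℂ)‖ ≤ j * (6 / M) := fun j => by
    rw [norm_real, Real.norm_eq_abs, abs_mul, abs_mul, Nat.abs_cast]
    exact (mul_le_of_le_one_right (by positivity) (Real.abs_cos_le_one _)).trans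
      (mul_le_mul_of_nonneg_left (hc j) (Nat.cast_nonneg j))
  have hk : ∀ t : ℝ, kk s t ≤ 3 / M + ∑ j ∈ Icc 1 M, c j * Real.cos (j * t) := fun t => by
    refine le_trans ?_ (h t)
    have hx : 0 ≤ 2 - 2 * Real.cos t := by linarith [Real.cos_le_one t]
    have h1 : (M * s) ^ 2 ≤ 1 := pow_le_one₀ (by positivity) hMs
    rw [kk, div_le_div_iff₀ (by positivity) (by positivity)]
    nlinarith [mul_le_mul_of_nonneg_right h1 hx]
  refine ⟨fun j => if j ≤ M then ((j * c j * Real.cos (j * φ) : ℝ) : ℂ) else 0,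
    fun j hj => if_neg (not_le.2 hj), fun j => ?_, ?_, fun n θ => ?_⟩
  · dsimp only
    split_ifs with hj
    · have h2 : (j : ℝ) ≤ M := by exact_mod_cast hj
      refine (hb j).trans ((mul_le_mul_of_nonneg_right h2 (by positivity)).trans_eq ?_)
      field_simp
    · rw [norm_zero]; norm_num
  · refine (sum_le_card_nsmul _ _ (6 / (M : ℝ)) fun j hj => ?_).trans_eq ?_
    · have hj0 : (0 : ℝ) < j := by exact_mod_cast (mem_Icc.1 hj).1
      dsimp only
      rw [if_pos (mem_Icc.1 hj).2, div_le_iff₀ hj0, mul_comm (6 / (M : ℝ))]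
      exact hb j
    · rw [Nat.card_Icc, nsmul_eq_mul, Nat.add_sub_cancel]
      field_simp
  · have e : lf M (fun j => if j ≤ M then ((j * c j * Real.cos (j * φ) : ℝ) : ℂ) else 0) (ps θ) =
        ((∑ j ∈ Icc 1 M, c j * Real.cos (j * φ) * ∑ i, Real.cos (j * θ i) : ℝ) : ℂ) := by
      rw [lf, ofReal_sum]
      refine sum_congr rfl fun j hj => ?_
      have hj0 : (j : ℂ) ≠ 0 := by
        have := (mem_Icc.1 hj).1
        exact_mod_cast (by omega : j ≠ 0)
      rw [if_pos (mem_Icc.1 hj).2, ps, ofReal_mul, ofReal_mul, ofReal_mul, ofReal_mul,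
        ofReal_natCast]
      field_simp
    rw [e, norm_real, Real.norm_eq_abs]
    refine le_trans ?_ (add_le_add_right (le_abs_self _) _)
    have e2 : 3 * (n : ℝ) / M + ∑ j ∈ Icc 1 M, c j * Real.cos (j * φ) * ∑ i, Real.cos (j * θ i) =
        ∑ i : Fin n, (3 / (M : ℝ) +
          ∑ j ∈ Icc 1 M, c j * Real.cos (j * φ) * Real.cos (j * θ i)) := by
      rw [sum_add_distrib, sum_comm, sum_const, card_univ, Fintype.card_fin, nsmul_eq_mul]
      simp only [mul_sum]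
      rw [sum_comm]
      ring
    rw [e2, NN]
    refine sum_le_sum fun i _ => ?_
    have e3 : ∑ j ∈ Icc 1 M, c j * Real.cos (j * (θ i + φ)) +
        ∑ j ∈ Icc 1 M, c j * Real.cos (j * (θ i - φ)) =
        2 * ∑ j ∈ Icc 1 M, c j * Real.cos (j * φ) * Real.cos (j * θ i) := by
      rw [← sum_add_distrib, mul_sum]
      refine sum_congr rfl fun j _ => ?_
      rw [mul_add (j : ℝ), mul_sub (j : ℝ), Real.cos_add, Real.cos_sub]
      ring
    linarith [hk (θ i + φ), hk (θ i - φ)]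

end Pool.Agent.MP_dd7250_nt.LS

end

section

/- Ratios with the exponent two: an a priori bound for the mean square of a ratio. -/

set_option autoImplicit false
set_option maxHeartbeats 400000

namespace Pool.Agent.MP_dd7250_nt.SH

open Finset Complex Filter Topology Pool.Agent.MP_dd7250_nt.LS

theorem inv_le {J : ℝ} (hJ : 0 < J) {Y : ℕ} (hY : J ≤ Y) {v : ℂ} (hv : ‖v‖ < 1) {t c : ℝ}
    (ht : ∀ j : ℕ, (v ^ j).re = ‖v‖ ^ j * Real.cos (j * t))
    (hc : ∀ Z : ℕ, ∑ j ∈ Icc 1 Z, (1 - psi J j) / j * ‖v‖ ^ j * Real.cos (j * t) ≤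
      c + ‖v‖ ^ Z / (1 - ‖v‖)) :
    1 ≤ ‖1 - v‖ * Real.exp ((∑ j ∈ Icc 1 Y, (psi J j : ℂ) * v ^ j / j).re + c) := by
  obtain ⟨h0, h1⟩ := lim_ZL hv
  have h2 := h1.norm
  have h3 : Tendsto (fun Z : ℕ => Real.exp ((∑ j ∈ Icc 1 Y, (psi J j : ℂ) * v ^ j / j).re + c +
      ‖v‖ ^ Z / (1 - ‖v‖))) atTop
      (𝓝 (Real.exp ((∑ j ∈ Icc 1 Y, (psi J j : ℂ) * v ^ j / j).re + c + 0 / (1 - ‖v‖)))) :=
    (Real.continuous_exp.tendsto _).comp
      (((tendsto_pow_atTop_nhds_zero_of_lt_one (norm_nonneg v) hv).div_const _).const_add _)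
  rw [zero_div, add_zero] at h3
  have h4 := le_of_tendsto_of_tendsto h2 h3 (eventually_atTop.2 ⟨Y, fun Z hZ => by
    dsimp only
    rw [norm_exp]
    refine Real.exp_le_exp.2 ?_
    have e1 : ∑ j ∈ Icc 1 Y, (psi J j : ℂ) * v ^ j / j =
        ∑ j ∈ Icc 1 Z, (psi J j : ℂ) * v ^ j / j :=
      sum_subset (Icc_subset_Icc_right hZ) fun j h5 h6 => by
        have h7 : Y ≤ j := by
          rw [mem_Icc] at h5 h6
          omega
        rw [psi_eq_zero hJ (hY.trans (by exact_mod_cast h7))]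
        simp
    have e2 : (∑ j ∈ Icc 1 Z, 1 * v ^ j / (j : ℂ)).re =
        (∑ j ∈ Icc 1 Z, (psi J j : ℂ) * v ^ j / j).re +
          ∑ j ∈ Icc 1 Z, (1 - psi J j) / j * ‖v‖ ^ j * Real.cos (j * t) := by
      rw [re_sum, re_sum, ← sum_add_distrib]
      refine sum_congr rfl fun j _ => ?_
      rw [div_natCast_re, div_natCast_re, re_ofReal_mul, one_mul, ht]
      ring
    rw [e1, e2]
    linarith [hc Z]⟩)
  rw [norm_inv] at h4
  have h5 := norm_pos_iff.2 h0
  rwa [inv_le_iff_one_le_mul₀' h5] at h4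

theorem re_pow (y : ℂ) (t : ℝ) (j : ℕ) :
    ((y * exp (t * I)) ^ j).re = ‖y * exp (t * I)‖ ^ j * Real.cos (j * (t + y.arg)) := by
  rw [norm_ZL]
  conv_lhs => rw [← norm_mul_exp_arg_mul_I y, mul_assoc, ← exp_add, mul_pow, ← exp_nat_mul,
    ← ofReal_pow, re_ofReal_mul, ← add_mul, ← mul_assoc, ← ofReal_add, ← ofReal_natCast,
    ← ofReal_mul, exp_ofReal_mul_I_re, add_comm]

theorem pow_sub_le {x y : ℂ} (hx : ‖x‖ ≤ 1) (hy : ‖y‖ ≤ 1) (j : ℕ) :
    ‖y ^ j - x ^ j‖ ≤ j * ‖x - y‖ := by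
  induction j with
  | zero => simp
  | succ j ih =>
    rw [show y ^ (j + 1) - x ^ (j + 1) = y * (y ^ j - x ^ j) - x ^ j * (x - y) by ring]
    refine (norm_sub_le _ _).trans ?_
    rw [norm_mul, norm_mul, norm_pow]
    have h1 := mul_le_of_le_one_left (norm_nonneg (y ^ j - x ^ j)) hy
    have h2 := mul_le_of_le_one_left (norm_nonneg (x - y)) (pow_le_one₀ (n := j) (norm_nonneg x) hx)
    push_cast
    linarith

theorem pow_sub_two {x y : ℂ} (hx : ‖x‖ ≤ 1) (hy : ‖y‖ ≤ 1) (j : ℕ) : ‖y ^ j - x ^ j‖ ≤ 2 := by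
  refine (norm_sub_le _ _).trans ?_
  rw [norm_pow, norm_pow]
  linarith [pow_le_one₀ (n := j) (norm_nonneg x) hx, pow_le_one₀ (n := j) (norm_nonneg y) hy]

theorem sum_pow_sub {x y : ℂ} (hx : ‖x‖ ≤ 1) (hy : ‖y‖ ≤ 1) (N : ℕ) :
    ∑ j ∈ Icc 1 N, ‖y ^ j - x ^ j‖ / j ≤ 4 * Real.log (1 + ‖x - y‖ * N / 2) := by
  have hA := norm_nonneg (x - y)
  induction N with
  | zero => simp
  | succ N ih =>
    rw [sum_Icc_succ_top (by omega)]
    have h1 := pow_sub_le hx hy (N + 1)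
    have h2 := pow_sub_two hx hy (N + 1)
    generalize ‖y ^ (N + 1) - x ^ (N + 1)‖ = u at *
    generalize ‖x - y‖ = A at *
    push_cast at *
    have hN : (0 : ℝ) ≤ N := Nat.cast_nonneg N
    have h3 : 0 < 1 + A * N / 2 := by positivity
    have h4 : 0 < 1 + A * (N + 1) / 2 := by positivity
    have h5 := Real.log_le_sub_one_of_pos (div_pos h3 h4)
    rw [Real.log_div h3.ne' h4.ne'] at h5
    have h6 : (1 + A * N / 2) / (1 + A * (N + 1) / 2) - 1 = -(A / 2 / (1 + A * (N + 1) / 2)) := by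
      field_simp
      ring
    have h7 : u / (N + 1) ≤ 4 * (A / 2 / (1 + A * (N + 1) / 2)) := by
      rw [← mul_div_assoc, div_le_div_iff₀ (by positivity) h4]
      nlinarith [mul_nonneg hA hN, mul_le_mul_of_nonneg_right h2 (show 0 ≤ A * (N + 1) by positivity)]
    linarith

theorem one_zero {x y : ℂ} {b M : ℝ} {J : ℕ} (hJ : 1 ≤ J) (hx : ‖x‖ ≤ 1) (hb : 0 < b)
    (hy : ‖y‖ ≤ 1 - b) (hM : 0 ≤ M) (hxy : ‖x - y‖ ≤ M * b) (hJb : J * b ≤ 1) (t : ℝ) :
    ‖1 - x * exp (t * I)‖ ≤ ‖1 - y * exp (t * I)‖ *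
      Real.exp ((∑ j ∈ Icc 1 J, (psi J j : ℂ) * (y * exp (t * I)) ^ j / j).re -
        (∑ j ∈ Icc 1 J, (psi J j : ℂ) * (x * exp (t * I)) ^ j / j).re + 1 / J +
        (12 + 10 * Real.log (1 + M)) / (J * max (1 / (J : ℝ)) (1 - ‖y‖)) *
          kk (max (1 / J) (1 - ‖y‖)) (t + y.arg)) := by
  have hJ0 : (0 : ℝ) < J := by exact_mod_cast hJ
  have hl : 0 ≤ Real.log (1 + M) := Real.log_nonneg (by linarith)
  have ny := norm_ZL y t
  have nx := norm_ZL x t
  have hy1 : ‖y‖ < 1 := by linarith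
  have hB : ∀ c : ℝ, (∀ Z : ℕ, ∑ j ∈ Icc 1 Z, (1 - psi J j) / j * ‖y‖ ^ j *
      Real.cos (j * (t + y.arg)) ≤ c + ‖y‖ ^ Z / (1 - ‖y‖)) →
      ‖1 - x * exp (t * I)‖ ≤ ‖1 - y * exp (t * I)‖ *
      Real.exp ((∑ j ∈ Icc 1 J, (psi J j : ℂ) * (y * exp (t * I)) ^ j / j).re -
        (∑ j ∈ Icc 1 J, (psi J j : ℂ) * (x * exp (t * I)) ^ j / j).re + 1 / J + c) := by
    intro c hc
    have h1 := inv_le hJ0 le_rfl (ny.trans_lt hy1) (re_pow y t) (by rw [ny]; exact hc)
    have h2 := low_bound hJ0 le_rfl (nx.trans_le hx)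
    generalize (∑ j ∈ Icc 1 J, (psi J j : ℂ) * (y * exp (t * I)) ^ j / j).re = S at *
    generalize (∑ j ∈ Icc 1 J, (psi J j : ℂ) * (x * exp (t * I)) ^ j / j).re = T at *
    rw [← le_div_iff₀ (Real.exp_pos _), ← Real.exp_sub] at h2
    refine h2.trans ((le_mul_of_one_le_left (Real.exp_pos _).le h1).trans_eq ?_)
    rw [mul_assoc, ← Real.exp_add]
    congr 2
    ring
  have hk0 := kk_nonneg (max (1 / J) (1 - ‖y‖)) (t + y.arg)
  rcases le_total (1 / (J : ℝ)) (1 - ‖y‖) with h | h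
  · rw [max_eq_right h] at hk0 ⊢
    have h0 : 0 < 1 - ‖y‖ := by linarith
    have h1 : 1 ≤ J * (1 - ‖y‖) := by rwa [div_le_iff₀' hJ0] at h
    refine (hB _ fun Z => one_ZL hJ0 (norm_nonneg y) hy1 h0 _ Z).trans ?_
    gcongr
    have e : 2 / (J * (1 - ‖y‖)) + (4 * (1 - ‖y‖) / J + 2 / J ^ 2) / (1 - ‖y‖) ^ 2 =
        (6 + 2 / (J * (1 - ‖y‖))) / (J * (1 - ‖y‖)) := by
      field_simp
      ring
    have h2 : 2 / (J * (1 - ‖y‖)) ≤ 2 := div_le_self zero_le_two h1
    rw [e]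
    exact div_le_div_of_nonneg_right (by linarith) (by linarith)
  · rw [max_eq_left h] at hk0 ⊢
    rw [mul_one_div_cancel hJ0.ne', div_one]
    have hs : 0 < (1 / (J : ℝ)) ^ 2 := by positivity
    have hT : 0 ≤ 2 - 2 * Real.cos (t + y.arg) := by linarith [Real.cos_le_one (t + y.arg)]
    rcases le_total (2 - 2 * Real.cos (t + y.arg)) ((1 / (J : ℝ)) ^ 2) with h1 | h1
    · have h2 : 1 / 2 ≤ kk (1 / J) (t + y.arg) := by
        rw [kk, le_div_iff₀ (by linarith)]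
        linarith
      have h3 : b ≤ ‖1 - y * exp (t * I)‖ := by
        have := norm_sub_norm_le 1 (y * exp (t * I))
        rw [norm_one, ny] at this
        linarith
      have h4 : ‖1 - x * exp (t * I)‖ ≤ ‖1 - y * exp (t * I)‖ * (1 + M) := by
        have h5 := norm_sub_le (1 - y * exp (t * I)) ((x - y) * exp (t * I))
        rw [norm_ZL, show 1 - y * exp (t * I) - (x - y) * exp (t * I) = 1 - x * exp (t * I) by
          ring] at h5
        nlinarith
      have h5 : ‖∑ j ∈ Icc 1 J, (psi J j : ℂ) * (y * exp (t * I)) ^ j / j -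
          ∑ j ∈ Icc 1 J, (psi J j : ℂ) * (x * exp (t * I)) ^ j / j‖ ≤ 4 * Real.log (1 + M) := by
        rw [← sum_sub_distrib]
        refine (norm_sum_le _ _).trans ((sum_le_sum fun j _ => ?_).trans
          ((sum_pow_sub hx hy1.le J).trans ?_))
        · rw [← sub_div, ← mul_sub, mul_pow, mul_pow, ← sub_mul, norm_div, norm_mul, norm_mul,
            norm_pow, norm_exp_ofReal_mul_I, one_pow, mul_one, Complex.norm_natCast, norm_real,
            Real.norm_of_nonneg (psi_nonneg _ _)]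
          exact div_le_div_of_nonneg_right
            (mul_le_of_le_one_left (norm_nonneg _) (psi_le_one hJ0 j)) (Nat.cast_nonneg j)
        · have h6 : ‖x - y‖ * J ≤ M := by nlinarith [mul_le_mul_of_nonneg_right hxy hJ0.le]
          have h7 : 0 ≤ ‖x - y‖ * J := by positivity
          gcongr
          linarith
      have h6 := (abs_le.1 ((abs_re_le_norm _).trans h5)).1
      rw [sub_re] at h6
      refine h4.trans (mul_le_mul_of_nonneg_left ?_ (norm_nonneg _))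
      rw [← Real.exp_log (show 0 < 1 + M by linarith)]
      refine Real.exp_le_exp.2 ?_
      rw [Real.exp_log (show 0 < 1 + M by linarith)]
      have h7 : 0 < 1 / (J : ℝ) := by positivity
      nlinarith
    · have h2 : 0 < 2 - 2 * Real.cos (t + y.arg) := hs.trans_le h1
      refine (hB (12 * kk (1 / J) (t + y.arg)) fun Z => ?_).trans ?_
      · have h3 := high_bound hJ0 (norm_nonneg y) hy1 0 (t + y.arg) Z
        rw [zero_pow two_ne_zero, zero_mul, zero_add, zero_add, mul_comm, ← le_div_iff₀ h2] at h3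
        have h4 : 4 * (1 - ‖y‖) / J + 2 / J ^ 2 ≤ 6 * (1 / (J : ℝ)) ^ 2 := by
          have h5 : 4 * (1 - ‖y‖) / J ≤ 4 * (1 / J) / J := by gcongr
          have h6 : 6 * (1 / (J : ℝ)) ^ 2 = 4 * (1 / J) / J + 2 / J ^ 2 := by
            field_simp
            ring
          linarith
        have h5 : (4 * (1 - ‖y‖) / J + 2 / J ^ 2) / (2 - 2 * Real.cos (t + y.arg)) ≤
            12 * kk (1 / J) (t + y.arg) := by
          refine (div_le_div_of_nonneg_right h4 hT).trans ?_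
          rw [kk, ← mul_div_assoc, div_le_div_iff₀ h2 (by linarith)]
          nlinarith
        linarith
      · gcongr
        linarith

theorem all_zeros {x y : ℂ} {b M : ℝ} {J : ℕ} (hJ : 1 ≤ J) (hx : ‖x‖ ≤ 1) (hb : 0 < b)
    (hy : ‖y‖ ≤ 1 - b) (hM : 0 ≤ M) (hxy : ‖x - y‖ ≤ M * b) (hJb : J * b ≤ 1) :
    ∃ (η η' : ℕ → ℂ) (N : ℕ), N ≤ J ∧ (∀ j, J < j → η j = 0) ∧
      (∀ j, ‖η j‖ ≤ 4 * (1 + Real.log (1 + M))) ∧
      ∑ j ∈ Icc 1 J, ‖η j‖ / j ≤ 4 * (1 + Real.log (1 + M)) ∧ (∀ j, N < j → η' j = 0) ∧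
      (∀ j, ‖η' j‖ ≤ 6) ∧ ∑ j ∈ Icc 1 N, ‖η' j‖ / j ≤ 6 ∧ ∀ (n : ℕ) (θ : Fin n → ℝ), Cj θ →
      ‖Lam θ x‖ ≤ ‖Lam θ y‖ * Real.exp (145 * (1 + Real.log (1 + M)) * n / J +
        ‖lf J η (ps θ)‖ + 24 * (1 + Real.log (1 + M)) * ‖lf N η' (ps θ)‖) := by
  have hJ0 : (0 : ℝ) < J := by exact_mod_cast hJ
  have hJ1 : (1 : ℝ) ≤ J := by exact_mod_cast hJ
  have hl : 0 ≤ Real.log (1 + M) := Real.log_nonneg (by linarith)
  have hy1 : ‖y‖ ≤ 1 := by linarith
  obtain ⟨s, hs⟩ : ∃ s : ℝ, s = max (1 / (J : ℝ)) (1 - ‖y‖) := ⟨_, rfl⟩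
  have s1 : 1 / (J : ℝ) ≤ s := hs ▸ le_max_left _ _
  have s0 : 0 < s := lt_of_lt_of_le (by positivity) s1
  have s2 : s ≤ 1 := hs ▸ max_le (div_le_self zero_le_one hJ1) (by linarith [norm_nonneg y])
  have s3 : 1 ≤ J * s := by rwa [div_le_iff₀' hJ0] at s1
  have s4 : 1 ≤ 1 / s := (one_le_div s0).2 s2
  have N1 : 1 ≤ ⌊1 / s⌋₊ := Nat.floor_pos.2 s4
  have N2 : (⌊1 / s⌋₊ : ℝ) ≤ 1 / s := Nat.floor_le (by positivity)
  have N3 : 1 / s < ⌊1 / s⌋₊ + 1 := Nat.lt_floor_add_one _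
  generalize ⌊1 / s⌋₊ = N at *
  have N4 : (1 : ℝ) ≤ N := by exact_mod_cast N1
  have N5 : N * s ≤ 1 := by rwa [le_div_iff₀ s0] at N2
  have N6 : 1 ≤ 2 * N * s := by
    rw [div_lt_iff₀ s0] at N3
    nlinarith
  obtain ⟨η', e1, e2, e3, e4⟩ := nn_major N1 s0 N5 y.arg
  have hη : ∀ j, ‖(psi J j : ℂ) * (y ^ j - x ^ j)‖ ≤ ‖y ^ j - x ^ j‖ := fun j => by
    rw [norm_mul, norm_real, Real.norm_of_nonneg (psi_nonneg _ _)]
    exact mul_le_of_le_one_left (norm_nonneg _) (psi_le_one hJ0 j)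
  refine ⟨fun j => (psi J j : ℂ) * (y ^ j - x ^ j), η', N, ?_, fun j hj => ?_, fun j => ?_, ?_,
    e1, e2, e3, fun n θ h => ?_⟩
  · have : (N : ℝ) ≤ J := by nlinarith
    exact_mod_cast this
  · dsimp only
    rw [psi_eq_zero hJ0 (by exact_mod_cast hj.le)]
    simp
  · linarith [hη j, pow_sub_two hx hy1 j]
  · refine (sum_le_sum fun j _ => div_le_div_of_nonneg_right (hη j) (Nat.cast_nonneg j)).trans
      ((sum_pow_sub hx hy1 J).trans ?_)
    have h6 : ‖x - y‖ * J ≤ M := by nlinarith [mul_le_mul_of_nonneg_right hxy hJ0.le]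
    have h7 : 0 ≤ ‖x - y‖ * J := by positivity
    have h8 : Real.log (1 + ‖x - y‖ * J / 2) ≤ Real.log (1 + M) :=
      Real.log_le_log (by positivity) (by linarith)
    linarith
  · rw [Lam, Lam, norm_prod, norm_prod]
    refine (prod_le_prod (fun i _ => norm_nonneg _) fun i _ =>
      one_zero hJ hx hb hy hM hxy hJb (θ i)).trans ?_
    rw [prod_mul_distrib, ← Real.exp_sum, ← hs]
    refine mul_le_mul_of_nonneg_left (Real.exp_le_exp.2 ?_) (prod_nonneg fun i _ => norm_nonneg _)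
    rw [sum_add_distrib, sum_add_distrib, sum_sub_distrib, ← re_sum, ← re_sum, ← lf_ZL h,
      ← lf_ZL h, ← mul_sum, sum_const, card_univ, Fintype.card_fin, nsmul_eq_mul, ← sub_re]
    have f1 : lf J (fun j => (psi J j : ℂ) * y ^ j) (ps θ) -
        lf J (fun j => (psi J j : ℂ) * x ^ j) (ps θ) =
        lf J (fun j => (psi J j : ℂ) * (y ^ j - x ^ j)) (ps θ) := by
      simp only [lf, ← sum_sub_distrib]
      exact sum_congr rfl fun j _ => by ring
    have f2 : ∑ i, kk s (θ i + y.arg) ≤ 2 * NN s y.arg θ := by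
      rw [NN, mul_sum]
      exact sum_le_sum fun i _ => by linarith [kk_nonneg s (θ i - y.arg)]
    have f3 : 3 * (n : ℝ) / N ≤ 6 * n * s := by
      rw [div_le_iff₀ (by linarith)]
      nlinarith [mul_le_mul_of_nonneg_left N6 (Nat.cast_nonneg (α := ℝ) n)]
    have f4 := e4 n θ
    have f5 := re_le_norm (lf J (fun j => (psi J j : ℂ) * (y ^ j - x ^ j)) (ps θ))
    rw [f1]
    generalize lf J (fun j => (psi J j : ℂ) * (y ^ j - x ^ j)) (ps θ) = T at *
    have f6 := norm_nonneg (lf N η' (ps θ))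
    generalize ‖lf N η' (ps θ)‖ = T' at *
    generalize Real.log (1 + M) = l at *
    have f7 : (12 + 10 * l) / (J * s) * ∑ i, kk s (θ i + y.arg) ≤
        (12 + 12 * l) / (J * s) * (12 * n * s + 2 * T') := by
      gcongr
      · exact sum_nonneg fun i _ => kk_nonneg _ _
      · norm_num
      · linarith
    have f8 : (12 + 12 * l) / (J * s) * (12 * n * s + 2 * T') =
        144 * (1 + l) * n / J + 24 * (1 + l) * T' / (J * s) := by
      field_simp
      ring
    have f9 : 24 * (1 + l) * T' / (J * s) ≤ 24 * (1 + l) * T' := div_le_self (by positivity) s3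
    have f10 : 145 * (1 + l) * n / J = 144 * (1 + l) * n / J + n * (1 / J) + l * n / J := by ring
    have f11 : 0 ≤ l * n / J := by positivity
    linarith

theorem tail {x y : ℂ} {b M : ℝ} (hx : ‖x‖ ≤ 1) (hb : 0 < b) (hy : ‖y‖ ≤ 1 - b) (hM : 0 ≤ M)
    (hxy : ‖x - y‖ ≤ M * b) {ι : Type} {g : ℕ} {I : Finset ι} {θ : ι → Fin (2 * g) → ℝ}
    (h : Ens g I θ) {k : ℕ} (h1 : 1 ≤ k) (h2 : k ≤ g) (h3 : g * b ≤ k) :
    ∑ i ∈ I, (if Real.exp (1200 * (1 + Real.log (1 + M)) * k) ≤ ‖Lam (θ i) x / Lam (θ i) y‖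
      then (1 : ℝ) else 0) ≤ I.card * (2 * (25 / k) ^ k) := by
  have hl : 0 ≤ Real.log (1 + M) := Real.log_nonneg (by linarith)
  have k0 : (0 : ℝ) < k := by exact_mod_cast h1
  have J1 : 1 ≤ g / k := (Nat.le_div_iff_mul_le h1).2 (by omega)
  have J2 : k * (g / k) ≤ g := Nat.mul_div_le g k
  have J3 : g < k * (g / k + 1) := Nat.lt_mul_div_succ g h1
  generalize g / k = J at *
  have J0 : (1 : ℝ) ≤ J := by exact_mod_cast J1
  have J4 : (k : ℝ) * J ≤ g := by exact_mod_cast J2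
  have J5 : (g : ℝ) ≤ k * (J + 1) := by exact_mod_cast J3.le
  obtain ⟨η, η', N, hN, a1, a2, a3, b1, b2, b3, hp⟩ := all_zeros J1 hx hb hy hM hxy (by
    refine le_of_mul_le_mul_left ?_ k0
    nlinarith [mul_le_mul_of_nonneg_right J4 hb.le])
  have m1 := h.mom J J k η _ h1 J2 a1 a2 a3
  have m2 := h.mom N N k η' _ h1 ((Nat.mul_le_mul_left k hN).trans J2) b1 b2 b3
  generalize Real.log (1 + M) = l at *
  have hpt : ∀ i ∈ I, (if Real.exp (1200 * (1 + l) * k) ≤ ‖Lam (θ i) x / Lam (θ i) y‖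
      then (1 : ℝ) else 0) ≤ (1 / (300 * (1 + l) * k)) ^ (2 * k) * ‖lf J η (ps (θ i))‖ ^ (2 * k) +
        (1 / (12 * k)) ^ (2 * k) * ‖lf N η' (ps (θ i))‖ ^ (2 * k) := by
    intro i hi
    split_ifs with h4
    · have h5 := hp _ _ (h.sym i hi)
      rw [norm_div] at h4
      have h6 := Real.exp_le_exp.1 (h4.trans (div_le_of_le_mul₀ (norm_nonneg _) (Real.exp_pos _).le
        (h5.trans_eq (mul_comm _ _))))
      have h7 : 145 * (1 + l) * ((2 * g : ℕ) : ℝ) / J ≤ 600 * (1 + l) * k := by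
        rw [div_le_iff₀ (by linarith)]
        push_cast
        have : (g : ℝ) ≤ 2 * k * J := by nlinarith
        nlinarith [mul_le_mul_of_nonneg_left this (show 0 ≤ 1 + l by linarith),
          mul_nonneg (mul_nonneg (show 0 ≤ 1 + l by linarith) k0.le) (show 0 ≤ (J : ℝ) by linarith)]
      rw [← mul_pow, ← mul_pow]
      rcases le_total (300 * (1 + l) * k) ‖lf J η (ps (θ i))‖ with h8 | h8
      · refine le_add_of_le_of_nonneg (one_le_pow₀ ?_) (by positivity)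
        rwa [one_div_mul_eq_div, one_le_div (by positivity)]
      · refine le_add_of_nonneg_of_le (by positivity) (one_le_pow₀ ?_)
        rw [one_div_mul_eq_div, one_le_div (by positivity)]
        refine le_of_mul_le_mul_left ?_ (show 0 < 24 * (1 + l) by positivity)
        nlinarith [mul_nonneg (show 0 ≤ 1 + l by linarith) k0.le]
    · positivity
  refine (sum_le_sum hpt).trans ?_
  rw [sum_add_distrib, ← mul_sum, ← mul_sum]
  refine (add_le_add (mul_le_mul_of_nonneg_left m1 (by positivity))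
    (mul_le_mul_of_nonneg_left m2 (by positivity))).trans ?_
  rw [mul_left_comm, mul_left_comm _ (I.card : ℝ), ← mul_add, pow_mul, pow_mul, ← mul_pow,
    ← mul_pow, two_mul ((25 / (k : ℝ)) ^ k)]
  gcongr
  · have e : (1 / (300 * (1 + l) * k)) ^ 2 * (100 * (4 * (1 + l)) ^ 2 * k) = 4 / 225 / k := by
      field_simp
      ring
    rw [e]
    gcongr
    norm_num
  · refine le_of_eq ?_
    field_simp
    ring

theorem geo (a b : ℕ) : ∑ V ∈ Icc a b, Real.exp (-(V : ℝ)) ≤ 2 := by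
  have h1 : ∀ V : ℕ, Real.exp (-(V : ℝ)) ≤ (1 / 2) ^ V := by
    intro V
    rw [← mul_neg_one, Real.exp_nat_mul]
    refine pow_le_pow_left₀ (Real.exp_pos _).le ?_ V
    rw [Real.exp_neg, one_div]
    exact inv_anti₀ (by norm_num) (by linarith [Real.add_one_le_exp (1 : ℝ)])
  refine (sum_le_sum fun V _ => h1 V).trans ?_
  exact (summable_geometric_two.sum_le_tsum _ fun _ _ => by positivity).trans_eq
    tsum_geometric_two

theorem crude {x y : ℂ} {b M : ℝ} (hb : 0 < b) (hy : ‖y‖ ≤ 1 - b) (hM : 0 ≤ M)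
    (hxy : ‖x - y‖ ≤ M * b) {n : ℕ} (θ : Fin n → ℝ) : ‖Lam θ x / Lam θ y‖ ≤ (1 + M) ^ n := by
  rw [Lam, Lam, ← prod_div_distrib, norm_prod]
  refine (prod_le_prod (fun i _ => norm_nonneg _) (g := fun _ => 1 + M) fun i _ => ?_).trans_eq
    (by simp)
  have h3 : b ≤ ‖1 - y * exp (θ i * I)‖ := by
    have := norm_sub_norm_le 1 (y * exp (θ i * I))
    rw [norm_one, norm_ZL] at this
    linarith
  have h5 := norm_sub_le (1 - y * exp (θ i * I)) ((x - y) * exp (θ i * I))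
  rw [norm_ZL, show 1 - y * exp (θ i * I) - (x - y) * exp (θ i * I) = 1 - x * exp (θ i * I) by
    ring] at h5
  rw [norm_div, div_le_iff₀ (hb.trans_le h3)]
  nlinarith

theorem apriori {x y : ℂ} {b M : ℝ} (hx : ‖x‖ ≤ 1) (hb : 0 < b) (hy : ‖y‖ ≤ 1 - b) (hM : 0 ≤ M)
    (hxy : ‖x - y‖ ≤ M * b) {ι : Type} {g : ℕ} {I : Finset ι} {θ : ι → Fin (2 * g) → ℝ}
    (h : Ens g I θ) : ∑ i ∈ I, ‖Lam (θ i) x / Lam (θ i) y‖ ^ 2 ≤ I.card *
      Real.exp (2400 * (1 + Real.log (1 + M)) *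
        (g * b + 100 * Real.exp (2400 * (1 + Real.log (1 + M))))) := by
  have hl : 0 ≤ Real.log (1 + M) := Real.log_nonneg (by linarith)
  have ht := fun k h1 h2 h3 => tail hx hb hy hM hxy h (k := k) h1 h2 h3
  have hc : ∀ i, ‖Lam (θ i) x / Lam (θ i) y‖ ≤ Real.exp (2 * g * Real.log (1 + M)) := fun i => by
    refine (crude hb hy hM hxy (θ i)).trans_eq ?_
    rw [← Real.exp_log (show 0 < 1 + M by linarith), ← Real.exp_nat_mul,
      Real.exp_log (show 0 < 1 + M by linarith)]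
    push_cast
    rfl
  obtain ⟨V, hV⟩ : ∃ V : ℝ, V = 1200 * (1 + Real.log (1 + M)) := ⟨_, rfl⟩
  have V1 : 1200 ≤ V := by linarith
  have V2 : 2400 * (1 + Real.log (1 + M)) = 2 * V := by linarith
  have V3 : 2 * Real.log (1 + M) ≤ V := by linarith
  rw [V2]
  rw [← hV] at ht
  obtain ⟨E, hE⟩ : ∃ E : ℝ, E = Real.exp (2 * V) := ⟨_, rfl⟩
  have E1 : 1 ≤ E := hE ▸ Real.one_le_exp (by linarith)
  rw [← hE]
  have hgb : 0 ≤ g * b := by positivity
  have k1 : g * b + 75 * E ≤ ⌈g * b + 75 * E⌉₊ := Nat.le_ceil _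
  have k2 : (⌈g * b + 75 * E⌉₊ : ℝ) < g * b + 75 * E + 1 := Nat.ceil_lt_add_one (by positivity)
  generalize ⌈g * b + 75 * E⌉₊ = K at *
  have hpt : ∀ i ∈ I, ‖Lam (θ i) x / Lam (θ i) y‖ ^ 2 ≤ Real.exp (2 * V * K) +
      ∑ k ∈ Icc K g, Real.exp (2 * V * (k + 1)) *
        (if Real.exp (V * k) ≤ ‖Lam (θ i) x / Lam (θ i) y‖ then (1 : ℝ) else 0) := by
    intro i _
    have h1 := hc i
    have h0 := norm_nonneg (Lam (θ i) x / Lam (θ i) y)
    generalize ‖Lam (θ i) x / Lam (θ i) y‖ = R at *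
    have hn : ∀ k ∈ Icc K g, 0 ≤ Real.exp (2 * V * (k + 1)) *
        (if Real.exp (V * k) ≤ R then (1 : ℝ) else 0) := fun k _ => by positivity
    have sq : ∀ u : ℝ, R ≤ Real.exp (V * u) → R ^ 2 ≤ Real.exp (2 * V * u) := fun u hu => by
      refine (pow_le_pow_left₀ h0 hu 2).trans_eq ?_
      rw [← Real.exp_nat_mul]
      congr 1
      push_cast
      ring
    rcases le_total R (Real.exp (V * K)) with h2 | h2
    · exact le_add_of_le_of_nonneg (sq _ h2) (sum_nonneg hn)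
    · have R0 : 0 < R := (Real.exp_pos _).trans_le h2
      have V0 : 0 < V := by linarith
      have h3 : (K : ℝ) ≤ Real.log R / V := by
        rw [le_div_iff₀' V0]
        exact (Real.le_log_iff_exp_le R0).2 h2
      have h4 : Real.log R / V ≤ g := by
        rw [div_le_iff₀' V0, Real.log_le_iff_le_exp R0]
        refine h1.trans (Real.exp_le_exp.2 ?_)
        nlinarith [mul_le_mul_of_nonneg_right V3 (Nat.cast_nonneg (α := ℝ) g)]
      have h5 : ⌊Real.log R / V⌋₊ ∈ Icc K g := mem_Icc.2 ⟨Nat.le_floor h3, Nat.floor_le_of_le h4⟩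
      have h6 := Nat.floor_le ((Nat.cast_nonneg K).trans h3)
      have h7 := (Nat.lt_floor_add_one (Real.log R / V)).le
      refine le_add_of_nonneg_of_le (Real.exp_pos _).le (le_trans ?_ (single_le_sum hn h5))
      rw [le_div_iff₀' V0, Real.le_log_iff_exp_le R0] at h6
      rw [div_le_iff₀' V0, Real.log_le_iff_le_exp R0] at h7
      rw [if_pos h6, mul_one]
      exact sq _ h7
  refine (sum_le_sum hpt).trans ?_
  rw [sum_add_distrib, sum_const, nsmul_eq_mul, sum_comm]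
  have h4 : ∑ k ∈ Icc K g, ∑ i ∈ I, Real.exp (2 * V * (k + 1)) *
      (if Real.exp (V * k) ≤ ‖Lam (θ i) x / Lam (θ i) y‖ then (1 : ℝ) else 0) ≤
      I.card * (2 * E * 2) := by
    refine le_trans (b := ∑ k ∈ Icc K g, I.card * (2 * E * Real.exp (-(k : ℝ))))
      (sum_le_sum fun k hk => ?_) ?_
    · have h5 : (K : ℝ) ≤ k := by exact_mod_cast (mem_Icc.1 hk).1
      have h6 : (1 : ℝ) ≤ k := by linarith
      rw [← mul_sum]
      refine (mul_le_mul_of_nonneg_left (ht k (by exact_mod_cast h6) (mem_Icc.1 hk).2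
        (by linarith)) (Real.exp_pos _).le).trans ?_
      rw [mul_left_comm]
      refine mul_le_mul_of_nonneg_left ?_ (Nat.cast_nonneg _)
      have e1 : Real.exp (2 * V * (k + 1)) = E * E ^ k := by
        rw [hE, ← Real.exp_nat_mul, ← Real.exp_add]
        congr 1
        ring
      have e2 : E * (25 / k) ≤ Real.exp (-1) := by
        have h7 : 1 / 3 ≤ Real.exp (-1) := by
          rw [Real.exp_neg, one_div]
          exact inv_anti₀ (Real.exp_pos _) (by linarith [Real.exp_one_lt_d9])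
        refine le_trans ?_ h7
        rw [← mul_div_assoc, div_le_div_iff₀ (by linarith) (by norm_num)]
        linarith
      have e3 := pow_le_pow_left₀ (by positivity) e2 k
      rw [← Real.exp_nat_mul, mul_neg_one, mul_pow] at e3
      rw [e1]
      nlinarith [mul_le_mul_of_nonneg_left e3 (show 0 ≤ 2 * E by linarith)]
    · rw [← mul_sum, ← mul_sum]
      exact mul_le_mul_of_nonneg_left (mul_le_mul_of_nonneg_left (geo _ _) (by linarith))
        (Nat.cast_nonneg _)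
  refine (add_le_add le_rfl h4).trans ?_
  rw [← mul_add]
  refine mul_le_mul_of_nonneg_left ?_ (Nat.cast_nonneg _)
  have h6 : Real.exp (2 * V * K) ≤ Real.exp (2 * V * (g * b + 76 * E)) :=
    Real.exp_le_exp.2 (mul_le_mul_of_nonneg_left (by linarith) (by linarith))
  have h7 : E ≤ Real.exp (2 * V * (g * b + 76 * E)) := by
    conv_lhs => rw [hE]
    exact Real.exp_le_exp.2 (le_mul_of_one_le_right (by linarith) (by linarith))
  have h8 : (5 : ℝ) ≤ Real.exp (2 * V * (24 * E)) := by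
    nlinarith [Real.add_one_le_exp (2 * V * (24 * E))]
  rw [show 2 * V * (g * b + 100 * E) = 2 * V * (g * b + 76 * E) + 2 * V * (24 * E) by ring,
    Real.exp_add]
  nlinarith [mul_le_mul_of_nonneg_left h8 (Real.exp_pos (2 * V * (g * b + 76 * E))).le]

end Pool.Agent.MP_dd7250_nt.SH

end

section

/- Ratios with the exponent two: a two-constants theorem. -/

set_option autoImplicit false
set_option maxHeartbeats 400000

namespace Pool.Agent.MP_dd7250_nt.SH

open Complex Set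

theorem cos_pos {r : ℝ} (h0 : 0 < r) (hr : r < 1) : 0 < Real.cos (r * (Real.pi / 2)) :=
  Real.cos_pos_of_mem_Ioo ⟨by nlinarith [Real.pi_pos], by nlinarith [Real.pi_pos]⟩

theorem re_cpow_ge {w : ℂ} (hw : 0 ≤ w.re) {r : ℝ} (h0 : 0 < r) (hr : r < 1) :
    ‖w‖ ^ r * Real.cos (r * (Real.pi / 2)) ≤ (w ^ (r : ℂ)).re := by
  rw [cpow_ofReal_re]
  refine mul_le_mul_of_nonneg_left ?_ (by positivity)
  have h1 := abs_arg_le_pi_div_two_iff.2 hw
  rw [← Real.cos_abs (w.arg * r), abs_mul, abs_of_pos h0]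
  refine Real.cos_le_cos_of_nonneg_of_le_pi (by positivity) (by nlinarith [Real.pi_pos]) ?_
  nlinarith

theorem interp {f : ℂ → ℂ} {lam X H A B K p r : ℝ} (hl : 1 ≤ lam) (hp : 0 < p) (hpr : p ≤ r)
    (hr : r < 1) (hXH : X ≤ H) (hA : 0 ≤ A) (hB : 0 ≤ B) (hK : 1 ≤ K) (hlX : lam < X)
    (h0 : (2 * lam) ^ p < lam) (hd : DifferentiableOn ℂ f {z | 0 < z.re})
    (h1 : ∀ z : ℂ, ‖z + lam‖ ^ p ≤ z.re → z.re ≤ X → |z.im| ≤ H →
      ‖f z‖ ≤ Real.exp (B * ‖z + lam‖ ^ r))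
    (h2 : ∀ z : ℂ, z.re = X → |z.im| ≤ H →
      ‖f z‖ ≤ K * Real.exp (-(A * X + A * X ^ 3 / (2 * H ^ 2)))) :
    ‖f lam‖ ≤ K * Real.exp (-(A * lam) +
      (B + 2 * A) / Real.cos (r * (Real.pi / 2)) * (2 * lam) ^ r) := by
  have r0 : 0 < r := hp.trans_le hpr
  have hc := cos_pos r0 hr
  have H0 : 0 < H := by linarith
  obtain ⟨B', hB'⟩ : ∃ B' : ℝ, B' = (B + 2 * A) / Real.cos (r * (Real.pi / 2)) := ⟨_, rfl⟩
  have B0 : 0 ≤ B' := by rw [hB']; positivity
  have B1 : B' * Real.cos (r * (Real.pi / 2)) = B + 2 * A := by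
    rw [hB', div_mul_cancel₀ _ hc.ne']
  rw [← hB']
  have hco : Continuous fun z : ℂ => ‖z + lam‖ ^ p :=
    (by fun_prop : Continuous fun z : ℂ => ‖z + lam‖).rpow_const fun _ => Or.inr hp.le
  have hU : IsOpen {z : ℂ | ‖z + lam‖ ^ p < z.re ∧ z.re < X ∧ |z.im| < H} :=
    (isOpen_lt hco continuous_re).inter ((isOpen_lt continuous_re continuous_const).inter
      (isOpen_lt continuous_im.abs continuous_const))
  have hC : closure {z : ℂ | ‖z + lam‖ ^ p < z.re ∧ z.re < X ∧ |z.im| < H} ⊆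
      {z : ℂ | ‖z + lam‖ ^ p ≤ z.re ∧ z.re ≤ X ∧ |z.im| ≤ H} :=
    closure_minimal (fun z hz => ⟨hz.1.le, hz.2.1.le, hz.2.2.le⟩)
      ((isClosed_le hco continuous_re).inter ((isClosed_le continuous_re continuous_const).inter
        (isClosed_le continuous_im.abs continuous_const)))
  have hw : ∀ z : ℂ, ‖z + lam‖ ^ p ≤ z.re → 1 ≤ ‖z + lam‖ ∧ 0 < z.re := fun z hz => by
    have a1 : 0 ≤ z.re := le_trans (by positivity) hz
    have a2 := re_le_norm (z + lam)
    rw [add_re, ofReal_re] at a2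
    have a3 : 1 ≤ ‖z + lam‖ := by linarith
    exact ⟨a3, zero_lt_one.trans_le ((Real.one_le_rpow a3 hp.le).trans hz)⟩
  have hn : ∀ z : ℂ, ‖f z * exp (A * z + (A / (2 * H ^ 2) : ℝ) * z ^ 3 - B' * (z + lam) ^ (r : ℂ))‖ =
      ‖f z‖ * Real.exp (A * z.re + A / (2 * H ^ 2) * (z.re ^ 3 - 3 * z.re * z.im ^ 2) -
        B' * ((z + lam) ^ (r : ℂ)).re) := fun z => by
    rw [norm_mul, norm_exp, sub_re, add_re, re_ofReal_mul, re_ofReal_mul, re_ofReal_mul]
    congr 5
    simp only [pow_succ, pow_zero, one_mul, mul_re, mul_im]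
    ring
  have hD : 0 ≤ A / (2 * H ^ 2) := by positivity
  have hD1 : A / (2 * H ^ 2) * H ^ 2 = A / 2 := by field_simp
  have key := norm_le_of_forall_mem_frontier_norm_le
    (f := fun z => f z * exp (A * z + (A / (2 * H ^ 2) : ℝ) * z ^ 3 - B' * (z + lam) ^ (r : ℂ)))
    (U := {z : ℂ | ‖z + lam‖ ^ p < z.re ∧ z.re < X ∧ |z.im| < H}) (C := K) (z := lam)
    ((Metric.isBounded_closedBall (x := (0 : ℂ)) (r := X + H)).subset fun z hz => by
      rw [mem_closedBall_zero_iff]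
      refine (norm_le_abs_re_add_abs_im z).trans ?_
      rw [abs_of_pos (hw z hz.1.le).2]
      linarith [hz.2.1, hz.2.2])
    (DifferentiableOn.diffContOnCl (fun z hz => by
      have a1 := (hw z (hC hz).1).2
      refine DifferentiableAt.differentiableWithinAt ((hd.differentiableAt
        ((isOpen_lt continuous_const continuous_re).mem_nhds a1)).mul
          (DifferentiableAt.cexp ?_))
      refine DifferentiableAt.sub (by fun_prop) (DifferentiableAt.const_mul ?_ _)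
      refine DifferentiableAt.cpow_const (by fun_prop) (Or.inl ?_)
      rw [add_re, ofReal_re]
      linarith))
    (fun z hz => by
      rw [hU.frontier_eq] at hz
      obtain ⟨a1, a2, a3⟩ := hC hz.1
      obtain ⟨a4, a5⟩ := hw z a1
      have a6 := re_cpow_ge (w := z + lam) (by rw [add_re, ofReal_re]; linarith) r0 hr
      have a7 : (B + 2 * A) * ‖z + lam‖ ^ r ≤ B' * ((z + lam) ^ (r : ℂ)).re := by
        rw [← B1]
        nlinarith [mul_le_mul_of_nonneg_left a6 B0]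
      have a8 : 0 ≤ ‖z + lam‖ ^ r := by positivity
      have a9 : z.re ^ 2 ≤ H ^ 2 := pow_le_pow_left₀ a5.le (by linarith) 2
      have b0 : 0 ≤ A * ‖z + lam‖ ^ r := by positivity
      rw [hn]
      rcases a2.eq_or_lt with b1 | b1
      · refine (mul_le_mul_of_nonneg_right (h2 z b1 a3) (Real.exp_pos _).le).trans ?_
        rw [mul_assoc, ← Real.exp_add]
        refine mul_le_of_le_one_right (by linarith) (Real.exp_le_one_iff.2 ?_)
        have b2 : 0 ≤ A / (2 * H ^ 2) * (3 * z.re * z.im ^ 2) := by positivity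
        have b3 : A * X ^ 3 / (2 * H ^ 2) = A / (2 * H ^ 2) * X ^ 3 := by ring
        have b4 : 0 ≤ B * ‖z + lam‖ ^ r := by positivity
        rw [b1] at *
        nlinarith
      refine (mul_le_mul_of_nonneg_right (h1 z a1 a2 a3) (Real.exp_pos _).le).trans
        (le_trans ?_ hK)
      rw [← Real.exp_add, Real.exp_le_one_iff]
      have b2 : A / (2 * H ^ 2) * z.re ^ 3 ≤ A / 2 * z.re := by
        rw [← hD1]
        nlinarith [mul_le_mul_of_nonneg_left a9 (mul_nonneg hD a5.le)]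
      rcases a3.eq_or_lt with b3 | b3
      · have b4 : A / (2 * H ^ 2) * (3 * z.re * z.im ^ 2) = 3 * (A / 2 * z.re) := by
          rw [← sq_abs z.im, b3, ← hD1]
          ring
        nlinarith
      · have b4 : z.re ≤ ‖z + lam‖ ^ r := by
          refine le_trans (not_lt.1 fun b5 => hz.2 ⟨b5, b1, b3⟩) ?_
          exact Real.rpow_le_rpow_of_exponent_le a4 hpr
        have b5 : 0 ≤ A / (2 * H ^ 2) * (3 * z.re * z.im ^ 2) := by positivity
        have b6 := mul_le_mul_of_nonneg_left b4 hA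
        nlinarith [mul_nonneg hA a5.le])
    (subset_closure (by
      have a1 : ‖(lam : ℂ) + lam‖ = 2 * lam := by
        rw [← ofReal_add, norm_real, Real.norm_of_nonneg (by linarith)]
        ring
      refine ⟨?_, ?_, ?_⟩
      · rw [a1]; exact h0
      · exact hlX
      · rw [ofReal_im, abs_zero]; exact H0))
  rw [hn, ← le_div_iff₀ (Real.exp_pos _), div_eq_mul_inv, ← Real.exp_neg] at key
  refine key.trans (mul_le_mul_of_nonneg_left (Real.exp_le_exp.2 ?_) (by linarith))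
  have e : (((lam : ℂ) + lam) ^ (r : ℂ)).re = (2 * lam) ^ r := by
    rw [← ofReal_add, ← ofReal_cpow (by linarith), ofReal_re, two_mul]
  have b1 : 0 ≤ A / (2 * H ^ 2) * lam ^ 3 := by positivity
  rw [e, ofReal_re, ofReal_im]
  nlinarith

end Pool.Agent.MP_dd7250_nt.SH

end
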