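import Mathlib
import Pool.Agent.Mg.Fdd7250p.Gaec326
import Pool.Agent.Mg.Fdd7250p.Gfefea1
import Pool.Agent.Results.MP_dd7250_nt.Ratios
import Pool.Agent.Mg.Fdd7250p.G4187d7

set_option linter.all false

section

/- Ratios with the exponent two: the estimate away from the poles. -/

set_option autoImplicit false
set_option maxHeartbeats 400000

namespace Pool.Agent.MP_dd7250_nt.SH

open Polynomial Finset Filter Topology Pool.Agent.MP_d232b3_nt Pool.Agent.MP_dd7250_nt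
open Pool.Agent.MP_dd7250_nt.LS
open scoped Classical

variable {F : Type} [Field F] [Fintype F]

theorem xv_sub_le {α γ : ℂ} (h : lq F * ‖α - γ‖ ≤ 1) :
    ‖xv F α - xv F γ‖ ≤ ‖xv F α‖ * (2 * (lq F * ‖α - γ‖)) := by
  have e : xv F α - xv F γ = -(xv F α * (xv F (γ - α) - 1)) := by
    rw [mul_sub, ← xv_add, add_sub_cancel]
    ring
  rw [e, norm_neg, norm_mul, norm_sub_rev α γ] at *
  exact mul_le_mul_of_nonneg_left (xv_sub_one_le h) (norm_nonneg _)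

theorem norm_xv_le (hF : ringChar F ≠ 2) {γ : ℂ} {b : ℝ} (h0 : 0 ≤ b) (h1 : b ≤ 1)
    (h : b ≤ γ.re) : ‖xv F γ‖ ≤ 1 - b / 2 := by
  rw [norm_xv, qp_eq Fintype.card_pos]
  have h2 : Real.exp (lq F * -γ.re) ≤ Real.exp (-b) :=
    Real.exp_le_exp.2 (by nlinarith [one_le_lq hF])
  refine h2.trans ?_
  rw [Real.exp_neg, inv_le_iff_one_le_mul₀ (Real.exp_pos _)]
  nlinarith [mul_le_mul_of_nonneg_left (Real.add_one_le_exp b) (show 0 ≤ 1 - b / 2 by linarith)]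

theorem lam_refl {n : ℕ} (θ : Fin n → ℝ) {x : ℂ} (hx : x ≠ 0) :
    ‖Lam θ x‖ = ‖x‖ ^ n * ‖Lam θ ((starRingEnd ℂ) x⁻¹)‖ := by
  rw [Lam, Lam, norm_prod, norm_prod, ← Fin.prod_const, ← prod_mul_distrib]
  refine prod_congr rfl fun i _ => ?_
  have e1 : (starRingEnd ℂ) (Complex.exp (θ i * Complex.I)) =
      (Complex.exp (θ i * Complex.I))⁻¹ := by
    rw [← Complex.exp_conj, ← Complex.exp_neg, map_mul, Complex.conj_ofReal, Complex.conj_I,
      mul_neg]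
  have h0 := Complex.exp_ne_zero (θ i * Complex.I)
  rw [← Complex.norm_conj (1 - (starRingEnd ℂ) x⁻¹ * _), map_sub, map_mul, map_one, e1,
    Complex.conj_conj, ← norm_ZL x (θ i), ← norm_mul, ← norm_neg]
  congr 1
  field_simp
  ring

theorem pair {α γ : ℂ} {Y : ℝ} (hγ : 0 ≤ γ.re) (h1 : ‖α - γ‖ ≤ Y) (hY : lq F * Y ≤ 1 / 4) :
    ∃ x : ℂ, ‖x‖ ≤ 1 ∧ ‖x - xv F γ‖ ≤ 6 * (lq F * Y) ∧ ∀ (n : ℕ) (θ : Fin n → ℝ),
      ‖Lam θ (xv F α)‖ = qp F (n * max 0 (-α.re)) * ‖Lam θ x‖ := by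
  have hl := lq_pos_GX (F := F)
  have key : ∀ a : ℂ, 0 ≤ a.re → ‖a - γ‖ ≤ 3 * Y →
      ‖xv F a‖ ≤ 1 ∧ ‖xv F a - xv F γ‖ ≤ 6 * (lq F * Y) := fun a ha h => by
    have a1 : ‖xv F a‖ ≤ 1 := by rw [norm_xv]; exact qp_le_one (by linarith)
    have a2 := mul_le_mul_of_nonneg_left h hl.le
    refine ⟨a1, (xv_sub_le (by linarith)).trans ?_⟩
    exact (mul_le_of_le_one_left (by positivity) a1).trans (by linarith)
  rcases le_total 0 α.re with ha | ha
  · obtain ⟨a1, a2⟩ := key α ha (by linarith [norm_nonneg (α - γ)])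
    refine ⟨_, a1, a2, fun n θ => ?_⟩
    rw [max_eq_left (by linarith), mul_zero, qp_zero, one_mul]
  · obtain ⟨a1, a2⟩ := key (-(starRingEnd ℂ) α) (by simpa using ha) (by
      have b1 := norm_sub_le (α - γ) (α + (starRingEnd ℂ) α)
      have b2 := (abs_le.1 (Complex.abs_re_le_norm (α - γ))).1
      rw [show α - γ - (α + (starRingEnd ℂ) α) = -(starRingEnd ℂ) α - γ by ring,
        Complex.add_conj, Complex.norm_real, Real.norm_eq_abs, abs_of_nonpos (by linarith)] at b1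
      rw [Complex.sub_re] at b2
      linarith)
    refine ⟨_, a1, a2, fun n θ => ?_⟩
    have e : xv F (-(starRingEnd ℂ) α) = (starRingEnd ℂ) (xv F α)⁻¹ := by
      rw [← xv_neg, xv_eq, xv_eq, ← Complex.exp_conj]
      simp
    rw [max_eq_right (by linarith), e, lam_refl θ (xv_ne α), norm_xv, qp_pow, mul_comm (n : ℝ)]

theorem av4_le (hF : ringChar F ≠ 2) {g : ℕ} (hg : 1 ≤ g) {α β γ δ : ℂ} {b Y M : ℝ} (hb : 0 < b)
    (hb1 : b ≤ 1) (hγ : b ≤ γ.re) (hδ : b ≤ δ.re) (h1 : ‖α - γ‖ ≤ Y) (h2 : ‖β - δ‖ ≤ Y)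
    (hY : lq F * Y ≤ 1 / 4) (hM0 : 0 ≤ M) (hM : 12 * (lq F * Y) ≤ M * b) :
    ‖av4 F g α β γ δ‖ ≤ Real.exp (2400 * (1 + Real.log (1 + M)) *
        (g * b + 100 * Real.exp (2400 * (1 + Real.log (1 + M))))) *
      qp F (2 * g * max 0 (-α.re) + 2 * g * max 0 (-β.re)) := by
  obtain ⟨θ, hE, hθ⟩ := exists_ens hF hg
  obtain ⟨x₁, a1, a2, a3⟩ := pair (F := F) (hb.le.trans hγ) h1 hY
  obtain ⟨x₂, b1, b2, b3⟩ := pair (F := F) (hb.le.trans hδ) h2 hY
  have c1 := apriori (M := M) a1 (half_pos hb) (norm_xv_le hF hb.le hb1 hγ) hM0 (by linarith) hE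
  have c2 := apriori (M := M) b1 (half_pos hb) (norm_xv_le hF hb.le hb1 hδ) hM0 (by linarith) hE
  have hl : 0 ≤ Real.log (1 + M) := Real.log_nonneg (by linarith)
  have c3 : Real.exp (2400 * (1 + Real.log (1 + M)) *
      (g * (b / 2) + 100 * Real.exp (2400 * (1 + Real.log (1 + M))))) ≤
      Real.exp (2400 * (1 + Real.log (1 + M)) *
        (g * b + 100 * Real.exp (2400 * (1 + Real.log (1 + M))))) := by
    gcongr
    linarith
  replace c1 := c1.trans (mul_le_mul_of_nonneg_left c3 (Nat.cast_nonneg _))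
  replace c2 := c2.trans (mul_le_mul_of_nonneg_left c3 (Nat.cast_nonneg _))
  generalize Real.exp (2400 * (1 + Real.log (1 + M)) *
    (g * b + 100 * Real.exp (2400 * (1 + Real.log (1 + M))))) = E at *
  have hc : (0 : ℝ) < (sqF F (2 * g + 1)).card := by
    have h : ((sqF F (2 * g + 1)).card : ℝ) = (Q F - 1) * (Q F : ℝ) ^ (2 * g) := by
      exact_mod_cast card_sqF (F := F) hg
    have h3 := one_lt_Q (F := F)
    rw [h]
    exact mul_pos (by linarith) (by positivity)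
  rw [av4, norm_div, ← card_sqF hg, Complex.norm_natCast, div_le_iff₀ hc]
  refine (norm_sum_le _ _).trans (le_trans (sum_le_sum (g := fun D =>
    qp F (2 * g * max 0 (-α.re) + 2 * g * max 0 (-β.re)) *
      ((‖Lam (θ D) x₁ / Lam (θ D) (xv F γ)‖ ^ 2 + ‖Lam (θ D) x₂ / Lam (θ D) (xv F δ)‖ ^ 2) / 2))
    fun D hD => ?_) ?_)
  · simp only [(hθ D hD).1]
    rw [norm_div, norm_mul, norm_mul, a3, b3, qp_add, norm_div, norm_div, Nat.cast_mul,
      Nat.cast_ofNat, mul_mul_mul_comm, mul_div_assoc, mul_div_mul_comm]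
    refine mul_le_mul_of_nonneg_left ?_ (mul_pos (qp_pos _) (qp_pos _)).le
    nlinarith [sq_nonneg (‖Lam (θ D) x₁‖ / ‖Lam (θ D) (xv F γ)‖ -
      ‖Lam (θ D) x₂‖ / ‖Lam (θ D) (xv F δ)‖)]
  · rw [← mul_sum, ← sum_div, sum_add_distrib, mul_comm E, mul_assoc (qp F _)]
    exact mul_le_mul_of_nonneg_left (by linarith) (qp_pos (F := F) _).le

variable (F) in
/-- The shifts in the numerator are at distance `e` from the poles. -/
structure Fx (e : ℝ) (α β : ℂ) : Prop where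
  h1 : e ≤ ‖1 - xv F (2 * α)‖
  h2 : e ≤ ‖1 - xv F (2 * β)‖
  h3 : e ≤ ‖1 - xv F (2 * (α + β))‖
  h4 : e ≤ ‖1 - xv F (2 * (α - β))‖

theorem xv_two (α : ℂ) : xv F (2 * α) = xv F α ^ 2 := by rw [two_mul, xv_add, pow_two]

theorem xv_mem {α : ℂ} (h : lq F * |α.re| ≤ 1 / 2) : 1 / 2 ≤ ‖xv F α‖ ∧ ‖xv F α‖ ≤ 2 := by
  have hl := lq_pos_GX (F := F)
  have h1 := mul_le_mul_of_nonneg_left (le_abs_self α.re) hl.le
  have h2 := mul_le_mul_of_nonneg_left (neg_le_abs α.re) hl.le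
  rw [norm_xv, qp_eq Fintype.card_pos]
  refine ⟨by linarith [Real.add_one_le_exp (lq F * -α.re)], ?_⟩
  rw [← neg_neg (lq F * -α.re), Real.exp_neg, inv_le_comm₀ (Real.exp_pos _) two_pos]
  linarith [Real.add_one_le_exp (-(lq F * -α.re))]

theorem E_le (hF : ringChar F ≠ 2) : ∃ K : ℝ, 0 ≤ K ∧ ∀ (g : ℕ) (α β γ δ : ℂ) (b Y M R e : ℝ),
    1 ≤ g → 0 < b → b ≤ 1 → b ≤ γ.re → b ≤ δ.re → ‖α - γ‖ ≤ Y → ‖β - δ‖ ≤ Y →
    lq F * Y ≤ 1 / 4 → lq F * |α.re| ≤ 1 / 32 → lq F * |β.re| ≤ 1 / 32 → Fx F e α β → 0 ≤ M →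
    12 * (lq F * Y) ≤ M * b → 1 ≤ R → 64 * (lq F * Y) ≤ R * e → 8 * (lq F * Y) ≤ R * b →
    ‖av4 F g α β γ δ - pred F g α β γ δ‖ ≤ (Real.exp (2400 * (1 + Real.log (1 + M)) *
        (g * b + 100 * Real.exp (2400 * (1 + Real.log (1 + M))))) + K * R ^ 4) *
      qp F (2 * g * max 0 (-α.re) + 2 * g * max 0 (-β.re)) := by
  obtain ⟨K, hK, h⟩ := pred_le hF
  refine ⟨K, hK, fun g α β γ δ b Y M R e hg hb hb1 hγ hδ h1 h2 hY ha hβ hf hM0 hM hR r1 r2 => ?_⟩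
  have hl := one_le_lq hF
  have R0 : 0 ≤ R := by linarith
  obtain ⟨l1, u1⟩ := xv_mem (F := F) (α := α) (by linarith)
  obtain ⟨l2, u2⟩ := xv_mem (F := F) (α := β) (by linarith)
  have u3 := norm_xv_le hF hb.le hb1 hγ
  have u4 := norm_xv_le hF hb.le hb1 hδ
  have d : ∀ {x y : ℂ}, ‖xv F x‖ ≤ 2 → ‖x - y‖ ≤ Y → ‖xv F x - xv F y‖ ≤ 4 * (lq F * Y) :=
    fun {x y} hx hy => by
      have a1 := mul_le_mul_of_nonneg_left hy (zero_le_one.trans hl)
      refine (xv_sub_le (by linarith)).trans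
        ((mul_le_mul_of_nonneg_right hx (by positivity)).trans (by linarith))
  have p : ∀ {t : ℝ}, 0 ≤ t → e ≤ 16 * t → 4 * (lq F * Y) ≤ R * t := fun h0 ht => by
    nlinarith [mul_le_mul_of_nonneg_left ht R0]
  rw [add_mul]
  refine (norm_sub_le _ _).trans (add_le_add (av4_le hF hg hb hb1 hγ hδ h1 h2 hY hM0 hM)
    (h g (4 * (lq F * Y)) R α β γ δ (by nlinarith [abs_nonneg α.re])
      (by nlinarith [abs_nonneg β.re]) (by linarith) (by linarith)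
      ⟨hR, l1, l2, u1, u2, by linarith, by linarith, d u1 h1, d u2 h2, p (norm_nonneg _) ?_,
        p (norm_nonneg _) ?_, p (norm_nonneg _) ?_, p (norm_nonneg _) ?_, ?_⟩))
  · linarith [xv_two (F := F) α ▸ hf.h1, norm_nonneg (1 - xv F α ^ 2)]
  · linarith [xv_two (F := F) β ▸ hf.h2, norm_nonneg (1 - xv F β ^ 2)]
  · have a1 := hf.h3
    have a2 := norm_add_le 1 (xv F α * xv F β)
    rw [xv_two, xv_add, show 1 - (xv F α * xv F β) ^ 2 =
      (1 + xv F α * xv F β) * (1 - xv F α * xv F β) by ring, norm_mul] at a1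
    rw [norm_one, norm_mul] at a2
    have a3 := mul_le_mul u1 u2 (norm_nonneg _) zero_le_two
    nlinarith [norm_nonneg (1 - xv F α * xv F β)]
  · have a1 := hf.h4
    have a2 := norm_add_le (xv F β) (xv F α)
    have a0 := xv_ne (F := F) β
    rw [xv_two, sub_eq_add_neg α, xv_add, xv_neg, show 1 - (xv F α * (xv F β)⁻¹) ^ 2 =
      (xv F β + xv F α) * (xv F β - xv F α) / xv F β ^ 2 by field_simp; ring, norm_div, norm_mul,
      norm_pow] at a1
    refine a1.trans (div_le_of_le_mul₀ (by positivity) (by positivity) ?_)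
    have a3 : 1 / 4 ≤ ‖xv F β‖ ^ 2 := by nlinarith
    nlinarith [norm_nonneg (xv F β - xv F α),
      mul_le_mul_of_nonneg_left a3 (norm_nonneg (xv F β - xv F α))]
  · have a1 := norm_sub_norm_le 1 (xv F γ * xv F δ)
    rw [norm_one, norm_mul] at a1
    have a2 := mul_le_mul u3 (show ‖xv F δ‖ ≤ 1 by linarith) (norm_nonneg _) (by linarith)
    nlinarith [mul_le_mul_of_nonneg_left (show b / 2 ≤ ‖1 - xv F γ * xv F δ‖ by linarith) R0]

theorem num {C₂ C₃ K : ℝ} (h2 : 1 ≤ C₂) (h3 : 1 ≤ C₃) (hK : 0 ≤ K) {n : ℕ} (hn : 4800 ≤ n) :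
    ∃ B : ℝ, 0 ≤ B ∧ ∀ t : ℝ, 1 ≤ t → Real.exp (2400 * (1 + Real.log (1 + C₂ * t ^ 2)) *
      (t ^ n + 100 * Real.exp (2400 * (1 + Real.log (1 + C₂ * t ^ 2))))) +
      K * (C₃ * t ^ (n + 2)) ^ 4 ≤ Real.exp (B * t ^ (n + 1)) := by
  have l0 : 0 ≤ Real.log (2 * C₂) := Real.log_nonneg (by linarith)
  have l1 : 0 ≤ Real.log (1 + K * C₃ ^ 4) := Real.log_nonneg (le_add_of_nonneg_right (by positivity))
  obtain ⟨E, hE⟩ : ∃ E : ℝ, E = Real.exp (2400 * (1 + Real.log (2 * C₂))) := ⟨_, rfl⟩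
  have E0 : 0 < E := hE ▸ Real.exp_pos _
  refine ⟨2400 * (3 + Real.log (2 * C₂)) * (1 + 100 * E) +
    (Real.log (1 + K * C₃ ^ 4) + 4 * (n + 2)) + 1, by positivity, fun t ht => ?_⟩
  have t0 : 0 < t := by linarith
  have a0 : 0 ≤ Real.log t := Real.log_nonneg ht
  have a1 : Real.log t ≤ t := by linarith [Real.log_le_sub_one_of_pos t0]
  have a2 : Real.log (1 + C₂ * t ^ 2) ≤ Real.log (2 * C₂) + 2 * Real.log t := by
    have b1 : 1 ≤ C₂ * t ^ 2 := one_le_mul_of_one_le_of_one_le h2 (one_le_pow₀ ht)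
    refine (Real.log_le_log (by linarith) (show _ ≤ 2 * C₂ * t ^ 2 by linarith)).trans_eq ?_
    rw [Real.log_mul (by linarith) (by positivity), Real.log_pow]
    norm_num
  have a3 : Real.exp (2400 * (1 + Real.log (1 + C₂ * t ^ 2))) ≤ E * t ^ n := by
    refine le_trans ?_ (mul_le_mul_of_nonneg_left (pow_le_pow_right₀ ht hn) E0.le)
    rw [hE, ← Real.exp_log (pow_pos t0 4800), ← Real.exp_add, Real.log_pow, Real.exp_le_exp]
    push_cast
    linarith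
  have a4 : 1 + Real.log (1 + C₂ * t ^ 2) ≤ (3 + Real.log (2 * C₂)) * t := by nlinarith
  have a5 : 0 ≤ Real.log (1 + C₂ * t ^ 2) :=
    Real.log_nonneg (le_add_of_nonneg_right (by positivity))
  have a6 : 2400 * (1 + Real.log (1 + C₂ * t ^ 2)) *
      (t ^ n + 100 * Real.exp (2400 * (1 + Real.log (1 + C₂ * t ^ 2)))) ≤
      2400 * (3 + Real.log (2 * C₂)) * (1 + 100 * E) * t ^ (n + 1) := by
    calc _ ≤ 2400 * ((3 + Real.log (2 * C₂)) * t) * (t ^ n + 100 * (E * t ^ n)) := by gcongr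
      _ = _ := by ring
  have a7 : 1 ≤ t ^ (n + 1) := one_le_pow₀ ht
  have a8 : t ≤ t ^ (n + 1) := le_self_pow₀ ht n.succ_ne_zero
  have a9 : K * (C₃ * t ^ (n + 2)) ^ 4 ≤
      Real.exp ((Real.log (1 + K * C₃ ^ 4) + 4 * (n + 2)) * t ^ (n + 1)) := by
    have b1 : K * (C₃ * t ^ (n + 2)) ^ 4 ≤ (1 + K * C₃ ^ 4) * t ^ (4 * (n + 2)) := by
      rw [mul_pow, ← pow_mul, mul_comm (n + 2), ← mul_assoc]
      gcongr
      linarith
    refine b1.trans ?_
    rw [← Real.exp_log (show 0 < (1 + K * C₃ ^ 4) * t ^ (4 * (n + 2)) by positivity),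
      Real.log_mul (by positivity) (by positivity), Real.log_pow, Real.exp_le_exp, add_mul]
    push_cast
    exact add_le_add (le_mul_of_one_le_right l1 a7)
      (mul_le_mul_of_nonneg_left (a1.trans a8) (by positivity))
  refine (add_le_add (Real.exp_le_exp.2 a6) a9).trans ?_
  rw [add_mul _ 1, add_mul (_ * _) (_ + _) (t ^ (n + 1)), Real.exp_add, Real.exp_add, one_mul]
  have c1 : 1 ≤ Real.exp (2400 * (3 + Real.log (2 * C₂)) * (1 + 100 * E) * t ^ (n + 1)) :=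
    Real.one_le_exp (by positivity)
  have c2 : 1 ≤ Real.exp ((Real.log (1 + K * C₃ ^ 4) + 4 * (n + 2)) * t ^ (n + 1)) :=
    Real.one_le_exp (by positivity)
  have c3 : 2 ≤ Real.exp (t ^ (n + 1)) := by linarith [Real.add_one_le_exp (t ^ (n + 1))]
  generalize Real.exp (2400 * (3 + Real.log (2 * C₂)) * (1 + 100 * E) * t ^ (n + 1)) = u at *
  generalize Real.exp ((Real.log (1 + K * C₃ ^ 4) + 4 * (n + 2)) * t ^ (n + 1)) = v at *
  nlinarith [mul_le_mul_of_nonneg_left c3 (show 0 ≤ u * v by positivity),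
    mul_nonneg (sub_nonneg.2 c1) (sub_nonneg.2 c2)]

theorem tr_eq (hF : ringChar F ≠ 2) {g : ℕ} (hg : 1 ≤ g) (α β γ δ : ℂ) :
    avg g (fun D : F[X] => Lf D (1 / 2 + α) * Lf D (1 / 2 + β) /
          (Lf D (1 / 2 + γ) * Lf D (1 / 2 + δ))) -
        ∑ e₁ ∈ ({1, -1} : Finset ℤ), ∑ e₂ ∈ ({1, -1} : Finset ℤ),
          (Fintype.card F : ℂ) ^ (-(g * ((1 - e₁) * α + (1 - e₂) * β))) *
            GG F (e₁ * α) (e₂ * β) γ δ = av4 F g α β γ δ - pred F g α β γ δ := by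
  have e4 : ∀ x y : ℂ, (Q F : ℂ) ^ (-(g * (2 * x + 2 * y))) =
      (xv F x ^ 2) ^ g * (xv F y ^ 2) ^ g := fun x y => by
    rw [← mul_pow, ← mul_pow, ← xv_add, xv, ← pow_mul, ← Complex.cpow_nat_mul]
    congr 1
    push_cast
    ring
  have z0 : xv F 0 = 1 := by rw [xv, neg_zero, Complex.cpow_zero]
  have f1 := e4 0 β
  have f2 := e4 α 0
  have f3 := e4 α β
  simp only [mul_zero, zero_add, add_zero, z0, one_pow, one_mul, mul_one] at f1 f2
  rw [avg_eq hg, sum_congr rfl fun D hD => by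
    rw [Lf_eq_LD hF hD, Lf_eq_LD hF hD, Lf_eq_LD hF hD, Lf_eq_LD hF hD],
    sum_pair (by decide), sum_pair (by decide), sum_pair (by decide)]
  simp only [Int.cast_one, Int.cast_neg, sub_self, zero_mul, sub_neg_eq_add, one_add_one_eq_two,
    zero_add, add_zero, mul_zero, neg_zero, Complex.cpow_zero, one_mul, neg_mul, f1, f2, f3]
  rfl

theorem xv_diff : Differentiable ℂ (xv F) := by
  rw [show xv F = fun α => Complex.exp (-(lq F * α)) from funext xv_eq]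
  fun_prop

theorem LD_diff (g : ℕ) (D : F[X]) : Differentiable ℂ (LD F g D) := by
  unfold LD Lt
  fun_prop

theorem E_diff (hF : ringChar F ≠ 2) (g : ℕ) {α β : ℂ} (ha : |α.re| ≤ 1 / 32)
    (hb : |β.re| ≤ 1 / 32) {w z : ℂ → ℂ} {S : Set ℂ} (hS : IsOpen S) (hw : Differentiable ℂ w)
    (hz : Differentiable ℂ z) (hr : ∀ ζ ∈ S, 0 < (w ζ).re ∧ 0 < (z ζ).re) :
    DifferentiableOn ℂ (fun ζ => av4 F g α β (w ζ) (z ζ) - pred F g α β (w ζ) (z ζ)) S := by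
  have hx := xv_diff (F := F)
  have n1 : ∀ {x : ℂ}, 0 < x.re → ‖xv F x‖ < 1 := fun h => by
    rw [norm_xv]; exact qp_lt_one (by linarith)
  have hG : ∀ a b : ℂ, |a.re| ≤ 1 / 32 → |b.re| ≤ 1 / 32 →
      DifferentiableOn ℂ (fun ζ => GG F a b (w ζ) (z ζ)) S := fun a b h1 h2 => by
    have h3 := AA4_on hF hS (differentiable_const a) (differentiable_const b) hw hz fun ζ hζ =>
      ⟨(abs_le.1 h1).1, (abs_le.1 h2).1, by linarith [(hr ζ hζ).1], by linarith [(hr ζ hζ).2]⟩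
    simp only [GG_x]
    refine (DifferentiableOn.div (by fun_prop) (by fun_prop) fun ζ hζ h4 => ?_).div_const _
    rw [← xv_add] at h4
    have h5 := n1 (x := w ζ + z ζ) (by
      rw [Complex.add_re]; linarith [(hr ζ hζ).1, (hr ζ hζ).2])
    rw [← sub_eq_zero.1 h4, norm_one] at h5
    exact lt_irrefl _ h5
  have g1 := hG α β ha hb
  have g2 := hG α (-β) ha (by simpa using hb)
  have g3 := hG (-α) β (by simpa using ha) hb
  have g4 := hG (-α) (-β) (by simpa using ha) (by simpa using hb)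
  refine DifferentiableOn.sub ?_ (by unfold pred; fun_prop)
  unfold av4
  refine DifferentiableOn.div_const (DifferentiableOn.fun_sum fun D hD => ?_) _
  obtain ⟨θ, h1, h2, -⟩ := zero_data hF hD
  have h3 := LD_diff g D
  refine DifferentiableOn.div (by fun_prop) (by fun_prop) fun ζ hζ => ?_
  rw [h2, h2]
  exact mul_ne_zero (z_lim h1 (n1 (hr ζ hζ).1)).1 (z_lim h1 (n1 (hr ζ hζ).2)).1

end Pool.Agent.MP_dd7250_nt.SH

end

section

/- Ratios with the exponent two: interpolation between the fixed distance and the a priori bound. -/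

set_option autoImplicit false
set_option maxHeartbeats 400000

namespace Pool.Agent.MP_dd7250_nt.SH

open Polynomial Finset Filter Topology Pool.Agent.MP_d232b3_nt Pool.Agent.MP_dd7250_nt
open Pool.Agent.MP_dd7250_nt.LS
open scoped Classical

variable {F : Type} [Field F] [Fintype F]

/-- The shifts are paired at the scale `c`. -/
structure Pa (C c : ℝ) (α β γ δ : ℂ) : Prop where
  hc : 0 < c
  r3 : c ≤ γ.re
  r4 : c ≤ δ.re
  u1 : |α.re| ≤ C * c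
  u2 : |β.re| ≤ C * c
  d1 : ‖α - γ‖ ≤ C * c
  d2 : ‖β - δ‖ ≤ C * c

theorem ev_small {r δ : ℝ} (hr : r < 1) (hδ : 0 < δ) :
    ∀ᶠ x : ℝ in atTop, (2 * x) ^ r ≤ δ * x := by
  have h1 := (tendsto_rpow_neg_atTop (sub_pos.2 hr)).comp
    (tendsto_id.const_mul_atTop (two_pos (α := ℝ)))
  filter_upwards [h1.eventually_le_const (half_pos hδ), eventually_gt_atTop 0] with x h2 h3
  have h4 : (2 * x) ^ r = (2 * x) ^ (-(1 - r)) * (2 * x) := by
    rw [← Real.rpow_add_one (by positivity)]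
    congr 1
    ring
  rw [h4]
  refine (mul_le_mul_of_nonneg_right h2 (by positivity)).trans_eq (by ring)

omit [Field F] in
theorem ne_of_fx {e : ℝ} (he : 0 < e) {x : ℂ} (h : e ≤ ‖1 - xv F x‖) : (Q F : ℂ) ^ x ≠ 1 :=
  fun h1 => by
    rw [xv, Complex.cpow_neg, h1, inv_one, sub_self, norm_zero] at h
    linarith

theorem right_edge (hF : ringChar F ≠ 2) {ε : ℝ} (hε : 0 < ε) : ∃ K : ℝ, 1 ≤ K ∧
    ∀ (g : ℕ) (α β γ δ : ℂ) (c e : ℝ), 1 ≤ g → c ≤ 1 / 2 → c ≤ γ.re → c ≤ δ.re →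
      |α.re| + |β.re| + ε ≤ c → 0 < e → Fx F e α β →
      ‖av4 F g α β γ δ - pred F g α β γ δ‖ ≤ K * Real.exp (-(lq F * ((2 * c - ε) * g))) *
        qp F (2 * g * max 0 (-α.re) + 2 * g * max 0 (-β.re)) := by
  obtain ⟨K, hK⟩ := Results.MP_dd7250_nt.Ratios.result F
    (Nat.odd_iff.2 (FiniteField.odd_card_of_char_ne_two hF)) ε hε
  refine ⟨max K 1, le_max_right _ _, fun g α β γ δ c e hg h1 h2 h3 h4 he hf => ?_⟩
  have h5 := hK g hg α β γ δ c h1 h2 h3 h4 (ne_of_fx he hf.h1) (ne_of_fx he hf.h2)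
    (ne_of_fx he hf.h3) (ne_of_fx he hf.h4)
  rw [tr_eq hF hg] at h5
  refine h5.trans ?_
  rw [mul_assoc, ← mul_neg, ← qp_eq Fintype.card_pos, ← qp_add]
  refine mul_le_mul (le_max_left _ _) (le_of_eq ?_) (by positivity) (by positivity)
  rw [qp]
  congr 1
  ring

theorem on_dom (hF : ringChar F ≠ 2) {C η : ℝ} (hC : 1 ≤ C) (hη : 0 < η) : ∃ B : ℝ, 0 ≤ B ∧
    ∀ (g : ℕ) (c : ℝ) (α β γ δ z : ℂ), 1 ≤ g → Pa C c α β γ δ → lq F * (C * c) ≤ 1 / 32 →
      Fx F (η * c) α β → 1 ≤ g * c → ‖z + (g * c : ℝ)‖ ^ (4998 / 5000 : ℝ) ≤ z.re → z.re ≤ g →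
      lq F * ((C + 3) * (‖z + (g * c : ℝ)‖ / g)) ≤ 1 / 4 →
      ‖av4 F g α β (γ + (z - (g * c : ℝ)) / g) (δ + (z - (g * c : ℝ)) / g) -
        pred F g α β (γ + (z - (g * c : ℝ)) / g) (δ + (z - (g * c : ℝ)) / g)‖ ≤
        Real.exp (B * ‖z + (g * c : ℝ)‖ ^ (4999 / 5000 : ℝ)) *
          qp F (2 * g * max 0 (-α.re) + 2 * g * max 0 (-β.re)) := by
  have hl := one_le_lq hF
  obtain ⟨K, hK, h⟩ := E_le hF
  have hη' : 0 < 1 / η := by positivity
  have c0 : 4 ≤ lq F * (C + 3) := by nlinarith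
  obtain ⟨B, hB, hn⟩ := num (C₂ := 12 * (lq F * (C + 3))) (C₃ := 64 * (lq F * (C + 3)) * (1 + 1 / η))
    (by linarith) (by nlinarith) hK (n := 4998) (by norm_num)
  refine ⟨B, hB, fun g c α β γ δ z hg hp hc hf h1 h2 h3 h4 => ?_⟩
  have g0 : (0 : ℝ) < g := by exact_mod_cast hg
  have z0 : 0 ≤ z.re := le_trans (by positivity) h2
  have w1 := Complex.re_le_norm (z + (g * c : ℝ))
  rw [Complex.add_re, Complex.ofReal_re] at w1
  have w2 : ‖z - (g * c : ℝ)‖ ≤ 3 * ‖z + (g * c : ℝ)‖ := by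
    have a1 := norm_sub_le (z + (g * c : ℝ)) ((2 * (g * c) : ℝ) : ℂ)
    rw [Complex.norm_real, Real.norm_of_nonneg (by linarith), show z + (g * c : ℝ) -
      ((2 * (g * c) : ℝ) : ℂ) = z - (g * c : ℝ) by push_cast; ring] at a1
    linarith
  have re1 : ∀ x : ℂ, (x + (z - (g * c : ℝ)) / g).re = x.re - c + z.re / g := fun x => by
    rw [Complex.add_re, Complex.div_natCast_re, Complex.sub_re, Complex.ofReal_re]
    field_simp
    ring
  have d1 : ∀ x y : ℂ, ‖x - y‖ ≤ C * c → ‖x - (y + (z - (g * c : ℝ)) / g)‖ ≤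
      (C + 3) * (‖z + (g * c : ℝ)‖ / g) := fun x y hxy => by
    rw [← sub_sub]
    refine (norm_sub_le _ _).trans ?_
    rw [norm_div, Complex.norm_natCast]
    have a1 : c ≤ ‖z + (g * c : ℝ)‖ / g := by rw [le_div_iff₀' g0]; linarith
    have a2 : ‖z - (g * c : ℝ)‖ / g ≤ 3 * (‖z + (g * c : ℝ)‖ / g) := by
      rw [← mul_div_assoc]; gcongr
    nlinarith
  have e1 := d1 _ _ hp.d1
  have e2 := d1 _ _ hp.d2
  have e3 := re1 γ
  have e4 := re1 δ
  generalize γ + (z - (g * c : ℝ)) / g = γ' at *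
  generalize δ + (z - (g * c : ℝ)) / g = δ' at *
  generalize ‖z + (g * c : ℝ)‖ = ω at *
  have ω1 : 1 ≤ ω := by linarith
  have pw : ∀ m : ℕ, (ω ^ (1 / 5000 : ℝ)) ^ m = ω ^ (m / 5000 : ℝ) := fun m => by
    rw [← Real.rpow_mul_natCast (by linarith)]
    congr 1
    ring
  have t1 : 1 ≤ ω ^ (1 / 5000 : ℝ) := Real.one_le_rpow ω1 (by norm_num)
  have p1 := pw 4998
  have p2 := pw (4998 + 1)
  have p3 := pw (4998 + 2)
  have p4 := pow_add (ω ^ (1 / 5000 : ℝ)) 4998 2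
  have hn' := hn _ t1
  have t2 : 1 ≤ (ω ^ (1 / 5000 : ℝ)) ^ 4998 := one_le_pow₀ t1
  have t3 : 0 ≤ (ω ^ (1 / 5000 : ℝ)) ^ 2 := by positivity
  rw [show ((4998 + 2 : ℕ) : ℝ) / 5000 = 1 by norm_num, Real.rpow_one] at p3
  rw [show ((4998 + 1 : ℕ) : ℝ) = 4999 by norm_num] at p2
  rw [Nat.cast_ofNat] at p1
  rw [p2, p3] at hn'
  rw [p3] at p4
  rw [← p1] at h2
  generalize (ω ^ (1 / 5000 : ℝ)) ^ 4998 = u at *
  generalize (ω ^ (1 / 5000 : ℝ)) ^ 2 = v at *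
  have b1 : u / g ≤ z.re / g := by gcongr
  have b2 : z.re / g ≤ 1 := (div_le_one g0).2 h3
  have b3 : 0 ≤ ω / g := by positivity
  have key := h g α β γ' δ' (u / g) ((C + 3) * (ω / g)) (12 * (lq F * (C + 3)) * v)
    (64 * (lq F * (C + 3)) * (1 + 1 / η) * ω) (η * c) hg (by positivity) (by linarith)
    (by linarith [hp.r3]) (by linarith [hp.r4]) e1 e2 h4
    ((mul_le_mul_of_nonneg_left hp.u1 (by linarith)).trans hc)
    ((mul_le_mul_of_nonneg_left hp.u2 (by linarith)).trans hc) hf (by positivity)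
    (le_of_eq (by rw [p4]; ring)) (one_le_mul_of_one_le_of_one_le (by nlinarith) ω1) (by
      have a1 : 1 / (g : ℝ) ≤ (1 + 1 / η) * (η * c) := by
        rw [add_mul, one_mul, ← mul_assoc, one_div_mul_cancel hη.ne', one_mul, div_le_iff₀' g0]
        nlinarith [mul_pos g0 (mul_pos hη hp.hc)]
      calc _ = 64 * (lq F * (C + 3)) * ω * (1 / g) := by ring
        _ ≤ 64 * (lq F * (C + 3)) * ω * ((1 + 1 / η) * (η * c)) := by gcongr
        _ = _ := by ring) (by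
      have a1 : 1 / (g : ℝ) ≤ (1 + 1 / η) * (u / g) := by
        refine le_trans (by gcongr) (le_mul_of_one_le_left (by positivity) (by linarith))
      calc _ = 8 * (lq F * (C + 3)) * ω * (1 / g) := by ring
        _ ≤ 64 * (lq F * (C + 3)) * ω * ((1 + 1 / η) * (u / g)) := by
          gcongr
          norm_num
        _ = _ := by ring)
  rw [mul_div_cancel₀ _ g0.ne'] at key
  exact key.trans (mul_le_mul_of_nonneg_right hn' (qp_pos (F := F) _).le)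

theorem small (hF : ringChar F ≠ 2) {C η : ℝ} (hC : 1 ≤ C) (hη : 0 < η) (T : ℝ) :
    ∃ K : ℝ, 0 ≤ K ∧ ∀ (g : ℕ) (c : ℝ) (α β γ δ : ℂ), 1 ≤ g → Pa C c α β γ δ →
      lq F * (C * c) ≤ 1 / 32 → Fx F (η * c) α β → g * c ≤ T →
      ‖av4 F g α β γ δ - pred F g α β γ δ‖ ≤
        K * qp F (2 * g * max 0 (-α.re) + 2 * g * max 0 (-β.re)) := by
  have hl := one_le_lq hF
  obtain ⟨K, hK, h⟩ := E_le hF
  have hη' : 0 < 1 / η := by positivity
  have c0 : 1 ≤ lq F * C := by nlinarith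
  refine ⟨Real.exp (2400 * (1 + Real.log (1 + 12 * (lq F * C))) *
    (T + 100 * Real.exp (2400 * (1 + Real.log (1 + 12 * (lq F * C)))))) +
    K * (64 * (lq F * C) * (1 + 1 / η)) ^ 4, by positivity,
    fun g c α β γ δ hg hp hc hf hT => ?_⟩
  have c1 := hp.hc
  refine (h g α β γ δ c (C * c) (12 * (lq F * C)) (64 * (lq F * C) * (1 + 1 / η)) (η * c) hg c1
    (by nlinarith) hp.r3 hp.r4 hp.d1 hp.d2 (by linarith)
    ((mul_le_mul_of_nonneg_left hp.u1 (by linarith)).trans hc)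
    ((mul_le_mul_of_nonneg_left hp.u2 (by linarith)).trans hc) hf (by positivity)
    (le_of_eq (by ring)) (by nlinarith) ?_ ?_).trans
    (mul_le_mul_of_nonneg_right ?_ (qp_pos (F := F) _).le)
  · have e : 64 * (lq F * C) * (1 + 1 / η) * (η * c) =
        64 * (lq F * (C * c)) + 64 * (lq F * C) * (η * c) := by
      field_simp
      ring
    rw [e]
    exact le_add_of_nonneg_right (by positivity)
  · have e : 64 * (lq F * C) * (1 + 1 / η) * c = 8 * (lq F * (C * c)) +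
        (56 * (lq F * C) * c + 64 * (lq F * C) * (1 / η) * c) := by ring
    rw [e]
    exact le_add_of_nonneg_right (by positivity)
  · have : 0 ≤ Real.log (1 + 12 * (lq F * C)) := Real.log_nonneg (by linarith)
    gcongr

theorem away (hF : ringChar F ≠ 2) {C ε : ℝ} (hC : 1 ≤ C) (hε : 0 < ε) (hε1 : ε ≤ 1) :
    ∃ c₀ : ℝ, 0 < c₀ ∧ ∀ η : ℝ, 0 < η → ∃ K : ℝ, 0 ≤ K ∧ ∀ (g : ℕ) (c : ℝ) (α β γ δ : ℂ),
      1 ≤ g → Pa C c α β γ δ → c ≤ c₀ → Fx F (η * c) α β →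
      ‖av4 F g α β γ δ - pred F g α β γ δ‖ ≤
        K * qp F ((-((2 - ε) * c) + 2 * max 0 (-α.re) + 2 * max 0 (-β.re)) * g) := by
  have hl := one_le_lq hF
  have c0 : 4 ≤ lq F * (C + 3) := by nlinarith
  obtain ⟨h, h0, h1⟩ : ∃ h : ℝ, 0 < h ∧ lq F * (C + 3) * h = 1 / 12 :=
    ⟨1 / (12 * (lq F * (C + 3))), by positivity, by field_simp⟩
  have h2 : h ≤ 1 / 48 := by nlinarith
  obtain ⟨c₁, a0, a1⟩ : ∃ c₁ : ℝ, 0 < c₁ ∧ c₁ = ε * h / 4 := ⟨_, by positivity, rfl⟩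
  have a2 : c₁ ≤ h / 4 := by nlinarith
  obtain ⟨K₁, hK₁, hR⟩ := right_edge hF (ε := ε * c₁ / 4) (by positivity)
  refine ⟨c₁ / (8 * C), by positivity, fun η hη => ?_⟩
  obtain ⟨B, hB, hD⟩ := on_dom hF hC hη
  have hcos := cos_pos (r := 4999 / 5000) (by norm_num) (by norm_num)
  obtain ⟨B', hB'⟩ : ∃ B' : ℝ, B' = (B + 2 * ((2 - ε / 2) * lq F)) /
    Real.cos (4999 / 5000 * (Real.pi / 2)) := ⟨_, rfl⟩
  have A0 : 0 < (2 - ε / 2) * lq F := mul_pos (by linarith) (by linarith)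
  have B0 : 0 < B' := by rw [hB']; positivity
  obtain ⟨T, hT⟩ := eventually_atTop.1 ((eventually_ge_atTop (1 : ℝ)).and
    ((ev_small (r := 4998 / 5000) (by norm_num) one_half_pos).and
      (ev_small (r := 4999 / 5000) (δ := ε / 2 / B') (by norm_num) (by positivity))))
  obtain ⟨K₂, hK₂, hS⟩ := small hF hC hη T
  refine ⟨K₁ + K₂ * qp F (2 * T), by have := qp_pos (F := F) (2 * T); positivity,
    fun g c α β γ δ hg hp hc hf => ?_⟩
  have g0 : (0 : ℝ) < g := by exact_mod_cast hg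
  have c1 := hp.hc
  have c2 : C * c ≤ c₁ / 8 := by
    rw [le_div_iff₀ (by positivity)] at hc
    linarith
  have c3 : lq F * (C * c) ≤ 1 / 32 := by nlinarith
  have c4 : c ≤ C * c := le_mul_of_one_le_left c1.le hC
  have gc : 0 < g * c := by positivity
  have hQ := qp_pos (F := F) (2 * g * max 0 (-α.re) + 2 * g * max 0 (-β.re))
  rw [show (-((2 - ε) * c) + 2 * max 0 (-α.re) + 2 * max 0 (-β.re)) * g =
    -((2 - ε) * (g * c)) + (2 * g * max 0 (-α.re) + 2 * g * max 0 (-β.re)) by ring, qp_add,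
    ← mul_assoc]
  have hq := qp_pos (F := F) (-((2 - ε) * (g * c)))
  rcases le_total (g * c) T with h3 | h3
  · refine (hS g c α β γ δ hg hp c3 hf h3).trans (mul_le_mul_of_nonneg_right ?_ hQ.le)
    rw [add_mul, mul_assoc, ← qp_add]
    refine le_add_of_nonneg_of_le (by positivity) (le_mul_of_one_le_right hK₂ ?_)
    exact qp_zero.ge.trans (qp_mono (by nlinarith))
  obtain ⟨t1, t2, t3⟩ := hT _ h3
  have re1 : ∀ x z : ℂ, (x + (z - (g * c : ℝ)) / g).re = x.re - c + z.re / g := fun x z => by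
    rw [Complex.add_re, Complex.div_natCast_re, Complex.sub_re, Complex.ofReal_re]
    field_simp
    ring
  have nq : ∀ {x : ℂ} {E : ℝ}, ‖x‖ ≤ E * qp F (2 * g * max 0 (-α.re) + 2 * g * max 0 (-β.re)) →
      ‖x / (qp F (2 * g * max 0 (-α.re) + 2 * g * max 0 (-β.re)) : ℝ)‖ ≤ E := fun hx => by
    rwa [norm_div, Complex.norm_real, Real.norm_of_nonneg hQ.le, div_le_iff₀ hQ]
  have key := interp (f := fun z => (av4 F g α β (γ + (z - (g * c : ℝ)) / g)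
      (δ + (z - (g * c : ℝ)) / g) - pred F g α β (γ + (z - (g * c : ℝ)) / g)
      (δ + (z - (g * c : ℝ)) / g)) / (qp F (2 * g * max 0 (-α.re) + 2 * g * max 0 (-β.re)) : ℝ))
    (X := c₁ * g) (H := h * g) (p := 4998 / 5000) (r := 4999 / 5000) t1 (by norm_num) (by norm_num)
    (by norm_num) (by gcongr; linarith) A0.le hB hK₁ (by nlinarith) (by linarith)
    ((E_diff hF g (by linarith [hp.u1]) (by linarith [hp.u2])
      (isOpen_lt continuous_const Complex.continuous_re) (by fun_prop) (by fun_prop)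
      fun z hz => by
        have a3 : 0 < z.re / g := div_pos hz g0
        rw [re1, re1]
        exact ⟨by linarith [hp.r3], by linarith [hp.r4]⟩).div_const _)
    (fun z z1 z2 z3 => nq (hD g c α β γ δ z hg hp c3 hf t1 z1 (by nlinarith) (by
      have z0 : 0 ≤ z.re := le_trans (by positivity) z1
      have a3 := norm_add_le z (g * c : ℝ)
      have a4 := Complex.norm_le_abs_re_add_abs_im z
      rw [Complex.norm_real, Real.norm_of_nonneg gc.le] at a3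
      rw [abs_of_nonneg z0] at a4
      have a5 : ‖z + (g * c : ℝ)‖ / g ≤ 3 * h := by
        rw [div_le_iff₀ g0]
        nlinarith
      rw [← mul_assoc]
      nlinarith [mul_le_mul_of_nonneg_left a5 (show 0 ≤ lq F * (C + 3) by linarith)])))
    fun z z1 z2 => nq (by
      have a3 : z.re / g = c₁ := by rw [z1, mul_div_cancel_right₀ _ g0.ne']
      refine (hR g α β _ _ c₁ (η * c) hg (by linarith) (by rw [re1]; linarith [hp.r3])
        (by rw [re1]; linarith [hp.r4]) (by nlinarith [hp.u1, hp.u2]) (by positivity) hf).trans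
        (mul_le_mul_of_nonneg_right (mul_le_mul_of_nonneg_left (Real.exp_le_exp.2
          (neg_le_neg ?_)) (by linarith)) hQ.le)
      have e : (2 - ε / 2) * lq F * (c₁ * g) + (2 - ε / 2) * lq F * (c₁ * g) ^ 3 /
          (2 * (h * g) ^ 2) = lq F * (c₁ * g) * ((2 - ε / 2) * (1 + ε ^ 2 / 32)) := by
        rw [a1]
        field_simp
        ring
      rw [e, show lq F * ((2 * c₁ - ε * c₁ / 4) * g) = lq F * (c₁ * g) * (2 - ε / 4) by ring]
      refine mul_le_mul_of_nonneg_left ?_ (by positivity)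
      nlinarith [mul_pos hε hε, mul_pos hε (mul_pos hε hε)])
  simp only [sub_self, zero_div, add_zero] at key
  rw [norm_div, Complex.norm_real, Real.norm_of_nonneg hQ.le, div_le_iff₀ hQ, ← hB'] at key
  refine key.trans (mul_le_mul_of_nonneg_right (mul_le_mul
    (le_add_of_nonneg_right (mul_nonneg hK₂ (qp_pos _).le)) ?_ (Real.exp_pos _).le
    (by have := qp_pos (F := F) (2 * T); positivity)) hQ.le)
  rw [qp_eq Fintype.card_pos, Real.exp_le_exp]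
  have a3 : B' * (2 * (g * c)) ^ (4999 / 5000 : ℝ) ≤ ε / 2 * (g * c) :=
    (mul_le_mul_of_nonneg_left t3 B0.le).trans_eq (by field_simp)
  nlinarith [mul_le_mul_of_nonneg_right hl (show 0 ≤ ε / 2 * (g * c) by positivity)]

end Pool.Agent.MP_dd7250_nt.SH

end

section

/- Ratios with the exponent two: the estimate up to the poles. -/

set_option autoImplicit false
set_option maxHeartbeats 400000

namespace Pool.Agent.MP_dd7250_nt.SH

open Polynomial Finset Filter Topology Pool.Agent.MP_d232b3_nt Pool.Agent.MP_dd7250_nt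
open Pool.Agent.MP_dd7250_nt.LS
open scoped Classical

variable (F : Type) [Field F] [Fintype F]

/-- The main term without its poles. -/
noncomputable def HH (α β γ δ : ℂ) : ℂ := AA4 F α β γ δ *
  ((1 - xv F α * xv F γ) * (1 - xv F α * xv F δ) * (1 - xv F β * xv F γ) *
    (1 - xv F β * xv F δ)) / (1 - xv F γ * xv F δ)

/-- The common denominator of the four terms. -/
noncomputable def WW (α β : ℂ) : ℂ :=
  (1 - xv F α ^ 2) * (1 - xv F β ^ 2) * (1 - xv F α * xv F β) * (xv F β - xv F α)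

/-- The numerator of the prediction. -/
noncomputable def NW (g : ℕ) (α β γ δ : ℂ) : ℂ :=
  (xv F β - xv F α) * HH F α β γ δ +
    (xv F β ^ 2) ^ g * (-(xv F β ^ 3 * (1 - xv F α * xv F β)) * HH F α (-β) γ δ) +
    ((xv F α ^ 2) ^ g * (xv F α ^ 3 * (1 - xv F α * xv F β) * HH F (-α) β γ δ) +
      (xv F α ^ 2) ^ g * (xv F β ^ 2) ^ g *
        (-(xv F α ^ 3 * xv F β ^ 3 * (xv F β - xv F α)) * HH F (-α) (-β) γ δ))

variable {F}

theorem HH_comm (α β γ δ : ℂ) : HH F α β γ δ = HH F β α γ δ := by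
  rw [HH, HH, AA4_comm]
  ring

theorem HH_congr {α α' β β' : ℂ} (h : xv F α = xv F α') (h' : xv F β = xv F β') (γ δ : ℂ) :
    HH F α β γ δ = HH F α' β' γ δ := by
  rw [HH, HH, AA4_congr h, AA4_comm, AA4_congr h', AA4_comm, h, h']

theorem pred_eq {g : ℕ} {α β : ℂ} (h : WW F α β ≠ 0) (γ δ : ℂ) :
    (WW F α β * av4 F g α β γ δ - NW F g α β γ δ) / WW F α β =
      av4 F g α β γ δ - pred F g α β γ δ := by
  have e : ∀ (d m H : ℂ), d * m = WW F α β → H / d = m * H / WW F α β := fun d m H h1 => by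
    rw [← h1] at h ⊢
    rw [mul_comm d, mul_div_mul_left _ _ (right_ne_zero_of_mul h)]
  have h1 := xv_ne (F := F) α
  have h2 := xv_ne (F := F) β
  rw [sub_div, mul_div_cancel_left₀ _ h, pred, GG_x, GG_x, GG_x, GG_x,
    e (den (xv F α) (xv F β)) (xv F β - xv F α) _ rfl,
    e (den (xv F α) (xv F (-β))) (-(xv F β ^ 3 * (1 - xv F α * xv F β))) _ (by
      rw [xv_neg, den, WW]; field_simp; ring),
    e (den (xv F (-α)) (xv F β)) (xv F α ^ 3 * (1 - xv F α * xv F β)) _ (by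
      rw [xv_neg, den, WW]; field_simp; ring),
    e (den (xv F (-α)) (xv F (-β))) (-(xv F α ^ 3 * xv F β ^ 3 * (xv F β - xv F α))) _ (by
      rw [xv_neg, xv_neg, den, WW]; field_simp; ring), NW, HH, HH, HH, HH]
  ring

theorem xv_deriv (α a z : ℂ) :
    HasDerivAt (fun ζ => xv F (α + a * ζ)) (xv F (α + a * z) * -(lq F * a)) z := by
  simp only [xv_eq]
  exact (((((hasDerivAt_id z).const_mul a).const_add α).const_mul (lq F : ℂ)).neg.cexp).congr_deriv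
    (by simp)

theorem WW_deriv (α β τ z : ℂ) : deriv (fun ζ => WW F (α + 1 * ζ) (β + τ * ζ)) z = lq F *
    (2 * xv F (α + 1 * z) ^ 2 * (1 - xv F (β + τ * z) ^ 2) *
      (1 - xv F (α + 1 * z) * xv F (β + τ * z)) * (xv F (β + τ * z) - xv F (α + 1 * z)) +
    2 * τ * xv F (β + τ * z) ^ 2 * (1 - xv F (α + 1 * z) ^ 2) *
      (1 - xv F (α + 1 * z) * xv F (β + τ * z)) * (xv F (β + τ * z) - xv F (α + 1 * z)) +
    (1 + τ) * (xv F (α + 1 * z) * xv F (β + τ * z)) * (1 - xv F (α + 1 * z) ^ 2) *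
      (1 - xv F (β + τ * z) ^ 2) * (xv F (β + τ * z) - xv F (α + 1 * z)) +
    (xv F (α + 1 * z) - τ * xv F (β + τ * z)) * (1 - xv F (α + 1 * z) ^ 2) *
      (1 - xv F (β + τ * z) ^ 2) * (1 - xv F (α + 1 * z) * xv F (β + τ * z))) := by
  have h1 := xv_deriv (F := F) α 1 z
  have h2 := xv_deriv (F := F) β τ z
  refine (((((h1.pow 2).const_sub 1).mul ((h2.pow 2).const_sub 1)).mul
    ((h1.mul h2).const_sub 1)).mul (h2.sub h1)).deriv.trans ?_
  simp only [Pi.mul_apply, Pi.pow_apply, Pi.sub_apply]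
  push_cast
  ring

theorem WW_zero {a b τ : ℂ} (h : ¬ (xv F a ^ 2 = 1 ∧ xv F b ^ 2 = 1)) (t0 : τ ≠ 0)
    (t1 : 1 + τ ≠ 0) (t2 : 1 - τ ≠ 0) (hW : WW F a b = 0) (g : ℕ) (γ δ : ℂ) :
    NW F g a b γ δ = 0 ∧
    2 * xv F a ^ 2 * (1 - xv F b ^ 2) * (1 - xv F a * xv F b) * (xv F b - xv F a) +
    2 * τ * xv F b ^ 2 * (1 - xv F a ^ 2) * (1 - xv F a * xv F b) * (xv F b - xv F a) +
    (1 + τ) * (xv F a * xv F b) * (1 - xv F a ^ 2) * (1 - xv F b ^ 2) * (xv F b - xv F a) +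
    (xv F a - τ * xv F b) * (1 - xv F a ^ 2) * (1 - xv F b ^ 2) * (1 - xv F a * xv F b) ≠ 0 := by
  have e0 : ∀ {x y : ℂ}, xv F x * xv F y = 1 → xv F (-x) = xv F y := fun h1 => by
    rw [xv_neg, inv_eq_of_mul_eq_one_right h1]
  have e1 : ∀ {x y : ℂ}, x ^ 2 = 1 → y ^ 2 ≠ 1 → 1 - x * y ≠ 0 ∧ y - x ≠ 0 := fun {x y} h1 h2 =>
    ⟨fun h3 => h2 (by linear_combination (-(y ^ 2)) * h1 - (1 + x * y) * h3),
      fun h3 => h2 (by linear_combination h1 + (y + x) * h3)⟩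
  by_cases ha : xv F a ^ 2 = 1
  · have hb : xv F b ^ 2 ≠ 1 := fun hb => h ⟨ha, hb⟩
    have h1 := e0 ((pow_two _).symm.trans ha)
    obtain ⟨h2, h3⟩ := e1 ha hb
    constructor
    · rw [NW, HH_congr h1 rfl, HH_congr (β := -b) h1 rfl, pow_succ (xv F a) 2, ha, one_pow]
      linear_combination (-(xv F b * HH F a b γ δ) +
        (xv F b ^ 2) ^ g * xv F b ^ 3 * HH F a (-b) γ δ) * ha
    · rw [ha]
      refine ne_of_eq_of_ne (b := 2 * (1 - xv F b ^ 2) * (1 - xv F a * xv F b) *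
        (xv F b - xv F a)) (by ring) ?_
      exact mul_ne_zero (mul_ne_zero (mul_ne_zero two_ne_zero (sub_ne_zero.2 hb.symm)) h2) h3
  by_cases hb : xv F b ^ 2 = 1
  · have h1 := e0 ((pow_two _).symm.trans hb)
    obtain ⟨h2, h3⟩ := e1 hb ha
    constructor
    · rw [NW, HH_congr rfl h1, HH_congr (α := -a) rfl h1, pow_succ (xv F b) 2, hb, one_pow]
      linear_combination (xv F a * HH F a b γ δ -
        (xv F a ^ 2) ^ g * xv F a ^ 3 * HH F (-a) b γ δ) * hb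
    · rw [hb]
      refine ne_of_eq_of_ne (b := -2 * τ * (1 - xv F a ^ 2) * (1 - xv F b * xv F a) *
        (xv F a - xv F b)) (by ring) ?_
      exact mul_ne_zero (mul_ne_zero (mul_ne_zero (mul_ne_zero (by norm_num) t0)
        (sub_ne_zero.2 (Ne.symm ha))) h2) h3
  by_cases hc : xv F a * xv F b = 1
  · have h6 : xv F b - xv F a ≠ 0 := fun h7 => ha (by rw [← hc, sub_eq_zero.1 h7, pow_two])
    constructor
    · rw [NW, ← mul_pow, ← mul_pow, ← mul_pow, hc,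
        HH_congr (e0 hc) (e0 ((mul_comm _ _).trans hc)), HH_comm b a]
      ring
    · rw [hc]
      refine ne_of_eq_of_ne (b := (1 + τ) * (1 - xv F a ^ 2) * (1 - xv F b ^ 2) *
        (xv F b - xv F a)) (by ring) ?_
      exact mul_ne_zero (mul_ne_zero (mul_ne_zero t1 (sub_ne_zero.2 (Ne.symm ha)))
        (sub_ne_zero.2 (Ne.symm hb))) h6
  · have hd : xv F b = xv F a := by
      by_contra hd
      exact mul_ne_zero (mul_ne_zero (mul_ne_zero (sub_ne_zero.2 (Ne.symm ha))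
        (sub_ne_zero.2 (Ne.symm hb))) (sub_ne_zero.2 (Ne.symm hc))) (sub_ne_zero.2 hd) hW
    constructor
    · rw [NW, HH_comm (-a) b, HH_congr hd (show xv F (-a) = xv F (-b) by
        rw [xv_neg, xv_neg, hd]), hd]
      ring
    · rw [hd]
      refine ne_of_eq_of_ne (b := (1 - τ) * xv F a * (1 - xv F a ^ 2) ^ 3) (by ring) ?_
      exact mul_ne_zero (mul_ne_zero t2 (xv_ne a)) (pow_ne_zero _ (sub_ne_zero.2 (Ne.symm ha)))

theorem WW_ne {e : ℝ} (he : 0 < e) {α β : ℂ} (h : Fx F e α β) : WW F α β ≠ 0 := by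
  have n : ∀ {x : ℂ}, e ≤ ‖1 - xv F (2 * x)‖ → xv F x ^ 2 ≠ 1 := fun hx h1 => by
    rw [xv_two, h1, sub_self, norm_zero] at hx
    linarith
  refine mul_ne_zero (mul_ne_zero (mul_ne_zero (sub_ne_zero.2 (n h.h1).symm)
    (sub_ne_zero.2 (n h.h2).symm)) (sub_ne_zero.2 fun h1 => n h.h3 ?_))
    (sub_ne_zero.2 fun h1 => n h.h4 ?_)
  · rw [xv_add, ← h1, one_pow]
  · rw [sub_eq_add_neg, xv_add, xv_neg, h1, mul_inv_cancel₀ (xv_ne α), one_pow]

theorem sq_inj {w : ℂ} (h : lq F * ‖w‖ ≤ 1 / 2) (h1 : xv F w ^ 2 = 1) : w = 0 := by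
  have h2 := le_xv_sub_one (F := F) (α := 2 * w) (by rw [norm_mul, Complex.norm_two]; linarith)
  rw [xv_two, h1, sub_self, norm_zero, norm_mul, Complex.norm_two] at h2
  have h3 := lq_pos_GX (F := F)
  exact norm_le_zero_iff.1 (by nlinarith [norm_nonneg w])

theorem near (hF : ringChar F ≠ 2) (u : ℂ) {t : ℂ} {e : ℝ} (t1 : 1 ≤ ‖t‖) (t2 : ‖t‖ ≤ 8)
    (he : 0 < e) (h : lq F * e ≤ 1 / 200) : ∃ ζ₀ : ℂ, ∀ ζ : ℂ, ‖ζ‖ ≤ 11 * e → e ≤ ‖ζ - ζ₀‖ →
      e / 4 ≤ ‖1 - xv F (u + t * ζ)‖ := by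
  have hl := one_le_lq hF
  by_cases h1 : ∃ ζ₀ : ℂ, ‖ζ₀‖ ≤ 12 * e ∧ xv F (u + t * ζ₀) = 1
  · obtain ⟨ζ₀, h2, h3⟩ := h1
    refine ⟨ζ₀, fun ζ h4 h5 => ?_⟩
    have h6 : ‖t * (ζ - ζ₀)‖ ≤ 8 * (23 * e) := by
      rw [norm_mul]
      exact mul_le_mul t2 ((norm_sub_le _ _).trans (by linarith)) (norm_nonneg _) (by norm_num)
    have h7 : e ≤ ‖t * (ζ - ζ₀)‖ := by
      rw [norm_mul]
      exact h5.trans (le_mul_of_one_le_left (norm_nonneg _) t1)
    rw [show u + t * ζ = u + t * ζ₀ + t * (ζ - ζ₀) by ring, xv_add, h3, one_mul]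
    refine le_trans ?_ (le_xv_sub_one (by nlinarith))
    nlinarith
  · refine ⟨0, fun ζ h4 _ => not_lt.1 fun h5 => h1 ?_⟩
    have h6 := Complex.norm_log_one_add_half_le_self (z := xv F (u + t * ζ) - 1) (by
      rw [norm_sub_rev]; nlinarith)
    rw [add_sub_cancel, norm_sub_rev] at h6
    have l0 : (lq F : ℂ) ≠ 0 := Complex.ofReal_ne_zero.2 (by linarith)
    have t0 : t ≠ 0 := norm_pos_iff.1 (by linarith)
    refine ⟨ζ + Complex.log (xv F (u + t * ζ)) / (lq F * t), (norm_add_le _ _).trans ?_, ?_⟩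
    · have h7 : ‖Complex.log (xv F (u + t * ζ)) / (lq F * t)‖ ≤ e := by
        rw [norm_div, norm_mul, Complex.norm_real, Real.norm_of_nonneg (by linarith)]
        exact (div_le_self (norm_nonneg _) (one_le_mul_of_one_le_of_one_le hl t1)).trans
          (by linarith)
      linarith
    · rw [mul_add, ← add_assoc, xv_add, xv_eq (t * _), show (lq F : ℂ) *
        (t * (Complex.log (xv F (u + t * ζ)) / (lq F * t))) = Complex.log (xv F (u + t * ζ)) by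
          field_simp, Complex.exp_neg, Complex.exp_log (xv_ne _), mul_inv_cancel₀ (xv_ne _)]

theorem slope {α β : ℂ} {R : ℝ} (hR : lq F * R ≤ 1 / 4) (ha : xv F α ^ 2 ≠ 1) :
    ∃ τ : ℂ, 1 ≤ ‖τ‖ ∧ ‖τ‖ ≤ 3 ∧ 1 ≤ ‖1 + τ‖ ∧ 1 ≤ ‖1 - τ‖ ∧ ∀ ζ : ℂ, ‖ζ‖ ≤ R →
      ¬ (xv F (α + 1 * ζ) ^ 2 = 1 ∧ xv F (β + τ * ζ) ^ 2 = 1) := by
  have hl := (lq_pos_GX (F := F)).le
  have e : ∀ {x w : ℂ}, lq F * ‖w‖ ≤ 1 / 2 → xv F x ^ 2 = 1 → xv F (x + w) ^ 2 = 1 → w = 0 :=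
    fun h1 h2 h3 => sq_inj h1 (by rwa [xv_add, mul_pow, h2, one_mul] at h3)
  by_cases h2 : ∀ ζ : ℂ, ‖ζ‖ ≤ R → ¬ (xv F (α + 1 * ζ) ^ 2 = 1 ∧ xv F (β + 2 * ζ) ^ 2 = 1)
  · exact ⟨2, by norm_num, by norm_num, by norm_num, by norm_num, h2⟩
  refine ⟨3, by norm_num, by norm_num, by norm_num, by norm_num, fun ζ h3 h4 => h2 fun ξ h5 h6 => ?_⟩
  have a1 := mul_le_mul_of_nonneg_left h3 hl
  have a2 := mul_le_mul_of_nonneg_left h5 hl
  have a3 := mul_le_mul_of_nonneg_left (norm_sub_le ξ ζ) hl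
  obtain rfl : ξ = ζ := sub_eq_zero.1 (e (by linarith) h4.1 (by
    rw [show α + 1 * ζ + (ξ - ζ) = α + 1 * ξ by ring]; exact h6.1))
  obtain rfl : ξ = 0 := e (by linarith) h6.2 (by
    rw [show β + 2 * ξ + ξ = β + 3 * ξ by ring]; exact h4.2)
  exact ha (by simpa using h4.1)

theorem num_diff (hF : ringChar F ≠ 2) (g : ℕ) {u v : ℂ → ℂ} {γ δ : ℂ} {S : Set ℂ}
    (hS : IsOpen S) (hu : Differentiable ℂ u) (hv : Differentiable ℂ v) (h3 : 0 ≤ γ.re)
    (h4 : 0 ≤ δ.re) (h : ∀ ζ ∈ S, |(u ζ).re| ≤ 1 / 32 ∧ |(v ζ).re| ≤ 1 / 32) :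
    DifferentiableOn ℂ (fun ζ => WW F (u ζ) (v ζ) * av4 F g (u ζ) (v ζ) γ δ -
      NW F g (u ζ) (v ζ) γ δ) S := by
  have h6 := xv_diff (F := F)
  have hH : ∀ {a b : ℂ → ℂ}, Differentiable ℂ a → Differentiable ℂ b →
      (∀ ζ ∈ S, -(1 / 32) ≤ (a ζ).re) → (∀ ζ ∈ S, -(1 / 32) ≤ (b ζ).re) →
      DifferentiableOn ℂ (fun ζ => HH F (a ζ) (b ζ) γ δ) S := fun ha hb h1 h2 => by
    have h5 := AA4_on hF hS ha hb (differentiable_const γ) (differentiable_const δ) fun ζ hζ =>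
      ⟨h1 ζ hζ, h2 ζ hζ, by linarith, by linarith⟩
    simp only [HH]
    fun_prop
  have a1 := fun ζ hζ => (abs_le.1 (h ζ hζ).1).1
  have a2 := fun ζ hζ => (abs_le.1 (h ζ hζ).2).1
  have a3 : ∀ ζ ∈ S, -(1 / 32) ≤ (-u ζ).re := fun ζ hζ => neg_le_neg (abs_le.1 (h ζ hζ).1).2
  have a4 : ∀ ζ ∈ S, -(1 / 32) ≤ (-v ζ).re := fun ζ hζ => neg_le_neg (abs_le.1 (h ζ hζ).2).2
  have k1 := hH hu hv a1 a2
  have k2 := hH hu hv.fun_neg a1 a4
  have k3 := hH hu.fun_neg hv a3 a2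
  have k4 := hH hu.fun_neg hv.fun_neg a3 a4
  have h7 := LD_diff (F := F) g
  unfold WW NW av4
  fun_prop

theorem fin_main (hF : ringChar F ≠ 2) {C ε : ℝ} (hC : 1 ≤ C) (hε : 0 < ε) (hε1 : ε ≤ 1) :
    ∃ K c₀ : ℝ, 0 ≤ K ∧ 0 < c₀ ∧ ∀ (g : ℕ) (c : ℝ) (α β γ δ : ℂ), 1 ≤ g → Pa C c α β γ δ →
      c ≤ c₀ → xv F α ^ 2 ≠ 1 → WW F α β ≠ 0 → ‖av4 F g α β γ δ - pred F g α β γ δ‖ ≤
        K * qp F ((-((2 - ε) * c) + 2 * max 0 (-α.re) + 2 * max 0 (-β.re)) * g) := by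
  obtain ⟨c₀, hc₀, h⟩ := away hF (C := 2 * C) (ε := ε / 2) (by linarith) (by linarith)
    (by linarith)
  obtain ⟨K, hK, h⟩ := h (ε / 160 / 4) (by positivity)
  have hq := one_le_lq hF
  refine ⟨K, min c₀ (1 / (64 * C * lq F)), hK, lt_min hc₀ (by positivity),
    fun g c α β γ δ hg hs hc ha h0 => ?_⟩
  have hc0 := hs.hc
  have hc1 : C * (lq F * c) ≤ 1 / 64 := by
    have h1 := hc.trans (min_le_right _ _)
    rw [le_div_iff₀ (by positivity)] at h1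
    linarith
  have hc2 : C * c ≤ 1 / 64 := by nlinarith [mul_pos (zero_lt_one.trans_le hC) hc0]
  have hc3 : lq F * c ≤ 1 / 64 := by nlinarith [mul_pos (zero_lt_one.trans_le hq) hc0]
  obtain ⟨e, he, he2⟩ : ∃ e : ℝ, 0 < e ∧ 160 * e = ε * c := ⟨ε / 160 * c, by positivity, by ring⟩
  have he0 : 160 * e ≤ c := by nlinarith
  have he1 : 33 * e ≤ C * c := by nlinarith
  have he3 : lq F * e ≤ 1 / 200 := by nlinarith
  obtain ⟨τ, t0, t3, t1, t2, hτ⟩ := slope (β := β) (R := 11 * e) (by linarith) ha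
  have n0 : ∀ {x : ℂ}, 1 ≤ ‖x‖ → x ≠ 0 := fun hx => norm_pos_iff.1 (zero_lt_one.trans_le hx)
  have nn : ∀ (u : ℂ) {t : ℂ}, 1 ≤ ‖t‖ → ‖t‖ ≤ 4 → ∃ ζ₀ : ℂ, ∀ ζ : ℂ, ‖ζ‖ ≤ 11 * e →
      e ≤ ‖ζ - ζ₀‖ → ε / 160 / 4 * c ≤ ‖1 - xv F (2 * (u + t * ζ))‖ := fun u t a1 a2 => by
    obtain ⟨ζ₀, a3⟩ := near hF (2 * u) (t := 2 * t) (by rw [norm_mul, Complex.norm_two]; linarith)
      (by rw [norm_mul, Complex.norm_two]; linarith) he he3
    refine ⟨ζ₀, fun ζ a4 a5 => ?_⟩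
    rw [mul_add, ← mul_assoc]
    linarith [a3 ζ a4 a5]
  obtain ⟨ζ₁, z1⟩ := nn α norm_one.ge (by norm_num)
  obtain ⟨ζ₂, z2⟩ := nn β t0 (by linarith)
  obtain ⟨ζ₃, z3⟩ := nn (α + β) t1 ((norm_add_le _ _).trans (by rw [norm_one]; linarith))
  obtain ⟨ζ₄, z4⟩ := nn (α - β) t2 ((norm_sub_le _ _).trans (by rw [norm_one]; linarith))
  obtain ⟨ρ, hρ, hρ1, hρ2⟩ := mp_radius ![ζ₁, ζ₂, ζ₃, ζ₄] he
  have s1 : ∀ ζ : ℂ, ‖ζ‖ ≤ 11 * e → Pa (2 * C) c (α + 1 * ζ) (β + τ * ζ) γ δ := by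
    intro ζ hζ
    have h3 := mul_le_mul t3 hζ (norm_nonneg _) zero_le_three
    rw [← norm_mul] at h3
    have h4 : ‖1 * ζ‖ ≤ 11 * e := by rwa [one_mul]
    have m1 : ∀ x w : ℂ, |(x + w).re| ≤ |x.re| + ‖w‖ := fun x w =>
      (abs_add_le _ _).trans (add_le_add le_rfl (Complex.abs_re_le_norm w))
    have m2 : ∀ x w y : ℂ, ‖x + w - y‖ ≤ ‖x - y‖ + ‖w‖ := fun x w y => by
      rw [add_sub_right_comm]
      exact norm_add_le _ _
    exact ⟨hc0, hs.r3, hs.r4, by linarith [m1 α (1 * ζ), hs.u1], by linarith [m1 β (τ * ζ), hs.u2],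
      by linarith [m2 α (1 * ζ) γ, hs.d1], by linarith [m2 β (τ * ζ) δ, hs.d2]⟩
  have key := mp (ρ := ρ) (R := 11 * e) (M := K * qp F
      ((-((2 - ε) * c) + 2 * max 0 (-α.re) + 2 * max 0 (-β.re)) * g)) hρ (by linarith)
    (num_diff hF g (u := fun ζ => α + 1 * ζ) (v := fun ζ => β + τ * ζ) (γ := γ) (δ := δ)
      Metric.isOpen_ball (by fun_prop) (by fun_prop) (by linarith [hs.r3]) (by linarith [hs.r4])
      fun ζ hζ => by
        have b1 := s1 ζ (mem_ball_zero_iff.1 hζ).le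
        exact ⟨by linarith [b1.u1], by linarith [b1.u2]⟩)
    (P := fun ζ => WW F (α + 1 * ζ) (β + τ * ζ)) (by
      have h6 := xv_diff (F := F)
      unfold WW
      fun_prop) (fun ζ hζ hW => by
      obtain ⟨w1, w2⟩ := WW_zero (hτ ζ (mem_ball_zero_iff.1 hζ).le) (n0 t0) (n0 t1) (n0 t2) hW g γ δ
      refine ⟨by simp only [hW, w1, zero_mul, sub_zero], ?_⟩
      rw [WW_deriv]
      exact mul_ne_zero (Complex.ofReal_ne_zero.2 (by positivity)) w2)
    (by simpa only [mul_zero, add_zero] using h0) fun ζ hζ => by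
      have b0 : ‖ζ‖ ≤ 11 * e := by linarith
      have hf : Fx F (ε / 160 / 4 * c) (α + 1 * ζ) (β + τ * ζ) :=
        ⟨z1 ζ b0 (hρ2 0 ζ hζ), z2 ζ b0 (hρ2 1 ζ hζ),
          (z3 ζ b0 (hρ2 2 ζ hζ)).trans_eq (by congr 4; ring),
          (z4 ζ b0 (hρ2 3 ζ hζ)).trans_eq (by congr 4; ring)⟩
      have hW := WW_ne (by positivity) hf
      refine ⟨hW, ?_⟩
      rw [pred_eq hW]
      refine (h g c _ _ γ δ hg (s1 ζ b0) (hc.trans (min_le_left _ _)) hf).trans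
        (mul_le_mul_of_nonneg_left (qp_mono
          (mul_le_mul_of_nonneg_right ?_ (Nat.cast_nonneg g))) hK)
      have m : ∀ (u z : ℂ), max 0 (-(u + z).re) ≤ max 0 (-u.re) + ‖z‖ := fun u z =>
        max_le (by positivity) (by
          rw [Complex.add_re]
          linarith [(abs_le.1 (Complex.abs_re_le_norm z)).1, le_max_right 0 (-u.re)])
      have m1 := m α (1 * ζ)
      have m2 := m β (τ * ζ)
      rw [norm_mul, hζ] at m1 m2
      rw [norm_one] at m1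
      linarith [mul_le_mul_of_nonneg_right t3 hρ.le]
  simp only [mul_zero, add_zero] at key
  rwa [pred_eq h0] at key

end Pool.Agent.MP_dd7250_nt.SH

end
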